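import Pool.Agent.L0h8.SK.Hit
import Pool.Agent.L0h8.ND.Num
import Pool.Agent.R236.DenE

/-!
Choice of the parameters, for a small number of generators.
-/

set_option autoImplicit false

namespace Pool.Agent.L0h8.SK
open Filter Topology RC14
open Pool.Agent.L0h8.ND (one_sub_pow_le)

/-- a prime of the right size which does not divide `N` -/
lemma exists_prime' (S : ℕ) (hS : 1 ≤ S) : ∀ (r N : ℕ), 0 < N → N < (S + 1) ^ r →
    ∃ s : ℕ, s.Prime ∧ S < s ∧ s ≤ 2 ^ r * S ∧ ¬ s ∣ N := by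
  intro r
  induction r with
  | zero => intro N h1 h2; simp at h2; omega
  | succ r ih =>
    intro N h1 h2
    have hpos : 1 ≤ 2 ^ r := Nat.one_le_two_pow
    have hle : S ≤ 2 ^ r * S := Nat.le_mul_of_pos_left S (by omega)
    obtain ⟨p, hp, h3, h4⟩ := Nat.exists_prime_lt_and_le_two_mul (2 ^ r * S) (by omega)
    by_cases hpN : p ∣ N
    · obtain ⟨N', rfl⟩ := hpN
      have hN' : 0 < N' := Nat.pos_of_mul_pos_left h1 |> fun h => by
        rcases Nat.eq_zero_or_pos N' with h0 | h0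
        · subst h0; simp at h1
        · exact h0
      have h5 : N' < (S + 1) ^ r := by
        by_contra hcon
        push Not at hcon
        have : (S + 1) ^ (r + 1) ≤ p * N' := by
          rw [pow_succ, mul_comm]
          exact Nat.mul_le_mul (by omega) hcon
        omega
      obtain ⟨s, hs, h6, h7, h8⟩ := ih N' hN' h5
      refine ⟨s, hs, h6, ?_, ?_⟩
      · calc s ≤ 2 ^ r * S := h7
          _ ≤ 2 ^ (r + 1) * S := Nat.mul_le_mul_right _ (Nat.pow_le_pow_right (by norm_num) (by omega))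
      · intro hd
        rcases (Nat.Prime.dvd_mul hs).1 hd with h | h
        · have := (Nat.prime_dvd_prime_iff_eq hs hp).1 h
          omega
        · exact h8 h
    · refine ⟨p, hp, by omega, ?_, hpN⟩
      rw [pow_succ, mul_comm (2 ^ r) 2, mul_assoc]
      exact h4

/-- the conditions for the decay of class functions -/
structure HitPar (n k N F I J0 ℓ t L : ℕ) (κ θ : ℝ) : Prop where
  hN : 100 ≤ N
  hNn : 2 * (12096 * N) ≤ n
  hn : 1000 ≤ n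
  hF : 2 * F ≤ n
  hI : 1 ≤ I
  hJF : J0 ≤ F
  hJI : n * J0 ^ (I + 1) ≤ F ^ (I + 1)
  hb1 : 2 * Real.exp 4 * F / n ≤ 1
  hκ1 : (2 * Real.exp 4 * F / n) ^ 2 ≤ κ
  hκ2 : ∀ j, N * j ≤ n → bb j J0 n F ^ J0 ≤ κ
  hκ3 : Real.exp (-(1 / (2 * 336 * 12096 * (N : ℝ) ^ 2) * n)) ≤ κ
  hℓ : I * (2 * t) ≤ ℓ
  hθ0 : 0 < θ
  hθ1 : θ < 1
  hfin : (1 / θ) ^ (2 * t) * ((Real.sqrt (2 * k - 1) / k) ^ (2 * t) + κ) +
        ((1 + θ) / 2) ^ (2 * L) ≤ 6 * (n : ℝ) ^ (-(3 / 2) : ℝ)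

lemma s0_le (k : ℕ) (hk : 2 ≤ k) (t : ℕ) :
    (Real.sqrt (2 * k - 1) / k) ^ (2 * t) ≤ (3 / 4 : ℝ) ^ t := by
  have hkr : (2 : ℝ) ≤ k := by exact_mod_cast hk
  rw [pow_mul]
  apply pow_le_pow_left₀ (by positivity)
  rw [div_pow, Real.sq_sqrt (by linarith), div_le_iff₀ (by positivity)]
  nlinarith

theorem hit_par (k : ℕ) (hk : 2 ≤ k) (d : ℝ) (hd : 0 < d) : ∀ᶠ n : ℕ in atTop,
    HitPar n k ⌈(n : ℝ) ^ (1 / 8 : ℝ)⌉₊ ⌈(n : ℝ) ^ (1 / 16 : ℝ)⌉₊ 31 32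
      ⌊(n : ℝ) ^ (1 / 64 : ℝ)⌋₊ ⌈8 * Real.log n⌉₊ ⌈(n : ℝ) ^ d⌉₊
      ((n : ℝ) ^ (-(7 / 4) : ℝ)) (Real.exp (-(1 / 64))) := by
  set θ : ℝ := Real.exp (-(1 / 64)) with hθ
  have hθ0 : 0 < θ := Real.exp_pos _
  have hθ1 : θ < 1 := by rw [hθ, Real.exp_lt_one_iff]; norm_num
  filter_upwards [ev_const (1 / 8) 100 (by norm_num), ev_le (1 / 8) 1 50000 (by norm_num),
    ev_le (1 / 16) 1 500 (by norm_num), ev_const 1 ((32 : ℝ) ^ 32) (by norm_num),
    ev_const (1 / 16) 32 (by norm_num), ev_const (1 / 8) (240 ^ 2) (by norm_num),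
    ev_const (1 / 3) 32 (by norm_num), ev_le (-(1 / 8)) (-(1 / 16)) 10 (by norm_num),
    ev_log 0 (3 / 4) (7 / 4 * (4 * (2 * 336 * 12096))) (by norm_num),
    ev_log 0 (1 / 64) 992 (by norm_num), ev_log 0 d (2 / (1 - θ)) hd,
    ev_const (1 / 64) 126 (by norm_num), ev_le (1 / 16) (7 / 8) 1 (by norm_num),
    eventually_ge_atTop 1000] with n g1 g2 g3 g4 g5 g6 g7 g8 g9 g10 g11 g12 g13 hn
  have hnr : (1000 : ℝ) ≤ n := by exact_mod_cast hn
  have hn0 : (0 : ℝ) < n := lt_of_lt_of_le (by norm_num) hnr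
  have hn1 : (1 : ℝ) ≤ n := le_trans (by norm_num) hnr
  rw [Real.rpow_one] at g2 g3 g4
  rw [Real.rpow_zero, mul_one] at g9 g10 g11
  have hlog : 0 < Real.log n := Real.log_pos (by linarith)
  set N : ℕ := ⌈(n : ℝ) ^ (1 / 8 : ℝ)⌉₊ with hN
  set F : ℕ := ⌈(n : ℝ) ^ (1 / 16 : ℝ)⌉₊ with hF
  set ℓ : ℕ := ⌊(n : ℝ) ^ (1 / 64 : ℝ)⌋₊ with hℓ
  set t : ℕ := ⌈8 * Real.log n⌉₊ with ht
  set L : ℕ := ⌈(n : ℝ) ^ d⌉₊ with hL
  have hN1 : (n : ℝ) ^ (1 / 8 : ℝ) ≤ N := Nat.le_ceil _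
  have hN2 : (N : ℝ) ≤ 2 * (n : ℝ) ^ (1 / 8 : ℝ) := by
    have : (N : ℝ) < (n : ℝ) ^ (1 / 8 : ℝ) + 1 := Nat.ceil_lt_add_one (by positivity)
    linarith
  have hF1 : (n : ℝ) ^ (1 / 16 : ℝ) ≤ F := Nat.le_ceil _
  have hF2 : (F : ℝ) ≤ 2 * (n : ℝ) ^ (1 / 16 : ℝ) := by
    have : (F : ℝ) < (n : ℝ) ^ (1 / 16 : ℝ) + 1 := Nat.ceil_lt_add_one (by positivity)
    linarith
  have ht1 : 8 * Real.log n ≤ t := Nat.le_ceil _
  have ht2 : (t : ℝ) < 8 * Real.log n + 1 := Nat.ceil_lt_add_one (by positivity)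
  have hL1 : (n : ℝ) ^ d ≤ L := Nat.le_ceil _
  have hN100 : 100 ≤ N := by
    have : (100 : ℝ) ≤ N := g1.trans hN1
    exact_mod_cast this
  have e4 : Real.exp 4 ≤ 60 := by
    have h10 : Real.exp 4 = Real.exp 1 ^ 4 := by rw [← Real.exp_nat_mul]; norm_num
    rw [h10]
    have h11 := Real.exp_one_lt_d9
    calc Real.exp 1 ^ 4 ≤ (2.7182818286 : ℝ) ^ 4 := by gcongr
      _ ≤ 60 := by norm_num
  have hb : 2 * Real.exp 4 * F / n ≤ 240 * (n : ℝ) ^ (-(15 / 16) : ℝ) := by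
    have e5 : (n : ℝ) ^ (-(15 / 16) : ℝ) = (n : ℝ) ^ (1 / 16 : ℝ) / n := by
      rw [show (-(15 / 16) : ℝ) = 1 / 16 - 1 by norm_num, Real.rpow_sub hn0, Real.rpow_one]
    rw [e5, mul_div_assoc', div_le_div_iff_of_pos_right hn0]
    have hpos := Real.exp_pos 4
    calc 2 * Real.exp 4 * F ≤ 2 * 60 * (2 * (n : ℝ) ^ (1 / 16 : ℝ)) := by gcongr
      _ = 240 * (n : ℝ) ^ (1 / 16 : ℝ) := by ring
  have hb0 : 0 ≤ 2 * Real.exp 4 * F / n := by positivity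
  have hfinal : (1 / θ) ^ (2 * t) * ((Real.sqrt (2 * k - 1) / k) ^ (2 * t) +
        (n : ℝ) ^ (-(7 / 4) : ℝ)) +
        ((1 + θ) / 2) ^ (2 * L) ≤ 6 * (n : ℝ) ^ (-(3 / 2) : ℝ) := by
    have h1 : (1 / θ) ^ (2 * t) ≤ 2 * (n : ℝ) ^ (1 / 4 : ℝ) := by
      have e1 : (1 / θ) ^ (2 * t) = Real.exp (1 / 32 * t) := by
        rw [hθ, one_div, ← Real.exp_neg, ← Real.exp_nat_mul]
        congr 1; push_cast; ring
      rw [e1]
      calc Real.exp (1 / 32 * t) ≤ Real.exp (1 / 32 * (8 * Real.log n + 1)) := by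
            apply Real.exp_le_exp.2; gcongr
        _ = Real.exp (1 / 32) * (n : ℝ) ^ (1 / 4 : ℝ) := by
            rw [Real.rpow_def_of_pos hn0, ← Real.exp_add]; congr 1; ring
        _ ≤ 2 * (n : ℝ) ^ (1 / 4 : ℝ) := by
            have : Real.exp (1 / 32) ≤ 2 := by
              have h2 := Real.exp_one_lt_d9
              have h3 : Real.exp (1 / 32) ^ 32 = Real.exp 1 := by
                rw [← Real.exp_nat_mul]; norm_num
              by_contra hcon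
              push Not at hcon
              have h4 : (2 : ℝ) ^ 32 < Real.exp (1 / 32) ^ 32 := by gcongr
              rw [h3] at h4
              linarith [show (3 : ℝ) < 2 ^ 32 by norm_num]
            gcongr
    have h2 : (Real.sqrt (2 * k - 1) / k) ^ (2 * t) ≤ (n : ℝ) ^ (-(7 / 4) : ℝ) := by
      refine (s0_le k hk t).trans ?_
      have e2 : (3 / 4 : ℝ) ≤ Real.exp (-(1 / 4)) := by
        have := Real.add_one_le_exp (-(1 / 4 : ℝ)); linarith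
      calc (3 / 4 : ℝ) ^ t ≤ Real.exp (-(1 / 4)) ^ t := pow_le_pow_left₀ (by norm_num) e2 _
        _ = Real.exp (-(t / 4)) := by rw [← Real.exp_nat_mul]; congr 1; ring
        _ ≤ Real.exp (Real.log n * (-2)) := Real.exp_le_exp.2 (by linarith)
        _ = (n : ℝ) ^ (-2 : ℝ) := by rw [Real.rpow_def_of_pos hn0]
        _ ≤ (n : ℝ) ^ (-(7 / 4) : ℝ) :=
          Real.rpow_le_rpow_of_exponent_le hn1 (by norm_num)
    have h3 : ((1 + θ) / 2) ^ (2 * L) ≤ (n : ℝ) ^ (-(3 / 2) : ℝ) := by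
      have e1 : (1 + θ) / 2 = 1 - (1 - θ) / 2 := by ring
      rw [e1]
      refine (one_sub_pow_le ((1 - θ) / 2) (by linarith) (2 * L)).trans ?_
      have h1θ : 0 < 1 - θ := by linarith
      rw [div_mul_eq_mul_div, div_le_iff₀ h1θ] at g11
      calc Real.exp (-((1 - θ) / 2 * ((2 * L : ℕ) : ℝ))) ≤ Real.exp (Real.log n * (-2)) := by
            apply Real.exp_le_exp.2
            push_cast
            have : (1 - θ) * (n : ℝ) ^ d ≤ (1 - θ) * L := by gcongr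
            nlinarith
        _ = (n : ℝ) ^ (-2 : ℝ) := by rw [Real.rpow_def_of_pos hn0]
        _ ≤ (n : ℝ) ^ (-(3 / 2) : ℝ) := Real.rpow_le_rpow_of_exponent_le hn1 (by norm_num)
    have e6 : (n : ℝ) ^ (1 / 4 : ℝ) * (n : ℝ) ^ (-(7 / 4) : ℝ) = (n : ℝ) ^ (-(3 / 2) : ℝ) := by
      rw [← Real.rpow_add hn0]; norm_num
    calc _ ≤ (2 * (n : ℝ) ^ (1 / 4 : ℝ)) * ((n : ℝ) ^ (-(7 / 4) : ℝ) + (n : ℝ) ^ (-(7 / 4) : ℝ)) +
          (n : ℝ) ^ (-(3 / 2) : ℝ) := by gcongr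
      _ = 4 * ((n : ℝ) ^ (1 / 4 : ℝ) * (n : ℝ) ^ (-(7 / 4) : ℝ)) + (n : ℝ) ^ (-(3 / 2) : ℝ) := by
          ring
      _ ≤ _ := by
          rw [e6]
          have : 0 < (n : ℝ) ^ (-(3 / 2) : ℝ) := by positivity
          linarith
  refine ⟨hN100, ?_, hn, ?_, by norm_num, ?_, ?_, ?_, ?_, ?_, ?_, ?_, hθ0, hθ1, hfinal⟩
  · have : (2 * (12096 * (N : ℝ))) ≤ n := by nlinarith
    exact_mod_cast this
  · have : (2 * (F : ℝ)) ≤ n := by nlinarith
    exact_mod_cast this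
  · have : (32 : ℝ) ≤ F := g5.trans hF1
    exact_mod_cast this
  · have h1 : (n : ℝ) * (32 : ℝ) ^ (31 + 1) ≤ (F : ℝ) ^ (31 + 1) := by
      calc (n : ℝ) * (32 : ℝ) ^ (31 + 1) ≤ n * n := by
            have : (32 : ℝ) ^ (31 + 1) ≤ n := g4
            gcongr
        _ = (n : ℝ) ^ (2 : ℝ) := by rw [← pow_two]; norm_cast
        _ = ((n : ℝ) ^ (1 / 16 : ℝ)) ^ (31 + 1) := by
            rw [← Real.rpow_natCast, ← Real.rpow_mul hn0.le]; norm_num
        _ ≤ (F : ℝ) ^ (31 + 1) := by gcongr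
    exact_mod_cast h1
  · rw [div_le_one hn0]
    have hpos := Real.exp_pos 4
    calc 2 * Real.exp 4 * F ≤ 2 * 60 * (2 * (n : ℝ) ^ (1 / 16 : ℝ)) := by gcongr
      _ ≤ n := by linarith [show (0 : ℝ) ≤ (n : ℝ) ^ (1 / 16 : ℝ) by positivity]
  · calc (2 * Real.exp 4 * F / n) ^ 2 ≤ (240 * (n : ℝ) ^ (-(15 / 16) : ℝ)) ^ 2 := by gcongr
      _ = 240 ^ 2 * (n : ℝ) ^ (-(15 / 8) : ℝ) := by
          rw [mul_pow, ← Real.rpow_natCast ((n : ℝ) ^ (-(15 / 16) : ℝ)), ← Real.rpow_mul hn0.le]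
          norm_num
      _ ≤ (n : ℝ) ^ (1 / 8 : ℝ) * (n : ℝ) ^ (-(15 / 8) : ℝ) := by gcongr
      _ = (n : ℝ) ^ (-(7 / 4) : ℝ) := by rw [← Real.rpow_add hn0]; norm_num
  · intro j hj
    have h1 := Pool.Agent.R236.Den.bb_le n N F 32 (1 / 8) (by norm_num) (by norm_num) hn hN100 hN1
      (by
        refine hF2.trans ?_
        rw [show (1 : ℝ) - 1 / 8 = 7 / 8 by norm_num]
        rw [one_mul] at g13
        linarith)
      (by push_cast; exact g7) (by norm_num; norm_num at g8; exact g8) j 32 hj le_rfl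
    have h0 := bb_nonneg j 32 n F
    calc bb j 32 n F ^ 32 ≤ ((n : ℝ) ^ (-((1 : ℝ) / 8 / 2))) ^ 32 := pow_le_pow_left₀ h0 h1 _
      _ = (n : ℝ) ^ (-2 : ℝ) := by
          rw [← Real.rpow_natCast, ← Real.rpow_mul hn0.le]; norm_num
      _ ≤ (n : ℝ) ^ (-(7 / 4) : ℝ) := Real.rpow_le_rpow_of_exponent_le hn1 (by norm_num)
  · rw [Real.rpow_def_of_pos hn0]
    apply Real.exp_le_exp.2
    have hNpos : (0 : ℝ) < N := by
      have : (100 : ℝ) ≤ N := by exact_mod_cast hN100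
      linarith
    have h1 : (N : ℝ) ^ 2 ≤ 4 * (n : ℝ) ^ (1 / 4 : ℝ) := by
      calc (N : ℝ) ^ 2 ≤ (2 * (n : ℝ) ^ (1 / 8 : ℝ)) ^ 2 := by gcongr
        _ = 4 * (n : ℝ) ^ (1 / 4 : ℝ) := by
            rw [mul_pow, ← Real.rpow_natCast ((n : ℝ) ^ (1 / 8 : ℝ)), ← Real.rpow_mul hn0.le]
            norm_num
    have h2 : (n : ℝ) ^ (3 / 4 : ℝ) * (n : ℝ) ^ (1 / 4 : ℝ) = n := by
      rw [← Real.rpow_add hn0]; norm_num
    have h3 : 7 / 4 * Real.log n * (2 * 336 * 12096 * (N : ℝ) ^ 2) ≤ n := by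
      have hp : 0 < (n : ℝ) ^ (1 / 4 : ℝ) := by positivity
      calc 7 / 4 * Real.log n * (2 * 336 * 12096 * (N : ℝ) ^ 2)
          ≤ 7 / 4 * Real.log n * (2 * 336 * 12096 * (4 * (n : ℝ) ^ (1 / 4 : ℝ))) := by gcongr
        _ = (7 / 4 * (4 * (2 * 336 * 12096)) * Real.log n) * (n : ℝ) ^ (1 / 4 : ℝ) := by ring
        _ ≤ (n : ℝ) ^ (3 / 4 : ℝ) * (n : ℝ) ^ (1 / 4 : ℝ) := by gcongr
        _ = n := h2
    have h4 : 7 / 4 * Real.log n ≤ 1 / (2 * 336 * 12096 * (N : ℝ) ^ 2) * n := by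
      rw [one_div, inv_mul_eq_div, le_div_iff₀ (by positivity)]
      exact h3
    linarith
  · have hℓ2 : (n : ℝ) ^ (1 / 64 : ℝ) - 1 ≤ ℓ := by
      have : (n : ℝ) ^ (1 / 64 : ℝ) < ℓ + 1 := Nat.lt_floor_add_one _
      linarith
    have : (31 * (2 * (t : ℝ))) ≤ ℓ := by
      -- `62 (8 log n + 1) = 496 log n + 62`
      have h5 : 31 * (2 * (t : ℝ)) ≤ 496 * Real.log n + 62 := by linarith
      have h6 : 992 * Real.log n ≤ (n : ℝ) ^ (1 / 64 : ℝ) := g10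
      linarith
    exact_mod_cast this

/-- the parameters of the diameter bound -/
theorem num2 (A d ε₁ : ℝ) (hA : 1 / 6 ≤ A) (hA1 : A ≤ 1 / 3) (hd : 0 < d) (hd1 : d ≤ 1 / 24)
    (h1 : 0 < ε₁) (h1' : ε₁ ≤ 2) :
    ∀ᶠ n : ℕ in atTop, ∃ (s e : ℕ) (R : Multiset ℕ), s.Prime ∧ 4 ≤ s ∧ 6 ≤ n ∧
      s ≤ ⌊(n : ℝ) ^ (A - d)⌋₊ ∧ ¬ s ∣ e ∧ (∀ r ∈ R, r ∣ e) ∧ (s ::ₘ R).Nodup ∧
      (∀ a ∈ s ::ₘ R, 2 ≤ a) ∧ (s ::ₘ R).sum + 1 = n ∧
      Even ((s ::ₘ R).sum + Multiset.card (s ::ₘ R)) ∧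
      (((s ::ₘ R).prod : ℕ) : ℝ) ≤ 2 * (n : ℝ) ^ (4 / 3 : ℝ) ∧
      (1 - ε₁ / 2) ^ n * ((n : ℝ) ^ s) ^ 2 < 1 ∧
      (((4 * (n / (s / 4)) + 8) * (e * (⌈(n : ℝ) ^ d⌉₊ + 1) + 2 * n) : ℕ) : ℝ) ≤
        (n : ℝ) ^ (2 - A + 4 * d) := by
  filter_upwards [ev_const d 800 hd, ev_le (A - 2 * d) (A - d) (2 ^ 12) (by linarith),
    ev_le (A - 2 * d) 1 (2 ^ 14) (by linarith), ev_log (A - 2 * d) 1 (2 ^ 15 / ε₁) (by linarith),
    ev_const (A - 2 * d) 16 (by linarith), eventually_ge_atTop 100]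
    with n ha hb hc he hh hn
  rw [Real.rpow_one] at hc he
  have hnr : (100 : ℝ) ≤ n := by exact_mod_cast hn
  have hn0 : (0 : ℝ) < n := by linarith
  have hn1 : (1 : ℝ) ≤ n := by linarith
  set B : ℝ := (n : ℝ) ^ (A - 2 * d) with hB
  have hB0 : 0 < B := by positivity
  set S : ℕ := ⌊B⌋₊ with hS
  have hS1 : (S : ℝ) ≤ B := Nat.floor_le hB0.le
  have hS2 : B < S + 1 := Nat.lt_floor_add_one B
  have hS3 : 15 ≤ S := by
    have : (15 : ℝ) < S := by linarith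
    exact_mod_cast this.le
  -- the length of the long cycle
  obtain ⟨N, R2, hR2, hN4, hNn⟩ : ∃ (N : ℕ) (R2 : Multiset ℕ), ((R2 = 0 ∧ N + 1 = n ∧ Even N) ∨
      (R2 = {2} ∧ N + 3 = n ∧ Odd N)) ∧ n ≤ N + 4 ∧ N ≤ n := by
    rcases Nat.even_or_odd n with h | h
    · refine ⟨n - 3, {2}, Or.inr ⟨rfl, by omega, ?_⟩, by omega, by omega⟩
      obtain ⟨j, hj⟩ := h
      exact ⟨j - 2, by omega⟩
    · refine ⟨n - 1, 0, Or.inl ⟨rfl, by omega, ?_⟩, by omega, by omega⟩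
      obtain ⟨j, hj⟩ := h
      exact ⟨j, by omega⟩
  have hpow : N < (S + 1) ^ 12 := by
    have h3 : (n : ℝ) < ((S : ℝ) + 1) ^ 12 := by
      calc (n : ℝ) = (n : ℝ) ^ (1 : ℝ) := (Real.rpow_one _).symm
        _ ≤ (n : ℝ) ^ ((A - 2 * d) * 12) := by
            apply Real.rpow_le_rpow_of_exponent_le hn1
            linarith
        _ = B ^ 12 := by
            rw [hB, Real.rpow_mul hn0.le]
            norm_cast
        _ < ((S : ℝ) + 1) ^ 12 := by gcongr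
    have h4 : n < (S + 1) ^ 12 := by exact_mod_cast h3
    omega
  obtain ⟨s, hsp, hs1, hs2, hs3⟩ := exists_prime' S (by omega) 12 N (by omega) hpow
  have h4S : 4 * (2 ^ 12 * S) ≤ n := by
    have : (4 * (2 ^ 12 * (S : ℝ))) ≤ n := by nlinarith
    exact_mod_cast this
  have hs1r : (S : ℝ) + 1 ≤ s := by exact_mod_cast hs1
  have hs2r : (s : ℝ) ≤ 2 ^ 12 * B := by
    have : (s : ℝ) ≤ 2 ^ 12 * S := by exact_mod_cast hs2
    nlinarith
  set m : ℕ := N - s with hm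
  have hms : m + s = N := by omega
  have hm2 : 2 * s < m := by omega
  have hm0 : 2 < m := by omega
  have hsm : ¬ s ∣ m := by
    intro h
    apply hs3
    rw [← hms]
    exact (Nat.dvd_add_right h).2 dvd_rfl
  have hs2' : ¬ s ∣ 2 := by
    intro h
    have := Nat.le_of_dvd (by norm_num) h
    omega
  refine ⟨s, 2 * m, m ::ₘ R2, hsp, by omega, by omega, ?_, ?_, ?_, ?_, ?_, ?_, ?_, ?_, ?_, ?_⟩
  · apply Nat.le_floor
    linarith
  · intro h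
    rcases (Nat.Prime.dvd_mul hsp).1 h with h | h
    · exact hs2' h
    · exact hsm h
  · intro r hr
    rw [Multiset.mem_cons] at hr
    rcases hr with rfl | hr
    · exact ⟨2, by ring⟩
    · rcases hR2 with ⟨h, _⟩ | ⟨h, _⟩
      · rw [h] at hr; simp at hr
      · rw [h, Multiset.mem_singleton] at hr
        rw [hr]
        exact ⟨m, rfl⟩
  · rw [Multiset.nodup_cons, Multiset.nodup_cons]
    rcases hR2 with ⟨h, _⟩ | ⟨h, _⟩
    · rw [h]
      simp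
      omega
    · rw [h]
      simp
      omega
  · intro a ha
    rw [Multiset.mem_cons, Multiset.mem_cons] at ha
    rcases ha with rfl | rfl | ha
    · omega
    · omega
    · rcases hR2 with ⟨h, _⟩ | ⟨h, _⟩
      · rw [h] at ha; simp at ha
      · rw [h, Multiset.mem_singleton] at ha
        omega
  · rw [Multiset.sum_cons, Multiset.sum_cons]
    rcases hR2 with ⟨h, h', _⟩ | ⟨h, h', _⟩
    · rw [h]; simp; omega
    · rw [h]; simp; omega
  · rw [Multiset.sum_cons, Multiset.sum_cons, Multiset.card_cons, Multiset.card_cons]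
    rcases hR2 with ⟨h, h', j, hj⟩ | ⟨h, h', j, hj⟩
    · rw [h]
      simp only [Multiset.sum_zero, Multiset.card_zero]
      exact ⟨j + 1, by omega⟩
    · rw [h]
      simp only [Multiset.sum_singleton, Multiset.card_singleton]
      exact ⟨j + 3, by omega⟩
  · rw [Multiset.prod_cons, Multiset.prod_cons]
    have hR2p : R2.prod ≤ 2 := by
      rcases hR2 with ⟨h, _⟩ | ⟨h, _⟩
      · rw [h]; simp
      · rw [h]; simp
    have h3 : ((s * (m * R2.prod) : ℕ) : ℝ) ≤ s * (n * 2) := by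
      have : s * (m * R2.prod) ≤ s * (n * 2) :=
        Nat.mul_le_mul_left _ (Nat.mul_le_mul (by omega) hR2p)
      exact_mod_cast this
    refine h3.trans ?_
    have h4 : (s : ℝ) ≤ (n : ℝ) ^ (1 / 3 : ℝ) := by
      calc (s : ℝ) ≤ 2 ^ 12 * B := hs2r
        _ ≤ (n : ℝ) ^ (A - d) := hb
        _ ≤ (n : ℝ) ^ (1 / 3 : ℝ) := Real.rpow_le_rpow_of_exponent_le hn1 (by linarith)
    have h5 : (n : ℝ) ^ (4 / 3 : ℝ) = (n : ℝ) ^ (1 / 3 : ℝ) * n := by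
      rw [show (4 / 3 : ℝ) = 1 / 3 + 1 by norm_num, Real.rpow_add hn0, Real.rpow_one]
    rw [h5]
    nlinarith
  · have e1 : ((n : ℝ) ^ s) ^ 2 = Real.exp (2 * s * Real.log n) := by
      rw [← pow_mul, ← Real.exp_log hn0, ← Real.exp_nat_mul, Real.exp_log hn0]
      push_cast
      congr 1; ring
    have h3 := one_sub_pow_le (ε₁ / 2) (by linarith) n
    rw [e1]
    have h4 : 2 * (s : ℝ) * Real.log n < ε₁ / 2 * n := by
      have h5 : 2 ^ 15 / ε₁ * B * Real.log n ≤ n := he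
      have hlog : 0 < Real.log n := Real.log_pos (by linarith)
      have h7 : 2 ^ 15 / ε₁ * B * Real.log n = (2 ^ 15 * B * Real.log n) / ε₁ := by ring
      rw [h7, div_le_iff₀ h1] at h5
      have h8 : 2 * (s : ℝ) * Real.log n ≤ 2 ^ 13 * B * Real.log n := by
        have : (s : ℝ) * Real.log n ≤ 2 ^ 12 * B * Real.log n := by gcongr
        linarith
      have h9 : 0 < B * Real.log n := by positivity
      nlinarith
    calc (1 - ε₁ / 2) ^ n * Real.exp (2 * s * Real.log n)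
        ≤ Real.exp (-(ε₁ / 2 * n)) * Real.exp (2 * s * Real.log n) := by gcongr
      _ = Real.exp (-(ε₁ / 2 * n) + 2 * s * Real.log n) := by rw [← Real.exp_add]
      _ < 1 := by
        rw [Real.exp_lt_one_iff]; linarith
  · -- the length
    set D : ℝ := (n : ℝ) ^ d with hD
    set L : ℕ := ⌈D⌉₊ with hL
    have hD0 : 0 < D := by positivity
    have hL2 : (L : ℝ) < D + 1 := Nat.ceil_lt_add_one hD0.le
    have hs4 : (s : ℝ) / 8 ≤ ((s / 4 : ℕ) : ℝ) := by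
      have h5 : s ≤ 8 * (s / 4) := by omega
      have : (s : ℝ) ≤ 8 * ((s / 4 : ℕ) : ℝ) := by exact_mod_cast h5
      linarith
    have hs4' : B / 8 ≤ ((s / 4 : ℕ) : ℝ) := by linarith
    set E : ℝ := n / B with hE
    have hE1 : 1 ≤ E := by
      rw [hE, le_div_iff₀ hB0]; linarith
    have hdiv : ((n / (s / 4) : ℕ) : ℝ) ≤ 8 * E := by
      have h5 : ((n / (s / 4) : ℕ) : ℝ) ≤ (n : ℝ) / ((s / 4 : ℕ) : ℝ) := Nat.cast_div_le
      refine h5.trans ?_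
      rw [div_le_iff₀ (by linarith [show 0 < B / 8 by positivity])]
      calc (n : ℝ) = 8 * E * (B / 8) := by rw [hE]; field_simp
        _ ≤ _ := by gcongr
    have hD800 : (800 : ℝ) ≤ D := ha
    push_cast
    have h6 : (4 * ((n / (s / 4) : ℕ) : ℝ) + 8) ≤ 40 * E := by linarith
    have hmn : (m : ℝ) ≤ n := by
      have : m ≤ n := by omega
      exact_mod_cast this
    have h7 : (2 * (m : ℝ) * ((L : ℝ) + 1) + 2 * n) ≤ n * (4 * D) := by
      have : (m : ℝ) * ((L : ℝ) + 1) ≤ n * (D + 2) :=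
        mul_le_mul hmn (by linarith) (by positivity) hn0.le
      nlinarith
    have h8 : (n : ℝ) ^ (2 - A + 4 * d) = n * E * D ^ 2 := by
      rw [hE, hD, hB, ← Real.rpow_natCast ((n : ℝ) ^ d), ← Real.rpow_mul hn0.le]
      rw [show (2 : ℝ) - A + 4 * d = 1 + (1 - (A - 2 * d)) + d * 2 by ring, Real.rpow_add hn0,
        Real.rpow_add hn0, Real.rpow_sub hn0, Real.rpow_one]
      push_cast
      rfl
    rw [h8]
    calc (4 * ((n / (s / 4) : ℕ) : ℝ) + 8) * (2 * (m : ℝ) * ((L : ℝ) + 1) + 2 * n)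
        ≤ (40 * E) * (n * (4 * D)) := by gcongr
      _ = n * E * (160 * D) := by ring
      _ ≤ n * E * D ^ 2 := by
        have : 160 * D ≤ D ^ 2 := by nlinarith
        have hnE : 0 ≤ n * E := by positivity
        gcongr

end Pool.Agent.L0h8.SK
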