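import Pool.Agent.L0h8.SK.Hit
import Pool.Agent.L0h8.ND.Cyc
import Pool.Agent.L0h8.ND.Main

/-!
Conjugacy classes of elements with exactly one fixed point.
-/

set_option autoImplicit false
set_option linter.unusedSectionVars false

namespace Pool.Agent.L0h8.SK
open Equiv Equiv.Perm Finset RC14
open Pool.Agent.L0h8.ND (IsS ball pow_mem_ball list_prod_mem_ball ball_mono cycles_mem_ball
  even_factor toFA toFA_apply lz rmul ball_rmul few_bad)

/-- a power of a permutation with an `s`-cycle is an `s`-cycle -/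
lemma pow_cycle' {α : Type*} [Fintype α] [DecidableEq α] {g : Perm α} {s e : ℕ} {R : Multiset ℕ}
    (hs : s.Prime) (hse : ¬ s ∣ e) (hg : g.cycleType = s ::ₘ R) (hR : ∀ r ∈ R, r ∣ e) :
    IsS s (g ^ e) := by
  have hmem : s ∈ g.cycleType := by rw [hg]; simp
  obtain ⟨c, τ, h1, h2, h3, h4⟩ := mem_cycleType_iff.1 hmem
  have hτ : τ.cycleType = R := by
    have h5 : g.cycleType = c.cycleType + τ.cycleType := by rw [h1, h2.cycleType_mul]
    rw [hg, h3.cycleType, h4] at h5
    have h6 : ({s} : Multiset ℕ) + R = {s} + τ.cycleType := by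
      rw [Multiset.singleton_add]; exact h5
    exact (add_left_cancel h6).symm
  have hτ1 : τ ^ e = 1 := by
    rw [← orderOf_dvd_iff_pow_eq_one, ← lcm_cycleType, hτ]
    exact Multiset.lcm_dvd.2 hR
  have hpow : g ^ e = c ^ e := by
    rw [h1, h2.commute.mul_pow, hτ1, mul_one]
  have hord : orderOf c = s := by rw [h3.orderOf, h4]
  have hcop : Nat.Coprime s e := (Nat.Prime.coprime_iff_not_dvd hs).2 hse
  have hord2 : orderOf (c ^ e) = s := by
    rw [← hord]
    apply Nat.Coprime.orderOf_pow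
    rw [hord]
    exact hcop
  have hle : (c ^ e).support.card ≤ s := by
    rw [← h4]
    exact card_le_card (support_pow_le _ _)
  have hcyc : (c ^ e).IsCycle := by
    refine isCycle_of_prime_order (by rw [hord2]; exact hs) ?_
    rw [hord2]
    have := hs.pos
    omega
  rw [hpow]
  refine ⟨hcyc, ?_⟩
  rw [← hcyc.orderOf, hord2]

/-- the elements of `A_n` with a given cycle type -/
def Cty (n : ℕ) (M : Multiset ℕ) : Finset (Alt n) :=
  univ.filter fun g => (g : Perm (Fin n)).cycleType = M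

lemma mem_Cty {n : ℕ} {M : Multiset ℕ} {g : Alt n} :
    g ∈ Cty n M ↔ (g : Perm (Fin n)).cycleType = M := by simp [Cty]

lemma Cty_conj {n : ℕ} {M : Multiset ℕ} (g h : Alt n) : h * g * h⁻¹ ∈ Cty n M ↔ g ∈ Cty n M := by
  rw [mem_Cty, mem_Cty, Subgroup.coe_mul, Subgroup.coe_mul, Subgroup.coe_inv, cycleType_conj]

lemma card_Cty {n : ℕ} {M : Multiset ℕ} (hM : M.Nodup) (h2 : ∀ a ∈ M, 2 ≤ a)
    (hsum : M.sum + 1 = n) (hev : Even (M.sum + Multiset.card M)) :
    Fintype.card (Alt n) ≤ (Cty n M).card * M.prod := by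
  have hcard := card_of_cycleType_mul_eq (Fin n) M
  have hcond : M.sum ≤ Fintype.card (Fin n) ∧ ∀ a ∈ M, 2 ≤ a := by
    rw [Fintype.card_fin]
    exact ⟨by omega, h2⟩
  have hcount : ∏ a ∈ M.toFinset, (M.count a).factorial = 1 := by
    refine Finset.prod_eq_one fun a ha => ?_
    rw [Multiset.count_eq_one_of_mem hM (Multiset.mem_toFinset.1 ha)]
    rfl
  have hfac : (Fintype.card (Fin n) - M.sum).factorial = 1 := by
    rw [Fintype.card_fin]
    have : n - M.sum = 1 := by omega
    rw [this]; rfl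
  rw [if_pos hcond, hcount, hfac, one_mul, mul_one, Fintype.card_fin] at hcard
  have hsign : ∀ g : Perm (Fin n), g.cycleType = M → g ∈ Alt n := by
    intro g hg
    rw [mem_alternatingGroup, sign_of_cycleType, hg]
    exact Even.neg_one_pow hev
  have hC : (Cty n M).card = #({g | g.cycleType = M} : Finset (Perm (Fin n))) := by
    refine Finset.card_nbij (fun g => (g : Perm (Fin n))) ?_ ?_ ?_
    · intro g hg
      simpa [Cty] using hg
    · intro g _ h _ hgh
      exact Subtype.ext hgh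
    · intro g hg
      have hg' : g.cycleType = M := by simpa using hg
      exact ⟨⟨g, hsign g hg'⟩, by simpa [Cty] using hg', rfl⟩
  have hle : Fintype.card (Alt n) ≤ n.factorial := by
    have := Fintype.card_subtype_le (fun g : Perm (Fin n) => g ∈ Alt n)
    rw [Fintype.card_perm, Fintype.card_fin] at this
    exact this
  calc Fintype.card (Alt n) ≤ n.factorial := hle
    _ = (Cty n M).card * M.prod := by rw [hC, hcard]

lemma nfix_Cty {n : ℕ} {M : Multiset ℕ} (hsum : M.sum + 1 = n) {g : Alt n} (hg : g ∈ Cty n M) :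
    nfix (g : Perm (Fin n)) = 1 := by
  rw [mem_Cty] at hg
  have h1 := sum_cycleType (g : Perm (Fin n))
  rw [hg] at h1
  have h2 : nfix (g : Perm (Fin n)) + (g : Perm (Fin n)).support.card = n := by
    have h3 : (g : Perm (Fin n)).support = univ.filter fun a => ¬ (g : Perm (Fin n)) a = a := by
      ext a; simp
    have h4 := card_filter_add_card_filter_not (s := (univ : Finset (Fin n)))
      (fun a => (g : Perm (Fin n)) a = a)
    rw [card_univ, Fintype.card_fin] at h4
    rw [h3]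
    exact h4
  omega

/-! ### marginals of class functions -/

section Marg
variable {n : ℕ}

/-- the sum of `f` over the elements mapping `r` to `p` -/
noncomputable def Sm (f : Alt n → ℝ) (r p : Fin n) : ℝ :=
  ∑ g : Alt n, if (g : Perm (Fin n)) r = p then f g else 0

lemma Sm_conj (f : Alt n → ℝ) (hf : ∀ g h, f (h * g * h⁻¹) = f g) (h : Alt n) (r p : Fin n) :
    Sm f ((h : Perm (Fin n)) r) ((h : Perm (Fin n)) p) = Sm f r p := by
  unfold Sm
  rw [← Equiv.sum_comp (MulAut.conj h).toEquiv]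
  refine Finset.sum_congr rfl fun g _ => ?_
  have h1 : (MulAut.conj h).toEquiv g = h * g * h⁻¹ := rfl
  rw [h1, hf, Subgroup.coe_mul, Subgroup.coe_mul, Subgroup.coe_inv, Perm.mul_apply,
    Perm.mul_apply]
  have h2 : ((h : Perm (Fin n)))⁻¹ ((h : Perm (Fin n)) r) = r := (h : Perm (Fin n)).symm_apply_apply r
  rw [h2]
  simp only [EmbeddingLike.apply_eq_iff_eq]

lemma Sm_row (f : Alt n → ℝ) (r : Fin n) : ∑ p, Sm f r p = ∑ g, f g := by
  unfold Sm
  rw [Finset.sum_comm]
  refine Finset.sum_congr rfl fun g _ => ?_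
  rw [Finset.sum_ite_eq]
  simp

lemma Sm_diag (f : Alt n → ℝ) : ∑ r, Sm f r r = ∑ g : Alt n, f g * nfix (g : Perm (Fin n)) := by
  unfold Sm
  rw [Finset.sum_comm]
  refine Finset.sum_congr rfl fun g _ => ?_
  rw [← Finset.sum_filter, Finset.sum_const, nsmul_eq_mul, mul_comm]
  rfl

lemma trans1 (hn : 3 ≤ n) (a b : Fin n) : ∃ h : Alt n, (h : Perm (Fin n)) a = b := by
  obtain ⟨h, hh⟩ := RC14.CHAR.trans_emb (ι := Fin 1) (by simpa using hn)
    ⟨fun _ => a, fun _ _ _ => Subsingleton.elim _ _⟩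
    ⟨fun _ => b, fun _ _ _ => Subsingleton.elim _ _⟩
  exact ⟨h, hh 0⟩

lemma trans2 (hn : 4 ≤ n) {a b c d : Fin n} (hab : a ≠ b) (hcd : c ≠ d) :
    ∃ h : Alt n, (h : Perm (Fin n)) a = c ∧ (h : Perm (Fin n)) b = d := by
  have inj : ∀ {x y : Fin n}, x ≠ y → Function.Injective (fun i : Bool => if i then x else y) := by
    intro x y hxy i j hij
    cases i <;> cases j <;> simp at hij ⊢
    · exact hxy hij.symm
    · exact hxy hij
  obtain ⟨h, hh⟩ := RC14.CHAR.trans_emb (ι := Bool) (by simpa using hn)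
    ⟨fun i => if i then a else b, inj hab⟩ ⟨fun i => if i then c else d, inj hcd⟩
  exact ⟨h, hh true, hh false⟩

lemma Sm_zero (hn : 4 ≤ n) (f : Alt n → ℝ) (hf : ∀ g h, f (h * g * h⁻¹) = f g)
    (h0 : ∑ g, f g = 0) (h1 : ∑ g : Alt n, f g * nfix (g : Perm (Fin n)) = 0) (r p : Fin n) :
    Sm f r p = 0 := by
  have hn0 : (0 : ℝ) < n := by
    have : 0 < n := by omega
    exact_mod_cast this
  have hd : ∀ r, Sm f r r = 0 := by
    intro r
    have h2 : ∀ r', Sm f r' r' = Sm f r r := by
      intro r'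
      obtain ⟨h, rfl⟩ := trans1 (by omega) r r'
      exact Sm_conj f hf h r r
    have h3 := Sm_diag f
    rw [h1, Finset.sum_congr rfl fun r' _ => h2 r', Finset.sum_const, Finset.card_univ,
      Fintype.card_fin, nsmul_eq_mul] at h3
    rcases mul_eq_zero.1 h3 with h | h
    · exact absurd h hn0.ne'
    · exact h
  by_cases hrp : r = p
  · rw [hrp]; exact hd p
  · have h2 : ∀ p', r ≠ p' → Sm f r p' = Sm f r p := by
      intro p' hp'
      obtain ⟨h, hr, hp⟩ := trans2 hn hrp hp'
      have := Sm_conj f hf h r p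
      rw [hr, hp] at this
      exact this
    have h3 := Sm_row f r
    rw [h0, ← Finset.add_sum_erase _ _ (Finset.mem_univ r), hd r, zero_add,
      Finset.sum_congr rfl fun p' hp' => h2 p' (Finset.ne_of_mem_erase hp').symm, Finset.sum_const,
      Finset.card_erase_of_mem (Finset.mem_univ r), Finset.card_univ, Fintype.card_fin,
      nsmul_eq_mul] at h3
    rcases mul_eq_zero.1 h3 with h | h
    · exfalso
      have : n - 1 = 0 := by exact_mod_cast h
      omega
    · exact h

lemma mem_HH1 (hn : 4 ≤ n) (f : Alt n → ℝ) (hf : ∀ g h, f (h * g * h⁻¹) = f g)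
    (h0 : ∑ g, f g = 0) (h1 : ∑ g : Alt n, f g * nfix (g : Perm (Fin n)) = 0) :
    toFA f ∈ HH 1 n := by
  intro j hj κ
  ext a
  change (∑ g : Alt n, if mv (g : Perm (Fin n))⁻¹ κ = a then toFA f g else 0) = 0
  rcases Nat.le_one_iff_eq_zero_or_eq_one.1 hj with rfl | rfl
  · have h2 : ∀ g : Alt n, mv (g : Perm (Fin n))⁻¹ κ = a := fun g => Subsingleton.elim _ _
    simp only [h2, if_true, toFA_apply]
    rw [← Complex.ofReal_sum, h0, Complex.ofReal_zero]
  · have h2 : ∀ g : Alt n, (mv (g : Perm (Fin n))⁻¹ κ = a) ↔ (g : Perm (Fin n)) (a 0) = κ 0 := by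
      intro g
      constructor
      · rintro rfl
        rw [mv_apply]
        exact (g : Perm (Fin n)).apply_symm_apply _
      · intro h
        ext i
        obtain rfl : i = 0 := Subsingleton.elim _ _
        rw [mv_apply, ← h]
        congr 1
        exact (g : Perm (Fin n)).symm_apply_apply _
    simp only [h2, toFA_apply]
    have h3 := Sm_zero hn f hf h0 h1 (a 0) (κ 0)
    unfold Sm at h3
    have h4 : (∑ g : Alt n, if (g : Perm (Fin n)) (a 0) = κ 0 then ((f g : ℝ) : ℂ) else 0) =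
        ((∑ g : Alt n, if (g : Perm (Fin n)) (a 0) = κ 0 then f g else 0 : ℝ) : ℂ) := by
      rw [Complex.ofReal_sum]
      refine Finset.sum_congr rfl fun g _ => ?_
      split_ifs <;> simp
    rw [h4, h3, Complex.ofReal_zero]

/-- the average number of fixed points -/
lemma sum_nfix (hn : 3 ≤ n) : ∑ g : Alt n, (nfix (g : Perm (Fin n)) : ℝ) = Fintype.card (Alt n) := by
  have hn0 : (0 : ℝ) < n := by
    have : 0 < n := by omega
    exact_mod_cast this
  have h1 := Sm_diag (n := n) (fun _ => 1)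
  simp only [one_mul] at h1
  rw [← h1]
  have h2 : ∀ r p p' : Fin n, Sm (n := n) (fun _ => 1) r p = Sm (fun _ => 1) r p' := by
    intro r p p'
    obtain ⟨h, hh⟩ := trans1 hn p p'
    unfold Sm
    rw [← Equiv.sum_comp (Equiv.mulLeft h) (fun g : Alt n =>
      if (g : Perm (Fin n)) r = p' then (1 : ℝ) else 0)]
    refine Finset.sum_congr rfl fun g _ => ?_
    rw [Equiv.coe_mulLeft, Subgroup.coe_mul, Perm.mul_apply, ← hh]
    simp only [EmbeddingLike.apply_eq_iff_eq]
  have h3 : ∀ r : Fin n, (n : ℝ) * Sm (n := n) (fun _ => 1) r r = Fintype.card (Alt n) := by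
    intro r
    have h4 := Sm_row (n := n) (fun _ => 1) r
    rw [Finset.sum_congr rfl fun p _ => h2 r p r] at h4
    simpa using h4
  have h5 : ∑ r : Fin n, Sm (n := n) (fun _ => 1) r r =
      ∑ _r : Fin n, (Fintype.card (Alt n) : ℝ) / n := by
    refine Finset.sum_congr rfl fun r _ => ?_
    rw [eq_div_iff hn0.ne', mul_comm]
    exact h3 r
  rw [h5, Finset.sum_const, Finset.card_univ, Fintype.card_fin, nsmul_eq_mul]
  field_simp

end Marg

/-- few first generators are bad, for a class of elements with exactly one fixed point -/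
lemma bad_le1 {n k L : ℕ} (hn : 4 ≤ n) (hk : 1 ≤ k) (κ : ℝ) (hκ0 : 0 ≤ κ) {y : Fin k → Alt n}
    (hκ : ∀ f : Alt n → ℝ, (∀ g h, f (h * g * h⁻¹) = f g) → toFA f ∈ HH 1 n →
      ∑ g, (lz (rmul y))^[L] f g ^ 2 ≤ κ * ∑ g, f g ^ 2)
    {M : Multiset ℕ} (hM : M.Nodup) (h2 : ∀ a ∈ M, 2 ≤ a)
    (hsum : M.sum + 1 = n) (hev : Even (M.sum + Multiset.card M)) :
    (Nat.card {g : Alt n // ∀ u ∈ ball y L, g * u ∉ Cty n M} : ℝ) ≤
      κ * M.prod * Fintype.card (Alt n) := by
  classical
  set C := Cty n M with hCdef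
  have hCd : Fintype.card (Alt n) ≤ C.card * M.prod := card_Cty hM h2 hsum hev
  have hG : 0 < Fintype.card (Alt n) := Fintype.card_pos
  have hG' : (0 : ℝ) < Fintype.card (Alt n) := by exact_mod_cast hG
  have hC0 : 0 < C.card := by
    by_contra hcon
    have : C.card = 0 := by omega
    rw [this, zero_mul] at hCd
    omega
  have hC0' : (0 : ℝ) < C.card := by exact_mod_cast hC0
  have hind : ∀ g, (Set.indicator (C : Set (Alt n)) 1 g : ℝ) = if g ∈ C then 1 else 0 := by
    intro g; simp [Set.indicator_apply]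
  set f : Alt n → ℝ := fun g => (Set.indicator (C : Set (Alt n)) 1 g : ℝ) -
    C.card / Fintype.card (Alt n) with hf
  have hfc : ∀ g h, f (h * g * h⁻¹) = f g := by
    intro g u
    have : (u * g * u⁻¹ ∈ C) ↔ g ∈ C := Cty_conj g u
    simp only [hf, hind, this]
  have hf0 : ∑ g, f g = 0 := by
    simp only [hf]
    rw [Finset.sum_sub_distrib]
    simp only [hind]
    rw [Finset.sum_ite_mem, Finset.univ_inter, Finset.sum_const, Finset.sum_const,
      Finset.card_univ, nsmul_eq_mul, nsmul_eq_mul]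
    field_simp
    ring
  have hf1 : ∑ g : Alt n, f g * nfix (g : Perm (Fin n)) = 0 := by
    simp only [hf, sub_mul]
    rw [Finset.sum_sub_distrib, ← Finset.mul_sum, sum_nfix (by omega)]
    have h3 : ∑ g : Alt n, (Set.indicator (C : Set (Alt n)) 1 g : ℝ) * nfix (g : Perm (Fin n)) =
        C.card := by
      have h4 : ∀ g : Alt n, (Set.indicator (C : Set (Alt n)) 1 g : ℝ) *
          nfix (g : Perm (Fin n)) = if g ∈ C then 1 else 0 := by
        intro g
        rw [hind]
        split_ifs with h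
        · rw [nfix_Cty hsum h]; simp
        · simp
      rw [Finset.sum_congr rfl fun g _ => h4 g, Finset.sum_ite_mem, Finset.univ_inter,
        Finset.sum_const, nsmul_eq_mul, mul_one]
    rw [h3]
    field_simp
    ring
  have h1 := few_bad hk (rmul y) L C hC0 κ hκ0 (hκ f hfc (mem_HH1 hn f hfc hf0 hf1))
  have h2' : Nat.card {g : Alt n // ∀ u ∈ ball y L, g * u ∉ C} ≤
      {g : Alt n | ∀ p ∈ ball (rmul y) L, p g ∉ C}.ncard := by
    rw [← Nat.card_coe_set_eq]
    refine Nat.card_le_card_of_injective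
      (fun g => (⟨g.1, ?_⟩ : {g : Alt n | ∀ p ∈ ball (rmul y) L, p g ∉ C})) ?_
    · intro p hp
      obtain ⟨u, hu, huv⟩ := ball_rmul hp
      rw [huv]
      exact g.2 u hu
    · intro a b hab
      exact Subtype.ext (congrArg (fun z => z.1) hab)
  have h3 : (Nat.card {g : Alt n // ∀ u ∈ ball y L, g * u ∉ C} : ℝ) * C.card ≤
      κ * (Fintype.card (Alt n) : ℝ) ^ 2 := by
    refine le_trans ?_ h1
    have : (Nat.card {g : Alt n // ∀ u ∈ ball y L, g * u ∉ C} : ℝ) ≤
      ({g : Alt n | ∀ p ∈ ball (rmul y) L, p g ∉ C}.ncard : ℝ) := by exact_mod_cast h2'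
    gcongr
  have hC' : (Fintype.card (Alt n) : ℝ) ≤ (C.card : ℝ) * M.prod := by exact_mod_cast hCd
  have h4 : (Nat.card {g : Alt n // ∀ u ∈ ball y L, g * u ∉ C} : ℝ) * C.card ≤
      (κ * M.prod * Fintype.card (Alt n)) * C.card := by
    refine h3.trans ?_
    calc κ * (Fintype.card (Alt n) : ℝ) ^ 2
        = κ * (Fintype.card (Alt n) : ℝ) * (Fintype.card (Alt n) : ℝ) := by ring
      _ ≤ κ * (Fintype.card (Alt n) : ℝ) * ((C.card : ℝ) * M.prod) := by gcongr
      _ = _ := by ring
  exact le_of_mul_le_mul_right h4 hC0'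

/-- the deterministic part -/
theorem det2 {n k s e L t : ℕ} {x : Fin k → Alt n} {g : Alt n} (hg : g ∈ ball x L)
    (h2 : IsS s ((g : Perm (Fin n)) ^ e)) (hs : s.Prime) (hs4 : 4 ≤ s) (hn : 6 ≤ n)
    (htr : ∀ a b : Tup s n, ∃ u ∈ ball x t, mv (u : Perm (Fin n)) a = b) (w : Alt n) :
    w ∈ ball x ((4 * (n / (s / 4)) + 8) * (e * L + 2 * t)) := by
  have h1 : g ^ e ∈ ball x (e * L) := pow_mem_ball hg e
  have h2' : IsS s ((g ^ e : Alt n) : Perm (Fin n)) := by
    rw [Subgroup.coe_pow]; exact h2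
  have hodd : Odd s := hs.odd_of_ne_two (by omega)
  have hcy : ∀ z : Perm (Fin n), IsS s z → z ∈ Alt n := by
    intro z hz
    rw [mem_alternatingGroup, hz.1.sign, hz.2, hodd.neg_one_pow]
    simp
  have hsig : sign (w : Perm (Fin n)) = 1 := w.2
  obtain ⟨l, hl1, hl2, hl3⟩ := even_factor hs4 h2' hn (w : Perm (Fin n)) hsig
  let l' : List (Alt n) := l.pmap (fun z hz => (⟨z, hz⟩ : Alt n)) (fun z hz => hcy z (hl2 z hz))
  have hl' : l'.map (Subgroup.subtype (Alt n)) = l := by
    simp only [l', List.map_pmap]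
    simp
  have hw : l'.prod = w := by
    apply Subtype.ext
    rw [← hl3, ← hl', ← map_list_prod]
    rfl
  rw [← hw]
  refine list_prod_mem_ball l' (by simpa [l'] using hl1) fun z hz => ?_
  have hzl : (z : Perm (Fin n)) ∈ l := by
    rw [← hl']; exact List.mem_map_of_mem hz
  exact cycles_mem_ball h1 h2' htr (hl2 _ hzl)

end Pool.Agent.L0h8.SK
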