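import Pool.Agent.L0h8.SK.Gap
import Pool.Agent.L0h8.SK.Cyc2
import Pool.Agent.L0h8.SK.Num2

/-!
The gap on short tuples and the diameter, for a small number of generators: assembly.
-/

set_option autoImplicit false
set_option linter.unusedSectionVars false

namespace Pool.Agent.L0h8.SK
open Equiv Finset RC14 Filter Topology
open Pool.Agent.R236.Den (FewFixK)
open Pool.Agent.L0h8.ND (IsS ball ball_mono ball_sub gen_mem_ball mul_mem_ball trans_tuples)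

/-- the gap on short tuples, for `k ≥ 3` generators -/
theorem gap_k (k : ℕ) (hk : 3 ≤ k) (δ : ℝ) (hδ : 0 < δ)
    (hδ1 : δ < ((k : ℝ) - 2) / (3 * (k - 1))) :
    ∃ c : ℝ, 0 < c ∧ c ≤ 1 ∧ ∀ ε₀ : ℝ, 0 < ε₀ → ∀ᶠ n : ℕ in atTop,
      (Nat.card {y : Fin k → Alt n //
        ¬ Good1 n ⌊(n : ℝ) ^ (((k : ℝ) - 2) / (3 * (k - 1)) - δ)⌋₊ c y} : ℝ) ≤
        ε₀ * (Fintype.card (Alt n) : ℝ) ^ k := by
  obtain ⟨q, rfl⟩ : ∃ q, k = 2 + q := ⟨k - 2, by omega⟩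
  have e : (((2 + q : ℕ) : ℝ) - 2) / (3 * (((2 + q : ℕ) : ℝ) - 1)) = (q : ℝ) / (3 * (q + 1)) := by
    push_cast
    congr 1 <;> ring
  rw [e] at hδ1 ⊢
  exact gapk q (by omega) δ hδ hδ1

/-- the class is hit by short words -/
theorem hit_k (k : ℕ) (hk : 2 ≤ k) (d : ℝ) (hd : 0 < d) (ε₀ : ℝ) (hε₀ : 0 < ε₀) :
    ∀ᶠ n : ℕ in atTop, ∀ M : Multiset ℕ, M.Nodup → (∀ a ∈ M, 2 ≤ a) → M.sum + 1 = n →
      Even (M.sum + Multiset.card M) → ((M.prod : ℕ) : ℝ) ≤ 2 * (n : ℝ) ^ (4 / 3 : ℝ) →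
      (Nat.card {x : Fin (k + 1) → Alt n //
        ∀ u ∈ ball (Fin.tail x) ⌈(n : ℝ) ^ d⌉₊, x 0 * u ∉ Cty n M} : ℝ) ≤
        ε₀ * (Fintype.card (Alt n) : ℝ) ^ (k + 1) := by
  filter_upwards [hit_par k hk d hd, few_ev k (1 / 64) (1 / 16) (by norm_num) (by norm_num)
    (by norm_num) 1, ev_const 1 (2 / ε₀) one_pos, ev_const (1 / 6) (24 / ε₀) (by norm_num),
    eventually_ge_atTop 4] with n h1 h2 h3 h4 hn4
  intro M hM1 hM2 hM3 hM4 hM5
  have hn4r : (4 : ℝ) ≤ n := by exact_mod_cast hn4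
  have hn0 : (0 : ℝ) < n := by linarith
  rw [Real.rpow_one] at h3
  rw [pow_one] at h2
  rw [div_le_iff₀ hε₀] at h3 h4
  set L : ℕ := ⌈(n : ℝ) ^ d⌉₊ with hL
  set P : (Fin k → Alt n) → Prop := fun y =>
    FewFixK n ⌊(n : ℝ) ^ (1 / 64 : ℝ)⌋₊ ⌈(n : ℝ) ^ (1 / 16 : ℝ)⌉₊
      (fun i => (y i : Equiv.Perm (Fin n))) with hP
  set Bad : (Fin k → Alt n) → Alt n → Prop := fun y g => ∀ u ∈ ball y L, g * u ∉ Cty n M with hBad
  have hbad : ∀ y, P y → (Nat.card {g : Alt n // Bad y g} : ℝ) ≤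
      (ε₀ / 2) * Fintype.card (Alt n) := by
    intro y hy
    set κ : ℝ := 6 * (n : ℝ) ^ (-(3 / 2) : ℝ) with hκ
    have h5 := bad_le1 (L := L) hn4 (by omega : 1 ≤ k) κ (by positivity) (y := y) (by
      intro f hf hmem
      have h6 := class_decay1 (by omega : 1 ≤ k) _ _ _ _ _ _ L _ _ h1.hN h1.hNn h1.hn h1.hF h1.hI
        h1.hJF h1.hJI h1.hb1 h1.hκ1 h1.hκ2 h1.hκ3 h1.hℓ h1.hθ0 h1.hθ1 y hy f hf hmem
      refine h6.trans (mul_le_mul_of_nonneg_right h1.hfin ?_)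
      exact Finset.sum_nonneg fun g _ => sq_nonneg _) hM1 hM2 hM3 hM4
    refine h5.trans ?_
    refine mul_le_mul_of_nonneg_right ?_ (Nat.cast_nonneg _)
    have e1 : (n : ℝ) ^ (-(3 / 2) : ℝ) * (n : ℝ) ^ (4 / 3 : ℝ) * (n : ℝ) ^ (1 / 6 : ℝ) = 1 := by
      rw [← Real.rpow_add hn0, ← Real.rpow_add hn0]
      norm_num
    have hp : 0 < (n : ℝ) ^ (1 / 6 : ℝ) := by positivity
    have h7 : κ * M.prod ≤ 12 * ((n : ℝ) ^ (-(3 / 2) : ℝ) * (n : ℝ) ^ (4 / 3 : ℝ)) := by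
      calc κ * M.prod ≤ κ * (2 * (n : ℝ) ^ (4 / 3 : ℝ)) := by gcongr
        _ = _ := by rw [hκ]; ring
    have h8 : (n : ℝ) ^ (-(3 / 2) : ℝ) * (n : ℝ) ^ (4 / 3 : ℝ) ≤ ε₀ / 24 := by
      have h9 : (n : ℝ) ^ (-(3 / 2) : ℝ) * (n : ℝ) ^ (4 / 3 : ℝ) * (n : ℝ) ^ (1 / 6 : ℝ) ≤
          ε₀ / 24 * (n : ℝ) ^ (1 / 6 : ℝ) := by
        rw [e1]; linarith
      exact le_of_mul_le_mul_right h9 hp
    linarith
  have hprod := card_prod_bound P Bad (ε₀ / 2) (by positivity) hbad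
  have hequiv : Nat.card {x : Fin (k + 1) → Alt n //
      ∀ u ∈ ball (Fin.tail x) L, x 0 * u ∉ Cty n M} =
      Nat.card {p : (Fin k → Alt n) × Alt n // Bad p.1 p.2} := by
    let e : (Fin k → Alt n) × Alt n ≃ (Fin (k + 1) → Alt n) :=
      (Equiv.prodComm _ _).trans (Fin.consEquiv (fun _ : Fin (k + 1) => Alt n))
    refine (RC14.card_equiv e (fun p => Bad p.1 p.2) _ fun p => ?_).symm
    rfl
  rw [hequiv]
  refine hprod.trans ?_
  have hcardF : (Fintype.card (Fin k → Alt n) : ℝ) = (Fintype.card (Alt n) : ℝ) ^ k := by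
    rw [Fintype.card_fun, Fintype.card_fin]; push_cast; rfl
  rw [hcardF]
  set Q : ℝ := (Fintype.card (Alt n) : ℝ) with hQ
  have hQ0 : 0 < Q := by rw [hQ]; exact_mod_cast Fintype.card_pos
  have h9 : (Nat.card {x : Fin k → Alt n // ¬ P x} : ℝ) ≤ ε₀ / 2 * Q ^ k := by
    have h12 : (Nat.card {x : Fin k → Alt n // ¬ P x} : ℝ) * n ≤ Q ^ k := h2
    have h13 : (Nat.card {x : Fin k → Alt n // ¬ P x} : ℝ) * n ≤ (ε₀ / 2 * Q ^ k) * n := by
      calc _ ≤ 1 * Q ^ k := by linarith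
        _ ≤ (ε₀ / 2 * n) * Q ^ k := by gcongr; linarith
        _ = _ := by ring
    exact le_of_mul_le_mul_right h13 hn0
  calc (Nat.card {x : Fin k → Alt n // ¬ P x} : ℝ) * Q + ε₀ / 2 * Q ^ k * Q
      ≤ (ε₀ / 2 * Q ^ k) * Q + ε₀ / 2 * Q ^ k * Q := by gcongr
    _ = ε₀ * Q ^ (k + 1) := by ring

/-- **the diameter** for `k ≥ 3` generators -/
theorem diam_k (k : ℕ) (hk : 3 ≤ k) (δ : ℝ) (hδ : 0 < δ) : ∀ ε₀ : ℝ, 0 < ε₀ →
    ∀ᶠ n : ℕ in atTop, (Nat.card {x : Fin k → Alt n // ¬ ∃ T : ℕ,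
      (T : ℝ) ≤ (n : ℝ) ^ (2 - ((k : ℝ) - 2) / (3 * (k - 1)) + δ) ∧
      ∀ w : Alt n, w ∈ ball x T} : ℝ) ≤ ε₀ * (Fintype.card (Alt n) : ℝ) ^ k := by
  intro ε₀ hε₀
  have hkr : (3 : ℝ) ≤ k := by exact_mod_cast hk
  set A : ℝ := ((k : ℝ) - 2) / (3 * (k - 1)) with hA
  have hA1 : 1 / 6 ≤ A := by
    rw [hA, div_le_div_iff₀ (by norm_num) (by nlinarith)]; nlinarith
  have hA2 : A ≤ 1 / 3 := by
    rw [hA, div_le_div_iff₀ (by nlinarith) (by norm_num)]; nlinarith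
  set d : ℝ := min δ (1 / 6) / 4 with hd'
  have hd : 0 < d := by
    have : 0 < min δ (1 / 6) := lt_min hδ (by norm_num)
    positivity
  have hd1 : d ≤ 1 / 24 := by
    have : min δ (1 / 6) ≤ 1 / 6 := min_le_right _ _
    linarith
  have hdδ : 4 * d ≤ δ := by
    have : min δ (1 / 6) ≤ δ := min_le_left _ _
    linarith
  obtain ⟨c, hc, hc1, hgap⟩ := gap_k k hk d hd (by rw [← hA]; linarith)
  rw [← hA] at hgap
  have hkpos : (0 : ℝ) < k := by linarith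
  have hε1 : 0 < c / (2 * k) := by positivity
  have hε1' : c / (2 * k) ≤ 2 := by
    rw [div_le_iff₀ (by positivity)]; nlinarith
  obtain ⟨k', hk'⟩ : ∃ k', k = k' + 1 := ⟨k - 1, by omega⟩
  have hm2 : ∀ᶠ n : ℕ in atTop, ⌊(n : ℝ) ^ (A - d)⌋₊ + 2 ≤ n := by
    filter_upwards [ev_le (A - d) 1 2 (by linarith), eventually_ge_atTop 4] with n h1 h2
    have h3 : (⌊(n : ℝ) ^ (A - d)⌋₊ : ℝ) ≤ (n : ℝ) ^ (A - d) := Nat.floor_le (by positivity)
    rw [Real.rpow_one] at h1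
    have h4 : (4 : ℝ) ≤ n := by exact_mod_cast h2
    have h5 : (⌊(n : ℝ) ^ (A - d)⌋₊ : ℝ) + 2 ≤ n := by linarith
    exact_mod_cast h5
  filter_upwards [hgap (ε₀ / 2) (by positivity), hm2,
    hit_k k' (by omega) d hd (ε₀ / 2) (by positivity),
    num2 A d (c / (2 * k)) hA1 hA2 hd hd1 hε1 hε1', eventually_ge_atTop 1] with n h1 h2 h3 h4 hn1
  obtain ⟨s, e, R, hs, hs4, hn6, hsm, hse, hRe, hM1, hM2, hM3, hM4, hM5, ht, hlen⟩ := h4
  have h5 := h3 (s ::ₘ R) hM1 hM2 hM3 hM4 hM5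
  have hn1r : (1 : ℝ) ≤ n := by exact_mod_cast hn1
  subst hk'
  set m : ℕ := ⌊(n : ℝ) ^ (A - d)⌋₊ with hm
  set L : ℕ := ⌈(n : ℝ) ^ d⌉₊ with hL
  have hsub : Nat.card {x : Fin (k' + 1) → Alt n // ¬ ∃ T : ℕ,
      (T : ℝ) ≤ (n : ℝ) ^ (2 - A + δ) ∧ ∀ w : Alt n, w ∈ ball x T} ≤
      Nat.card {x : Fin (k' + 1) → Alt n // ¬ Good1 n m c x} +
      Nat.card {x : Fin (k' + 1) → Alt n // ∀ u ∈ ball (Fin.tail x) L,
        x 0 * u ∉ Cty n (s ::ₘ R)} := by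
    have h6 := card_union (ι := Bool) (fun x : Fin (k' + 1) → Alt n => ¬ ∃ T : ℕ,
      (T : ℝ) ≤ (n : ℝ) ^ (2 - A + δ) ∧ ∀ w : Alt n, w ∈ ball x T)
      (fun b x => if b then (¬ Good1 n m c x) else
        (∀ u ∈ ball (Fin.tail x) L, x 0 * u ∉ Cty n (s ::ₘ R))) (by
        intro x hx
        by_contra hcon
        have ha : Good1 n m c x := by
          by_contra h
          exact hcon ⟨true, by rw [if_pos rfl]; exact h⟩
        have hb : ¬ ∀ u ∈ ball (Fin.tail x) L, x 0 * u ∉ Cty n (s ::ₘ R) := by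
          intro h
          exact hcon ⟨false, by rw [if_neg (by simp)]; exact h⟩
        push Not at hb
        obtain ⟨u, hu, huC⟩ := hb
        apply hx
        have htup := Pool.Agent.Results.MP_75608d_al.GapAllTuples.gap_of_good n _ (k' + 1) h2
          (by omega) c x ha
        have hsubb : ∀ T, ball (Fin.tail x) T ⊆ ball x T := by
          intro T
          exact ball_sub Fin.succ
        have hgu : x 0 * u ∈ ball x (L + 1) := by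
          have h9 : x 0 ∈ ball x 1 := gen_mem_ball (x := x) 0
          have := mul_mem_ball h9 (hsubb L hu)
          exact ball_mono (by omega) this
        refine ⟨(4 * (n / (s / 4)) + 8) * (e * (L + 1) + 2 * n), hlen.trans ?_, fun w => ?_⟩
        · exact Real.rpow_le_rpow_of_exponent_le hn1r (by linarith)
        · have hpow : IsS s (((x 0 * u : Alt n) : Perm (Fin n)) ^ e) :=
            pow_cycle' hs hse (mem_Cty.1 huC) hRe
          refine det2 hgu hpow hs hs4 hn6 (fun a b => ?_) w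
          exact trans_tuples (by omega) hε1' htup hsm ht a b)
    rw [Fintype.sum_bool] at h6
    simpa using h6
  have hsub' : (Nat.card {x : Fin (k' + 1) → Alt n // ¬ ∃ T : ℕ,
      (T : ℝ) ≤ (n : ℝ) ^ (2 - A + δ) ∧ ∀ w : Alt n, w ∈ ball x T} : ℝ) ≤
      (Nat.card {x : Fin (k' + 1) → Alt n // ¬ Good1 n m c x} : ℝ) +
      (Nat.card {x : Fin (k' + 1) → Alt n // ∀ u ∈ ball (Fin.tail x) L,
        x 0 * u ∉ Cty n (s ::ₘ R)} : ℝ) := by exact_mod_cast hsub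
  linarith

end Pool.Agent.L0h8.SK
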