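import Pool.Agent.L0h8.SK.Char
import Pool.Agent.H14R2.RC.S.PEEL
import Pool.Agent.R236.DenD
import Pool.Agent.H14R2.RC.R1

/-!
Amplification by independent conjugates, in the sharp form.
-/

set_option autoImplicit false
set_option linter.unusedSectionVars false

namespace Pool.Agent.L0h8.SK
open RC14 Finset
open Pool.Agent.R236.Den (PX PX_symm FewFixK)
open scoped InnerProductSpace

noncomputable section

section Gen
variable {G : Type*} [Group G] [Fintype G]
variable {V : Type*} [NormedAddCommGroup V] [InnerProductSpace ℂ V] [FiniteDimensional ℂ V]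

/-- Peeling, starting with an arbitrary operator -/
theorem peel (ρ : G →* (V ≃ₗᵢ[ℂ] V)) (hirr : Irr ρ ⊤) (E : Module.End ℂ V) (hE : SymIdem E)
    (A : Module.End ℂ V) (q : ℕ) (s : List (Fin q)) (hs' : s.Nodup) :
    ∑ z : Fin q → G, hs (A * (s.map fun i => cj ρ E (z i)).prod) =
      (Fintype.card G : ℝ) ^ q * (rtr E / Module.finrank ℂ V) ^ s.length * hs A := by
  classical
  induction s using List.reverseRecOn with
  | nil =>
    simp only [List.map_nil, List.prod_nil, mul_one, Finset.sum_const, Finset.card_univ,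
      List.length_nil, pow_zero, nsmul_eq_mul]
    rw [Fintype.card_fun, Fintype.card_fin]
    push_cast
    rfl
  | append_singleton s i ih =>
    have hnd := List.nodup_append.1 hs'
    have hi : i ∉ s := by
      intro h
      exact hnd.2.2 i h i (by simp) rfl
    have ih' := ih hnd.1
    simp only [List.map_append, List.map_cons, List.map_nil, List.prod_append, List.prod_cons,
      List.prod_nil, mul_one, List.length_append, List.length_cons, List.length_nil, zero_add]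
    rw [pow_succ]
    have hcard : (0 : ℝ) < Fintype.card G := by exact_mod_cast Fintype.card_pos
    have h1 := PEEL.sum_update q i
      (fun z : Fin q → G => hs (A * ((s.map fun i => cj ρ E (z i)).prod * cj ρ E (z i))))
    have h2 : ∀ (z : Fin q → G), ∑ g : G, hs (A * ((s.map fun j => cj ρ E
        (Function.update z i g j)).prod * cj ρ E (Function.update z i g i))) =
        (Fintype.card G : ℝ) * (rtr E / Module.finrank ℂ V) *
          hs (A * (s.map fun i => cj ρ E (z i)).prod) := by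
      intro z
      rw [← PEEL.sum_hs_mul ρ hirr E hE]
      refine Finset.sum_congr rfl fun g _ => ?_
      rw [Function.update_self, ← mul_assoc]
      congr 3
      congr 1
      apply List.map_congr_left
      intro j hj
      have hji : j ≠ i := fun h => hi (h ▸ hj)
      rw [Function.update_of_ne hji]
    rw [Finset.sum_congr rfl fun z _ => h2 z, ← Finset.mul_sum] at h1
    have h3 : ∑ z : Fin q → G, hs (A * ((s.map fun i => cj ρ E (z i)).prod * cj ρ E (z i))) =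
        (rtr E / Module.finrank ℂ V) *
          ∑ z : Fin q → G, hs (A * (s.map fun i => cj ρ E (z i)).prod) := by
      have : (Fintype.card G : ℝ) * ∑ z : Fin q → G,
          hs (A * ((s.map fun i => cj ρ E (z i)).prod * cj ρ E (z i))) =
          (Fintype.card G : ℝ) * ((rtr E / Module.finrank ℂ V) *
          ∑ z : Fin q → G, hs (A * (s.map fun i => cj ρ E (z i)).prod)) := by
        rw [← h1]; ring
      exact mul_left_cancel₀ hcard.ne' this
    rw [h3, ih']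
    ring

lemma PX_apply (ρ : G →* (V ≃ₗᵢ[ℂ] V)) {k : ℕ} (x : Fin k → G) (v : V) :
    PX ρ x v = Pool.Agent.R236.Exc.wop ρ x v := by
  simp only [PX, Pool.Agent.R236.Exc.wop, LinearMap.smul_apply, LinearMap.sum_apply,
    LinearMap.add_apply, op_apply]

lemma PX_energy (ρ : G →* (V ≃ₗᵢ[ℂ] V)) {k : ℕ} (hk : 1 ≤ k) (x : Fin k → G) (v : V) :
    ‖v‖ ^ 2 - (⟪PX ρ x v, v⟫_ℂ).re = En ρ x v / (2 * k) := by
  rw [PX_apply]
  exact Pool.Agent.R236.Exc.wop_energy ρ hk x v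

/-- **amplification** in an irreducible representation -/
theorem ampk (ρ : G →* (V ≃ₗᵢ[ℂ] V)) (hirr : Irr ρ ⊤) {k : ℕ} (hk : 1 ≤ k) (x : Fin k → G)
    (L : ℕ) (θ B : ℝ) (hθ0 : 0 < θ) (hθ1 : θ < 1)
    (htr : rtr (PX ρ x ^ (2 * L)) ≤ θ ^ (2 * L) * B * Module.finrank ℂ V) (q : ℕ) :
    (Nat.card {z : Fin q → G // ¬ ∀ v : V,
        (1 - θ) / (16 * ((q : ℝ) + 1) ^ 2) * ‖v‖ ^ 2 ≤ En ρ x v + En ρ z v} : ℝ) ≤
      4 * Module.finrank ℂ V * B ^ (q + 1) * (Fintype.card G : ℝ) ^ q := by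
  classical
  have hnt : Nontrivial V := by
    rcases subsingleton_or_nontrivial V with h | h
    · exfalso
      apply hirr.1
      exact Subsingleton.elim _ _
    · exact h
  have hd : (0 : ℝ) < Module.finrank ℂ V := by
    exact_mod_cast Module.finrank_pos
  set d : ℝ := (Module.finrank ℂ V : ℝ) with hdd
  have hk1 : (1 : ℝ) ≤ k := by exact_mod_cast hk
  obtain ⟨E, hE, htrE, hgap⟩ := SPEC (PX ρ x) (PX_symm ρ x) (by
    intro v
    have h1 := PX_energy ρ hk x v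
    have h2 := RC14.En_nonneg ρ x v
    have : 0 ≤ En ρ x v / (2 * k) := by positivity
    linarith) θ hθ0 hθ1
  have hgap' : ∀ v, (1 - θ) * ‖v - E v‖ ^ 2 ≤ En ρ x v / 2 := by
    intro v
    have h1 := hgap v
    rw [PX_energy ρ hk x v] at h1
    have h2 := RC14.En_nonneg ρ x v
    have h3 : En ρ x v / (2 * k) ≤ En ρ x v / 2 := by
      apply div_le_div_of_nonneg_left h2 (by norm_num); linarith
    linarith
  have hE0 : 0 ≤ rtr E := by
    rw [← (hs_proj E hE).1]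
    exact hs_nonneg E
  have hτ0 : 0 ≤ rtr E / d := by positivity
  have hτ : rtr E / d ≤ B := by
    rw [div_le_iff₀ hd]
    have h1 := (htrE L).trans htr
    have hp : 0 < θ ^ (2 * L) := by positivity
    rw [mul_assoc] at h1
    exact le_of_mul_le_mul_left h1 hp
  have hB0 : 0 ≤ B := hτ0.trans hτ
  have hpeel := peel ρ hirr E hE E q (List.finRange q) (List.nodup_finRange q)
  rw [List.length_finRange, (hs_proj E hE).1] at hpeel
  set H : (Fin q → G) → ℝ := fun z => hs (E * ((List.finRange q).map fun i => cj ρ E (z i)).prod)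
    with hH
  set Q : ℝ := (q : ℝ) + 1 with hQ
  have hQ1 : 1 ≤ Q := by rw [hQ]; linarith [Nat.cast_nonneg (α := ℝ) q]
  have hQ0 : 0 < Q := by linarith
  have hbad : ∀ z : Fin q → G, (¬ ∀ v : V,
      (1 - θ) / (16 * Q ^ 2) * ‖v‖ ^ 2 ≤ En ρ x v + En ρ z v) → 1 ≤ 4 * H z := by
    intro z hz
    push Not at hz
    obtain ⟨v, hv⟩ := hz
    have hX := RC14.En_nonneg ρ x v
    have hZ := RC14.En_nonneg ρ z v
    have h1θ : 0 < 1 - θ := by linarith
    have hvpos : 0 < ‖v‖ := by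
      rcases (norm_nonneg v).eq_or_lt with h | h
      · rw [← h] at hv
        simp at hv
        linarith
      · exact h
    have h1 : ‖v - E v‖ ≤ ‖v‖ / (5 * Q) := by
      apply abs_le_of_sq_le_sq' _ (by positivity) |>.2
      have h2 : (1 - θ) * ‖v - E v‖ ^ 2 ≤ (1 - θ) * (‖v‖ ^ 2 / (32 * Q ^ 2)) := by
        calc (1 - θ) * ‖v - E v‖ ^ 2 ≤ En ρ x v / 2 := hgap' v
          _ ≤ ((1 - θ) / (16 * Q ^ 2) * ‖v‖ ^ 2) / 2 := by linarith
          _ = (1 - θ) * (‖v‖ ^ 2 / (32 * Q ^ 2)) := by ring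
      have h3 := le_of_mul_le_mul_left h2 h1θ
      calc ‖v - E v‖ ^ 2 ≤ ‖v‖ ^ 2 / (32 * Q ^ 2) := h3
        _ ≤ ‖v‖ ^ 2 / (25 * Q ^ 2) := by
          apply div_le_div_of_nonneg_left (by positivity) (by positivity)
          nlinarith [sq_nonneg Q]
        _ = (‖v‖ / (5 * Q)) ^ 2 := by ring
    have h2 : ∀ i, ‖ρ (z i) v - v‖ ≤ ‖v‖ / (4 * Q) := by
      intro i
      apply abs_le_of_sq_le_sq' _ (by positivity) |>.2
      have h3 : ‖ρ (z i) v - v‖ ^ 2 ≤ En ρ z v :=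
        Finset.single_le_sum (f := fun i => ‖ρ (z i) v - v‖ ^ 2) (fun i _ => by positivity)
          (Finset.mem_univ i)
      calc ‖ρ (z i) v - v‖ ^ 2 ≤ En ρ z v := h3
        _ ≤ (1 - θ) / (16 * Q ^ 2) * ‖v‖ ^ 2 := by linarith
        _ ≤ 1 / (16 * Q ^ 2) * ‖v‖ ^ 2 := by gcongr; linarith
        _ = (‖v‖ / (4 * Q)) ^ 2 := by ring
    have h3 : ∀ i, ‖cj ρ E (z i) v - v‖ ≤ ‖v‖ * (9 / (20 * Q)) := by
      intro i
      calc ‖cj ρ E (z i) v - v‖ ≤ ‖v - E v‖ + ‖ρ (z i) v - v‖ := AMP1.cj_dist ρ E hE _ _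
        _ ≤ ‖v‖ / (5 * Q) + ‖v‖ / (4 * Q) := add_le_add h1 (h2 i)
        _ = ‖v‖ * (9 / (20 * Q)) := by field_simp; norm_num
    have h4 := AMP1.prod_dist ρ E hE z v _ h3 (List.finRange q)
    rw [List.length_finRange] at h4
    set P := ((List.finRange q).map fun i => cj ρ E (z i)).prod with hP
    have h5 : ‖E (P v) - v‖ ≤ ‖v‖ / 2 := by
      have e1 : E (P v) - v = E (P v - v) - (v - E v) := by rw [map_sub]; abel
      rw [e1]
      calc _ ≤ ‖E (P v - v)‖ + ‖v - E v‖ := norm_sub_le _ _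
        _ ≤ ‖P v - v‖ + ‖v - E v‖ := by gcongr; exact AMP1.proj_norm E hE _
        _ ≤ q * (‖v‖ * (9 / (20 * Q))) + ‖v‖ / (5 * Q) := add_le_add h4 h1
        _ ≤ q * (‖v‖ * (9 / (20 * Q))) + ‖v‖ * (9 / (20 * Q)) := by
            have : ‖v‖ / (5 * Q) ≤ ‖v‖ * (9 / (20 * Q)) := by
              rw [div_le_iff₀ (by positivity)]
              have : ‖v‖ * (9 / (20 * Q)) * (5 * Q) = ‖v‖ * (9 / 4) := by field_simp; norm_num
              rw [this]
              linarith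
            linarith
        _ = ‖v‖ * (9 / 20) := by rw [hQ]; field_simp
        _ ≤ ‖v‖ / 2 := by linarith
    have h6 : ‖v‖ / 2 ≤ ‖(E * P) v‖ := by
      have := norm_sub_norm_le v (E (P v))
      rw [norm_sub_rev] at this
      rw [Module.End.mul_apply]
      linarith
    have h7 : (‖v‖ / 2) ^ 2 ≤ hs (E * P) * ‖v‖ ^ 2 := by
      calc (‖v‖ / 2) ^ 2 ≤ ‖(E * P) v‖ ^ 2 := by gcongr
        _ ≤ _ := norm_sq_le_hs (E * P) v
    have h8 : H z = hs (E * P) := rfl
    rw [h8]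
    have h9 : 0 < ‖v‖ ^ 2 := by positivity
    nlinarith
  have hcount : (Nat.card {z : Fin q → G // ¬ ∀ v : V,
        (1 - θ) / (16 * Q ^ 2) * ‖v‖ ^ 2 ≤ En ρ x v + En ρ z v} : ℝ) ≤ ∑ z, 4 * H z := by
    rw [Nat.card_eq_fintype_card, Fintype.card_subtype]
    rw [Finset.card_eq_sum_ones]
    push_cast
    calc _ ≤ ∑ z ∈ univ.filter (fun z : Fin q → G => ¬ ∀ v : V,
        (1 - θ) / (16 * Q ^ 2) * ‖v‖ ^ 2 ≤ En ρ x v + En ρ z v), 4 * H z := by
          apply Finset.sum_le_sum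
          intro z hz
          exact hbad z (Finset.mem_filter.mp hz).2
      _ ≤ ∑ z, 4 * H z := by
          apply Finset.sum_le_sum_of_subset_of_nonneg (Finset.filter_subset _ _)
          intro z _ _
          have : 0 ≤ H z := hs_nonneg _
          linarith
  refine hcount.trans ?_
  rw [← Finset.mul_sum, hpeel]
  have e1 : rtr E = rtr E / d * d := by field_simp
  have hpow : (rtr E / d) ^ (q + 1) ≤ B ^ (q + 1) := pow_le_pow_left₀ hτ0 hτ _
  calc 4 * ((Fintype.card G : ℝ) ^ q * (rtr E / d) ^ q * rtr E)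
      = 4 * d * (rtr E / d) ^ (q + 1) * (Fintype.card G : ℝ) ^ q := by
        conv_lhs => rw [e1]
        rw [pow_succ]
        field_simp
    _ ≤ 4 * d * B ^ (q + 1) * (Fintype.card G : ℝ) ^ q := by gcongr

lemma En_res (ρ : G →* (V ≃ₗᵢ[ℂ] V)) (W : Submodule ℂ V) (hW : Inv ρ W) {k : ℕ} (y : Fin k → G)
    (w : W) : En (res ρ W hW) y w = En ρ y (w : V) := by
  unfold En
  apply Finset.sum_congr rfl
  intro i _
  rw [Submodule.coe_norm, Submodule.coe_sub, res_apply]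

/-- the same for an irreducible invariant subspace -/
theorem ampk_sub (ρ : G →* (V ≃ₗᵢ[ℂ] V)) (W : Submodule ℂ V) (hW : Irr ρ W) {k : ℕ} (hk : 1 ≤ k)
    (x : Fin k → G) (L : ℕ) (θ B : ℝ) (hθ0 : 0 < θ) (hθ1 : θ < 1)
    (htr : rtr (PX (res ρ W hW.2.1) x ^ (2 * L)) ≤ θ ^ (2 * L) * B * Module.finrank ℂ W)
    (q : ℕ) :
    (Nat.card {z : Fin q → G // ¬ ∀ v ∈ W,
        (1 - θ) / (16 * ((q : ℝ) + 1) ^ 2) * ‖v‖ ^ 2 ≤ En ρ x v + En ρ z v} : ℝ) ≤
      4 * Module.finrank ℂ W * B ^ (q + 1) * (Fintype.card G : ℝ) ^ q := by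
  have h := ampk (res ρ W hW.2.1) (AMP1.irr_res ρ W hW) hk x L θ B hθ0 hθ1 htr q
  have hiff : ∀ z : Fin q → G, (¬ ∀ v ∈ W,
        (1 - θ) / (16 * ((q : ℝ) + 1) ^ 2) * ‖v‖ ^ 2 ≤ En ρ x v + En ρ z v) ↔
      (¬ ∀ v : W, (1 - θ) / (16 * ((q : ℝ) + 1) ^ 2) * ‖v‖ ^ 2 ≤
        En (res ρ W hW.2.1) x v + En (res ρ W hW.2.1) z v) := by
    intro z
    apply not_congr
    constructor
    · intro h1 v
      rw [En_res, En_res, Submodule.coe_norm]
      exact h1 v v.2
    · intro h1 v hv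
      have := h1 ⟨v, hv⟩
      rw [En_res, En_res, Submodule.coe_norm] at this
      exact this
  have hc : Nat.card {z : Fin q → G // ¬ ∀ v ∈ W,
        (1 - θ) / (16 * ((q : ℝ) + 1) ^ 2) * ‖v‖ ^ 2 ≤ En ρ x v + En ρ z v} =
      Nat.card {z : Fin q → G // ¬ ∀ v : W, (1 - θ) / (16 * ((q : ℝ) + 1) ^ 2) * ‖v‖ ^ 2 ≤
        En (res ρ W hW.2.1) x v + En (res ρ W hW.2.1) z v} :=
    Nat.card_congr (Equiv.subtypeEquivRight hiff)
  rw [hc]
  exact h

/-- trace of a power of the walk on an invariant subspace -/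
def RP (ρ : G →* (V ≃ₗᵢ[ℂ] V)) (W : Submodule ℂ V) (hW : Inv ρ W) {k : ℕ} (x : Fin k → G)
    (m : ℕ) : ℝ := rtr (PX (res ρ W hW) x ^ m)

lemma RP_le (ρ : G →* (V ≃ₗᵢ[ℂ] V)) (W : Submodule ℂ V) (hW : Inv ρ W) {k : ℕ} (hk : 1 ≤ k)
    (x : Fin k → G) (t : ℕ) (β : ℝ) (hβ : 0 ≤ β)
    (h : ∀ u : FreeGroup (Fin k), u ≠ 1 → u.norm ≤ t →
      ‖rchr ρ W hW (FreeGroup.lift x u)‖ ≤ β * Module.finrank ℂ W) :
    RP ρ W hW x t ≤ ((Real.sqrt (2 * k - 1) / k) ^ t + β) * Module.finrank ℂ W :=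
  Pool.Agent.R236.Den.trace_le (res ρ W hW) hk x t β hβ h

/-- union over the components, keeping track of the dimensions -/
theorem ubs (ρ : G →* (V ≃ₗᵢ[ℂ] V)) {k : ℕ} (hk : 1 ≤ k) (x : Fin k → G) (L : ℕ) (θ B : ℝ)
    (hθ0 : 0 < θ) (hθ1 : θ < 1) (hB : 0 ≤ B) (q : ℕ) (d : ℕ) :
    ∀ (M : Submodule ℂ V), Inv ρ M → Module.finrank ℂ M ≤ d →
      (∀ (W : Submodule ℂ V) (hW : Irr ρ W), W ≤ M →
        RP ρ W hW.2.1 x (2 * L) ≤ θ ^ (2 * L) * B * Module.finrank ℂ W) →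
      (Nat.card {z : Fin q → G // ¬ ∀ v ∈ M,
        (1 - θ) / (16 * ((q : ℝ) + 1) ^ 2) * ‖v‖ ^ 2 ≤ En ρ x v + En ρ z v} : ℝ) ≤
      4 * Module.finrank ℂ M * B ^ (q + 1) * (Fintype.card G : ℝ) ^ q := by
  induction d with
  | zero =>
    intro M hM hd _
    have hM0 : M = ⊥ := by
      apply Submodule.finrank_eq_zero.mp
      omega
    have h0 : Nat.card {z : Fin q → G // ¬ ∀ v ∈ M,
        (1 - θ) / (16 * ((q : ℝ) + 1) ^ 2) * ‖v‖ ^ 2 ≤ En ρ x v + En ρ z v} = 0 := by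
      rw [Nat.card_eq_zero]
      left
      refine ⟨fun z => z.2 fun v hv => ?_⟩
      rw [hM0, Submodule.mem_bot] at hv
      subst hv
      simp [En]
    rw [h0]
    push_cast
    positivity
  | succ d ih =>
    intro M hM hd htr
    by_cases h0 : M = ⊥
    · have h0' : Nat.card {z : Fin q → G // ¬ ∀ v ∈ M,
          (1 - θ) / (16 * ((q : ℝ) + 1) ^ 2) * ‖v‖ ^ 2 ≤ En ρ x v + En ρ z v} = 0 := by
        rw [Nat.card_eq_zero]
        left
        refine ⟨fun z => z.2 fun v hv => ?_⟩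
        rw [h0, Submodule.mem_bot] at hv
        subst hv
        simp [En]
      rw [h0']
      push_cast
      positivity
    obtain ⟨W0, hirr, hle⟩ := DECOMP.exists_irr ρ M hM h0
    set M' : Submodule ℂ V := M ⊓ W0ᗮ with hM'
    have hinvO : ∀ g : G, ∀ v ∈ W0ᗮ, ρ g v ∈ W0ᗮ := by
      intro g v hv
      rw [Submodule.mem_orthogonal] at hv ⊢
      intro u hu
      rw [DECOMP.inner_rho]
      exact hv _ (hirr.2.1 _ _ hu)
    have hinv' : Inv ρ M' := by
      intro g v hv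
      exact ⟨hM g v hv.1, hinvO g v hv.2⟩
    have hfr : Module.finrank ℂ W0 + Module.finrank ℂ M' = Module.finrank ℂ M := by
      have := Submodule.finrank_add_inf_finrank_orthogonal hle
      rw [inf_comm] at this
      exact this
    have hW0 : 0 < Module.finrank ℂ W0 := Irr.finrank_pos hirr
    have h1 := ih M' hinv' (by omega) (fun W hW hWM => htr W hW (hWM.trans inf_le_left))
    have h2 := ampk_sub ρ W0 hirr hk x L θ B hθ0 hθ1 (htr W0 hirr hle) q
    set c : ℝ := (1 - θ) / (16 * ((q : ℝ) + 1) ^ 2) with hc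
    have h3 : Nat.card {z : Fin q → G // ¬ ∀ v ∈ M, c * ‖v‖ ^ 2 ≤ En ρ x v + En ρ z v} ≤
        Nat.card {z : Fin q → G // ¬ ∀ v ∈ W0, c * ‖v‖ ^ 2 ≤ En ρ x v + En ρ z v} +
        Nat.card {z : Fin q → G // ¬ ∀ v ∈ M', c * ‖v‖ ^ 2 ≤ En ρ x v + En ρ z v} := by
      have := card_union (ι := Bool) (fun z : Fin q → G => ¬ ∀ v ∈ M, c * ‖v‖ ^ 2 ≤
        En ρ x v + En ρ z v) (fun b z => if b then
          (¬ ∀ v ∈ W0, c * ‖v‖ ^ 2 ≤ En ρ x v + En ρ z v) else
          (¬ ∀ v ∈ M', c * ‖v‖ ^ 2 ≤ En ρ x v + En ρ z v)) (by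
            intro z hz
            by_contra hcon
            have ha : ∀ v ∈ W0, c * ‖v‖ ^ 2 ≤ En ρ x v + En ρ z v := by
              by_contra h
              exact hcon ⟨true, by rw [if_pos rfl]; exact h⟩
            have hb : ∀ v ∈ M', c * ‖v‖ ^ 2 ≤ En ρ x v + En ρ z v := by
              by_contra h
              exact hcon ⟨false, by rw [if_neg (by simp)]; exact h⟩
            apply hz
            intro v hv
            obtain ⟨a, ha', b, hb', hab⟩ := Submodule.exists_add_mem_mem_orthogonal (K := W0) v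
            have hbM : b ∈ M' := by
              refine ⟨?_, hb'⟩
              have : b = v - a := by rw [hab]; abel
              rw [this]
              exact M.sub_mem hv (hle ha')
            have e1 : ‖v‖ ^ 2 = ‖a‖ ^ 2 + ‖b‖ ^ 2 := by
              rw [hab]
              exact DECOMP.pyth ((Submodule.mem_orthogonal _ _).mp hb' a ha')
            have e2 : ∀ g : G, ‖ρ g v - v‖ ^ 2 = ‖ρ g a - a‖ ^ 2 + ‖ρ g b - b‖ ^ 2 := by
              intro g
              have : ρ g v - v = (ρ g a - a) + (ρ g b - b) := by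
                rw [hab, map_add]; abel
              rw [this]
              apply DECOMP.pyth
              exact (Submodule.mem_orthogonal _ _).mp (Submodule.sub_mem _ (hinvO _ _ hb') hb') _
                (Submodule.sub_mem _ (hirr.2.1 _ _ ha') ha')
            have e3 : En ρ x v = En ρ x a + En ρ x b := by
              unfold En
              rw [← Finset.sum_add_distrib]
              exact Finset.sum_congr rfl fun i _ => e2 _
            have e4 : En ρ z v = En ρ z a + En ρ z b := by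
              unfold En
              rw [← Finset.sum_add_distrib]
              exact Finset.sum_congr rfl fun i _ => e2 _
            have h4 := ha a ha'
            have h5 := hb b hbM
            rw [e1, e3, e4]
            linarith)
      rw [Fintype.sum_bool] at this
      simpa using this
    have h3' : (Nat.card {z : Fin q → G // ¬ ∀ v ∈ M, c * ‖v‖ ^ 2 ≤ En ρ x v + En ρ z v} : ℝ) ≤
        (Nat.card {z : Fin q → G // ¬ ∀ v ∈ W0, c * ‖v‖ ^ 2 ≤ En ρ x v + En ρ z v} : ℝ) +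
        (Nat.card {z : Fin q → G // ¬ ∀ v ∈ M', c * ‖v‖ ^ 2 ≤ En ρ x v + En ρ z v} : ℝ) := by
      exact_mod_cast h3
    have e : (Module.finrank ℂ M : ℝ) = Module.finrank ℂ W0 + Module.finrank ℂ M' := by
      exact_mod_cast hfr.symm
    rw [e]
    linarith

end Gen

/-! ### the levels -/

lemma lift_pow_eq {n k : ℕ} (x : Fin k → Alt n) (u : FreeGroup (Fin k)) (i : ℕ) :
    ((FreeGroup.lift x u : Alt n) : Equiv.Perm (Fin n)) ^ i =
      FreeGroup.lift (fun i => (x i : Equiv.Perm (Fin n))) (u ^ i) := by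
  have : (Subgroup.subtype (alternatingGroup (Fin n))).comp (FreeGroup.lift x) =
      FreeGroup.lift (fun i => (x i : Equiv.Perm (Fin n))) := by
    ext i
    simp
  rw [map_pow]
  congr 1
  exact DFunLike.congr_fun this u

lemma norm_pow_le {k : ℕ} (u : FreeGroup (Fin k)) (i : ℕ) : (u ^ i).norm ≤ i * u.norm := by
  induction i with
  | zero => simp
  | succ i ih =>
    rw [pow_succ, Nat.succ_mul]
    exact (FreeGroup.norm_mul_le _ _).trans (by omega)

/-- the small powers of the values of short words have few fixed points -/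
lemma few_pow {n k ℓ F I ℓ' : ℕ} {x : Fin k → Alt n}
    (hx : FewFixK n ℓ F (fun i => (x i : Equiv.Perm (Fin n)))) (hI : I * ℓ' ≤ ℓ)
    (u : FreeGroup (Fin k)) (hu : u ≠ 1) (hul : u.norm ≤ ℓ') (i : ℕ) (hi1 : 1 ≤ i) (hi : i ≤ I) :
    nfix (((FreeGroup.lift x u : Alt n) : Equiv.Perm (Fin n)) ^ i) ≤ F := by
  rw [lift_pow_eq]
  refine (hx (u ^ i) ?_ ?_).le
  · intro h
    exact hu ((pow_eq_one_iff_left (by omega)).1 h)
  · calc (u ^ i).norm ≤ i * u.norm := norm_pow_le u i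
      _ ≤ I * ℓ' := Nat.mul_le_mul hi hul
      _ ≤ ℓ := hI

/-- the trace in the irreducible subspaces of level `j` -/
theorem lvl_trace {n j k I ℓ F L : ℕ} (hk : 1 ≤ k) (hj0 : 1 ≤ j) (hj : 2 * j + 2 ≤ n)
    (hjF : j ≤ F) (hIF : n * j ^ (I + 1) ≤ F ^ (I + 1)) (hI : I * (2 * L) ≤ ℓ)
    {x : Fin k → Alt n} (hx : FewFixK n ℓ F (fun i => (x i : Equiv.Perm (Fin n))))
    (W : Submodule ℂ (V j n)) (hW : Inv (repA j n) W) (hL : W ≤ Lvl j n) :
    RP (repA j n) W hW x (2 * L) ≤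
      ((Real.sqrt (2 * k - 1) / k) ^ (2 * L) + (2 * Real.exp 4 * F / n) ^ j) *
        Module.finrank ℂ W := by
  refine RP_le (repA j n) W hW hk x (2 * L)
    ((2 * Real.exp 4 * F / n) ^ j) (by positivity) ?_
  intro u hu hul
  exact chr_small j n I F hj0 hj hjF hIF W hW hL _
    fun i hi1 hi => few_pow hx hI u hu hul i hi1 hi

/-- all levels `1 ≤ j ≤ m` -/
theorem all_levels (n m k I ℓ F L1 q : ℕ) (hk : 1 ≤ k) (hm : 2 * m + 2 ≤ n)
    (hmF : m ≤ F) (hIF : n * m ^ (I + 1) ≤ F ^ (I + 1)) (hI : I * (2 * (m * L1)) ≤ ℓ)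
    (θ B : ℝ) (hθ0 : 0 < θ) (hθ1 : θ < 1)
    (hB : (Real.sqrt (2 * k - 1) / k) ^ (2 * L1) + 2 * Real.exp 4 * F / n ≤ θ ^ (2 * L1) * B)
    (hB0 : 0 ≤ B) (hnB : n * B ^ (q + 1) ≤ 1 / 2)
    (x : Fin k → Alt n) (hx : FewFixK n ℓ F (fun i => (x i : Equiv.Perm (Fin n)))) :
    (Nat.card {z : Fin q → Alt n // ¬ Good1 n m ((1 - θ) / (16 * ((q : ℝ) + 1) ^ 2))
      (Fin.append x z)} : ℝ) ≤ 8 * (n * B ^ (q + 1)) * (Fintype.card (Alt n) : ℝ) ^ q := by
  have step : Nat.card {z : Fin q → Alt n // ¬ Good1 n m ((1 - θ) / (16 * ((q : ℝ) + 1) ^ 2))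
      (Fin.append x z)} ≤
      ∑ j ∈ Finset.Icc 1 m, Nat.card {z : Fin q → Alt n // ¬ ∀ v ∈ Lvl j n,
        (1 - θ) / (16 * ((q : ℝ) + 1) ^ 2) * ‖v‖ ^ 2 ≤
          En (repA j n) x v + En (repA j n) z v} := by
    apply card_union_fin
    intro z hz
    by_contra hcon
    push Not at hcon
    refine hz fun j h1 h2 v hv => ?_
    rw [En_append]
    exact hcon j (Finset.mem_Icc.mpr ⟨h1, h2⟩) v hv
  set s0 : ℝ := Real.sqrt (2 * k - 1) / k with hs0
  have hs00 : 0 ≤ s0 := by positivity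
  set b : ℝ := 2 * Real.exp 4 * F / n with hb
  have hb0 : 0 ≤ b := by positivity
  have hcard0 : (0 : ℝ) ≤ (Fintype.card (Alt n) : ℝ) ^ q := by positivity
  have hj : ∀ j ∈ Finset.Icc 1 m, (Nat.card {z : Fin q → Alt n // ¬ ∀ v ∈ Lvl j n,
        (1 - θ) / (16 * ((q : ℝ) + 1) ^ 2) * ‖v‖ ^ 2 ≤
          En (repA j n) x v + En (repA j n) z v} : ℝ) ≤
      4 * (n * B ^ (q + 1)) ^ j * (Fintype.card (Alt n) : ℝ) ^ q := by
    intro j hj
    rw [Finset.mem_Icc] at hj
    have hj2 : 2 * j + 2 ≤ n := by omega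
    have hIF' : n * j ^ (I + 1) ≤ F ^ (I + 1) :=
      (Nat.mul_le_mul_left n (Nat.pow_le_pow_left hj.2 _)).trans hIF
    have hI' : I * (2 * (j * L1)) ≤ ℓ :=
      le_trans (Nat.mul_le_mul_left _ (Nat.mul_le_mul_left _ (Nat.mul_le_mul_right _ hj.2))) hI
    have h1 := ubs (repA j n) hk x (j * L1) θ (B ^ j) hθ0 hθ1 (by positivity) q _ (Lvl j n)
      (Lvl_inv j n) le_rfl (fun W hW hWL => by
        refine (lvl_trace hk hj.1 hj2 (hj.2.trans hmF) hIF' hI' hx W hW.2.1 hWL).trans ?_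
        refine mul_le_mul_of_nonneg_right ?_ (by positivity)
        have e1 : s0 ^ (2 * (j * L1)) + b ^ j ≤ (s0 ^ (2 * L1) + b) ^ j := by
          rw [show 2 * (j * L1) = 2 * L1 * j by ring, pow_mul s0 (2 * L1) j]
          exact pow_add_pow_le (by positivity) hb0 (by omega)
        have e2 : (s0 ^ (2 * L1) + b) ^ j ≤ (θ ^ (2 * L1) * B) ^ j :=
          pow_le_pow_left₀ (by positivity) hB j
        calc _ ≤ (θ ^ (2 * L1) * B) ^ j := e1.trans e2
          _ = θ ^ (2 * (j * L1)) * B ^ j := by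
            rw [mul_pow, ← pow_mul, show 2 * (j * L1) = 2 * L1 * j by ring])
    refine h1.trans ?_
    have hfr : (Module.finrank ℂ (Lvl j n) : ℝ) ≤ (n : ℝ) ^ j := by
      exact_mod_cast finrank_le_pow (Lvl j n)
    have e3 : (n * B ^ (q + 1)) ^ j = (n : ℝ) ^ j * (B ^ j) ^ (q + 1) := by
      rw [mul_pow, ← pow_mul, ← pow_mul, mul_comm (q + 1) j]
    rw [e3]
    have : 0 ≤ (B ^ j) ^ (q + 1) := by positivity
    calc 4 * (Module.finrank ℂ (Lvl j n) : ℝ) * (B ^ j) ^ (q + 1) *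
        (Fintype.card (Alt n) : ℝ) ^ q
        ≤ 4 * (n : ℝ) ^ j * (B ^ j) ^ (q + 1) * (Fintype.card (Alt n) : ℝ) ^ q := by gcongr
      _ = _ := by ring
  set y : ℝ := n * B ^ (q + 1) with hy
  have hy0 : 0 ≤ y := by positivity
  have hgeo : ∑ j ∈ Finset.Icc 1 m, y ^ j ≤ 2 * y := by
    have h6 := sum_wt 1 y zero_le_one hy0 hnB m
    rw [sum_range_succ'] at h6
    simp only [wt, Nat.add_eq_zero_iff, one_ne_zero, and_false, if_false, if_true, one_mul] at h6
    have h7 : ∑ i ∈ Icc 1 m, y ^ i = ∑ i ∈ range m, y ^ (i + 1) := by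
      rw [range_eq_Ico, sum_Ico_add' (fun i => y ^ i) 0 m 1]
      rfl
    rw [h7]
    linarith
  calc (Nat.card {z : Fin q → Alt n // ¬ Good1 n m ((1 - θ) / (16 * ((q : ℝ) + 1) ^ 2))
      (Fin.append x z)} : ℝ)
      ≤ ∑ j ∈ Finset.Icc 1 m, (Nat.card {z : Fin q → Alt n // ¬ ∀ v ∈ Lvl j n,
        (1 - θ) / (16 * ((q : ℝ) + 1) ^ 2) * ‖v‖ ^ 2 ≤
          En (repA j n) x v + En (repA j n) z v} : ℝ) := by exact_mod_cast step
    _ ≤ ∑ j ∈ Finset.Icc 1 m, 4 * y ^ j * (Fintype.card (Alt n) : ℝ) ^ q :=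
        Finset.sum_le_sum hj
    _ = 4 * (∑ j ∈ Finset.Icc 1 m, y ^ j) * (Fintype.card (Alt n) : ℝ) ^ q := by
        rw [Finset.mul_sum, Finset.sum_mul]
    _ ≤ 4 * (2 * y) * (Fintype.card (Alt n) : ℝ) ^ q := by gcongr
    _ = _ := by ring

end

end Pool.Agent.L0h8.SK
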