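import Pool.Agent.H120R2.RC.CHAR
import Pool.Agent.H457R2.RC.CH3

/-!
A character bound for the representations of level `j` at permutations all of whose small powers
have few fixed points.
-/

set_option autoImplicit false
set_option linter.unusedSectionVars false

namespace Pool.Agent.L0h8.SK
open RC14 Finset

noncomputable section

variable {n : ℕ}

/-- the elements of `A` whose predecessor is not in `A` -/
def stt (g : Equiv.Perm (Fin n)) (A : Finset (Fin n)) : Finset (Fin n) :=
  A.filter fun a => g⁻¹ a ∉ A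

lemma invS (g : Equiv.Perm (Fin n)) (a : Fin n) : g⁻¹ (g a) = a := g.symm_apply_apply a

lemma Sinv (g : Equiv.Perm (Fin n)) (a : Fin n) : g (g⁻¹ a) = a := g.apply_symm_apply a

open Classical in
/-- the elements of `A` all of whose iterates are in `A` -/
def full (g : Equiv.Perm (Fin n)) (A : Finset (Fin n)) : Finset (Fin n) :=
  A.filter fun a => ∀ i : ℕ, (g ^ i) a ∈ A

lemma mem_stt {g : Equiv.Perm (Fin n)} {A : Finset (Fin n)} {a : Fin n} :
    a ∈ stt g A ↔ a ∈ A ∧ g⁻¹ a ∉ A := by simp [stt]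

lemma mem_full {g : Equiv.Perm (Fin n)} {A : Finset (Fin n)} {a : Fin n} :
    a ∈ full g A ↔ ∀ i : ℕ, (g ^ i) a ∈ A := by
  simp only [full, mem_filter]
  constructor
  · exact fun h => h.2
  · exact fun h => ⟨by simpa using h 0, h⟩

lemma pow_ord_pred (g : Equiv.Perm (Fin n)) (a : Fin n) :
    (g ^ (orderOf g - 1)) a = g⁻¹ a := by
  have h1 : g * g ^ (orderOf g - 1) = 1 := by
    rw [← pow_succ', Nat.sub_add_cancel (orderOf_pos g), pow_orderOf_eq_one]
  have h2 : g ^ (orderOf g - 1) = g⁻¹ := (inv_eq_of_mul_eq_one_right h1).symm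
  rw [h2]

lemma exists_exit {g : Equiv.Perm (Fin n)} {A : Finset (Fin n)} {a : Fin n} (h : a ∈ stt g A) :
    ∃ i : ℕ, (g ^ i) a ∉ A := ⟨orderOf g - 1, by rw [pow_ord_pred]; exact (mem_stt.1 h).2⟩

open Classical in
/-- the length of the run of `A` which starts at `a` -/
def len (g : Equiv.Perm (Fin n)) (A : Finset (Fin n)) (a : Fin n) : ℕ :=
  if h : ∃ i : ℕ, (g ^ i) a ∉ A then Nat.find h else 0

lemma len_mem {g : Equiv.Perm (Fin n)} {A : Finset (Fin n)} {a : Fin n}
    {i : ℕ} (hi : i < len g A a) : (g ^ i) a ∈ A := by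
  classical
  unfold len at hi
  split_ifs at hi with h'
  · have := Nat.find_min h' hi
    simpa using this
  · omega

lemma len_out {g : Equiv.Perm (Fin n)} {A : Finset (Fin n)} {a : Fin n} (h : a ∈ stt g A) :
    (g ^ len g A a) a ∉ A := by
  classical
  have h' := exists_exit h
  unfold len
  rw [dif_pos h']
  exact Nat.find_spec h'

lemma len_le {g : Equiv.Perm (Fin n)} {A : Finset (Fin n)} {a : Fin n} (h : a ∈ stt g A) :
    len g A a ≤ orderOf g := by
  by_contra hcon
  push Not at hcon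
  have h1 := len_mem (show orderOf g - 1 < len g A a by omega)
  rw [pow_ord_pred] at h1
  exact (mem_stt.1 h).2 h1

lemma len_gt {g : Equiv.Perm (Fin n)} {A : Finset (Fin n)} {a : Fin n} (h : a ∈ stt g A) {i : ℕ}
    (hi : ∀ t ≤ i, (g ^ t) a ∈ A) : i < len g A a := by
  by_contra hcon
  push Not at hcon
  exact len_out h (hi _ hcon)

/-- two runs are disjoint -/
lemma run_inj {g : Equiv.Perm (Fin n)} {A : Finset (Fin n)} {a b : Fin n} (ha : a ∈ stt g A)
    (hb : b ∈ stt g A) {s t : ℕ} (hs : s < len g A a) (ht : t < len g A b)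
    (h : (g ^ s) a = (g ^ t) b) : a = b ∧ s = t := by
  have key : ∀ (a b : Fin n), a ∈ stt g A → b ∈ stt g A → ∀ s t : ℕ, s ≤ t → t < len g A b →
      (g ^ s) a = (g ^ t) b → a = b ∧ s = t := by
    intro a b ha hb s t hst ht h
    obtain ⟨r, rfl⟩ := Nat.exists_eq_add_of_le hst
    rw [pow_add, Equiv.Perm.mul_apply] at h
    have h1 : a = (g ^ r) b := (g ^ s).injective h
    cases r with
    | zero => exact ⟨by simpa using h1, rfl⟩
    | succ r =>
      exfalso
      have h2 : g⁻¹ a = (g ^ r) b := by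
        rw [h1, pow_succ', Equiv.Perm.mul_apply, invS]
      apply (mem_stt.1 ha).2
      rw [h2]
      exact len_mem (by omega)
  rcases le_total s t with hst | hst
  · exact key a b ha hb s t hst ht h
  · obtain ⟨h1, h2⟩ := key b a hb ha t s hst hs h.symm
    exact ⟨h1.symm, h2.symm⟩

/-- the elements of `A` are in full cycles or in runs -/
lemma decomp_mem {g : Equiv.Perm (Fin n)} {A : Finset (Fin n)} {a : Fin n} :
    a ∈ A ↔ a ∈ full g A ∨ ∃ b ∈ stt g A, ∃ t < len g A b, (g ^ t) b = a := by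
  constructor
  · intro ha
    by_cases hf : a ∈ full g A
    · exact Or.inl hf
    · right
      -- some backward iterate is not in `A`
      have hex : ∃ i : ℕ, ((g⁻¹) ^ i) a ∉ A := by
        by_contra hcon
        push Not at hcon
        apply hf
        rw [mem_full]
        intro i
        have h1 : g ^ i = (g⁻¹) ^ (i * (orderOf g - 1)) := by
          have h2 : g = (g⁻¹) ^ (orderOf g - 1) := by
            have h3 : g * g ^ (orderOf g - 1) = 1 := by
              rw [← pow_succ', Nat.sub_add_cancel (orderOf_pos g), pow_orderOf_eq_one]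
            rw [inv_pow]
            exact eq_inv_of_mul_eq_one_left h3
          conv_lhs => rw [h2]
          rw [← pow_mul, mul_comm]
        rw [h1]
        exact hcon _
      classical
      set i := Nat.find hex with hi
      have h1 : ((g⁻¹) ^ i) a ∉ A := Nat.find_spec hex
      have h2 : ∀ t < i, ((g⁻¹) ^ t) a ∈ A := fun t ht => by
        have := Nat.find_min hex ht
        simpa using this
      obtain ⟨r, hr⟩ : ∃ r, i = r + 1 := by
        cases hi' : i with
        | zero => rw [hi'] at h1; simp at h1; exact absurd ha h1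
        | succ r => exact ⟨r, rfl⟩
      set b := ((g⁻¹) ^ r) a with hb
      have hbA : b ∈ A := h2 r (by omega)
      have hbs : b ∈ stt g A := by
        rw [mem_stt]
        refine ⟨hbA, ?_⟩
        rw [hb, ← Equiv.Perm.mul_apply, ← pow_succ', ← hr]
        exact h1
      have hback : ∀ t ≤ r, (g ^ t) b = ((g⁻¹) ^ (r - t)) a := by
        intro t ht
        have h3 : (g⁻¹) ^ r = (g⁻¹) ^ t * (g⁻¹) ^ (r - t) := by
          rw [← pow_add]; congr 1; omega
        rw [hb, h3, Equiv.Perm.mul_apply, ← Equiv.Perm.mul_apply (g ^ t), inv_pow,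
          mul_inv_cancel, Equiv.Perm.one_apply]
      refine ⟨b, hbs, r, ?_, ?_⟩
      · apply len_gt hbs
        intro t ht
        rw [hback t ht]
        exact h2 _ (by omega)
      · rw [hback r le_rfl]; simp
  · rintro (h | ⟨b, hb, t, ht, rfl⟩)
    · simpa using (mem_full.1 h) 0
    · exact len_mem ht

lemma full_inv {g : Equiv.Perm (Fin n)} {A : Finset (Fin n)} {a : Fin n} (h : a ∈ full g A) :
    g a ∈ full g A := by
  rw [mem_full] at h ⊢
  intro i
  have := h (i + 1)
  rw [pow_succ, Equiv.Perm.mul_apply] at this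
  exact this

lemma card_decomp (g : Equiv.Perm (Fin n)) (A : Finset (Fin n)) :
    #(full g A) + ∑ a ∈ stt g A, len g A a ≤ #A := by
  classical
  have h1 : ∑ a ∈ stt g A, len g A a =
      #((stt g A).sigma fun a => range (len g A a)) := by
    rw [card_sigma]
    simp
  have h2 : #((stt g A).sigma fun a => range (len g A a)) =
      #(((stt g A).sigma fun a => range (len g A a)).image fun p => (g ^ p.2) p.1) := by
    rw [card_image_of_injOn]
    rintro ⟨a, s⟩ ha ⟨b, t⟩ hb hab
    simp only [coe_sigma, Set.mem_sigma_iff, mem_coe, mem_range] at ha hb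
    obtain ⟨h3, h4⟩ := run_inj ha.1 hb.1 ha.2 hb.2 hab
    subst h3
    subst h4
    rfl
  rw [h1, h2, ← card_union_of_disjoint]
  · refine card_le_card fun a ha => ?_
    rw [mem_union, mem_image] at ha
    rw [decomp_mem (g := g)]
    rcases ha with h | ⟨⟨b, t⟩, hb, rfl⟩
    · exact Or.inl h
    · rw [mem_sigma, mem_range] at hb
      exact Or.inr ⟨b, hb.1, t, hb.2, rfl⟩
  · rw [disjoint_left]
    intro a ha ha'
    rw [mem_image] at ha'
    obtain ⟨⟨b, t⟩, hb, rfl⟩ := ha'
    rw [mem_sigma, mem_range] at hb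
    simp only at ha
    have h3 := (mem_full.1 ha) (len g A b - t)
    rw [← Equiv.Perm.mul_apply, ← pow_add, Nat.sub_add_cancel hb.2.le] at h3
    exact len_out hb.1 h3

/-- the code of the runs -/
def hh (g : Equiv.Perm (Fin n)) (A : Finset (Fin n)) (a : Fin n) : ℕ :=
  if a ∈ stt g A then len g A a else 0

lemma len_pos {g : Equiv.Perm (Fin n)} {A : Finset (Fin n)} {a : Fin n} (h : a ∈ stt g A) :
    0 < len g A a := by
  apply len_gt h
  intro t ht
  obtain rfl : t = 0 := by omega
  simpa using (mem_stt.1 h).1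

lemma hh_ne {g : Equiv.Perm (Fin n)} {A : Finset (Fin n)} {a : Fin n} :
    hh g A a ≠ 0 ↔ a ∈ stt g A := by
  unfold hh
  split_ifs with h
  · have := len_pos h
    constructor
    · intro _; exact h
    · intro _; omega
  · simp [h]

lemma code_inj {g : Equiv.Perm (Fin n)} {A B : Finset (Fin n)} (h1 : full g A = full g B)
    (h2 : hh g A = hh g B) : A = B := by
  have hs : ∀ a, a ∈ stt g A ↔ a ∈ stt g B := by
    intro a
    rw [← hh_ne, ← hh_ne, h2]
  have hl : ∀ a ∈ stt g A, len g A a = len g B a := by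
    intro a ha
    have := congrFun h2 a
    unfold hh at this
    rwa [if_pos ha, if_pos ((hs a).1 ha)] at this
  ext a
  rw [decomp_mem (g := g) (A := A), decomp_mem (g := g) (A := B), h1]
  constructor
  · rintro (h | ⟨b, hb, t, ht, hab⟩)
    · exact Or.inl h
    · exact Or.inr ⟨b, (hs b).1 hb, t, by rw [← hl b hb]; exact ht, hab⟩
  · rintro (h | ⟨b, hb, t, ht, hab⟩)
    · exact Or.inl h
    · exact Or.inr ⟨b, (hs b).2 hb, t, by rw [hl b ((hs b).2 hb)]; exact ht, hab⟩

/-- the weights of the code -/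
def wt (β x : ℝ) (t : ℕ) : ℝ := if t = 0 then 1 else β * x ^ t

lemma sum_wt (β x : ℝ) (hβ : 0 ≤ β) (hx : 0 ≤ x) (hx1 : x ≤ 1 / 2) (M : ℕ) :
    ∑ t ∈ range (M + 1), wt β x t ≤ 1 + 2 * β * x := by
  rw [sum_range_succ']
  simp only [wt, Nat.add_eq_zero_iff, one_ne_zero, and_false, if_false, if_true]
  have h1 : ∑ t ∈ range M, β * x ^ (t + 1) = β * x * ∑ t ∈ range M, x ^ t := by
    rw [mul_sum]
    exact sum_congr rfl fun t _ => by ring
  have h2 : ∑ t ∈ range M, x ^ t ≤ 2 := by
    have h3 : ∑ t ∈ range M, x ^ t ≤ ∑ t ∈ range M, (1 / 2 : ℝ) ^ t :=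
      sum_le_sum fun t _ => pow_le_pow_left₀ hx hx1 t
    refine h3.trans ?_
    have := geom_sum_eq (show (1 / 2 : ℝ) ≠ 1 by norm_num) M
    rw [this]
    have h4 : (0 : ℝ) < (1 / 2) ^ M := by positivity
    rw [show ((1 / 2 : ℝ) ^ M - 1) / (1 / 2 - 1) = 2 * (1 - (1 / 2) ^ M) by ring]
    linarith
  rw [h1]
  nlinarith [mul_nonneg hβ hx]

/-- the invariant sets -/
def invs (g : Equiv.Perm (Fin n)) : Finset (Finset (Fin n)) :=
  univ.filter fun U => ∀ a ∈ U, g a ∈ U

lemma gen_le (g : Equiv.Perm (Fin n)) (β x : ℝ) (hβ : 0 ≤ β) (hx : 0 ≤ x)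
    (hx1 : x ≤ 1 / 2) :
    ∑ A : Finset (Fin n), x ^ #A * β ^ #(stt g A) ≤
      (∑ U ∈ invs g, x ^ #U) * (1 + 2 * β * x) ^ n := by
  classical
  set M := orderOf g with hM
  have hwt0 : ∀ t, 0 ≤ wt β x t := by
    intro t; unfold wt; split_ifs <;> positivity
  set S := Fintype.piFinset (fun _ : Fin n => range (M + 1)) with hS
  have hprod : ∑ h ∈ S, ∏ a, wt β x (h a) = ∏ _a : Fin n, ∑ t ∈ range (M + 1), wt β x t := by
    rw [Finset.prod_univ_sum]
  have h1 : ∀ A : Finset (Fin n), x ^ #A * β ^ #(stt g A) ≤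
      x ^ #(full g A) * ∏ a, wt β x (hh g A a) := by
    intro A
    have h2 : ∏ a, wt β x (hh g A a) = β ^ #(stt g A) * x ^ (∑ a ∈ stt g A, len g A a) := by
      have h3 : ∀ a, wt β x (hh g A a) = if a ∈ stt g A then β * x ^ len g A a else 1 := by
        intro a
        unfold wt hh
        by_cases ha : a ∈ stt g A
        · have := len_pos ha
          rw [if_pos ha, if_pos ha, if_neg (by omega)]
        · rw [if_neg ha, if_neg ha, if_pos rfl]
      simp_rw [h3]
      rw [prod_ite_mem, univ_inter, prod_mul_distrib, prod_const, prod_pow_eq_pow_sum]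
    rw [h2]
    have h4 : x ^ #A ≤ x ^ (#(full g A) + ∑ a ∈ stt g A, len g A a) :=
      pow_le_pow_of_le_one hx (by linarith) (card_decomp g A)
    calc x ^ #A * β ^ #(stt g A)
        ≤ x ^ (#(full g A) + ∑ a ∈ stt g A, len g A a) * β ^ #(stt g A) := by gcongr
      _ = _ := by rw [pow_add]; ring
  refine (sum_le_sum fun A _ => h1 A).trans ?_
  have h5 : ∑ A : Finset (Fin n), x ^ #(full g A) * ∏ a, wt β x (hh g A a) =
      ∑ p ∈ (univ : Finset (Finset (Fin n))).image (fun A => (full g A, hh g A)),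
        x ^ #p.1 * ∏ a, wt β x (p.2 a) := by
    rw [sum_image]
    intro A _ B _ hAB
    exact code_inj (congrArg Prod.fst hAB) (congrArg Prod.snd hAB)
  rw [h5]
  have h6 : (univ : Finset (Finset (Fin n))).image (fun A => (full g A, hh g A)) ⊆
      invs g ×ˢ S := by
    intro p hp
    rw [mem_image] at hp
    obtain ⟨A, _, rfl⟩ := hp
    rw [mem_product]
    refine ⟨?_, ?_⟩
    · simp only [invs, mem_filter, mem_univ, true_and]
      exact fun a ha => full_inv ha
    · rw [hS, Fintype.mem_piFinset]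
      intro a
      rw [mem_range]
      change hh g A a < M + 1
      unfold hh
      split_ifs with h
      · have := len_le h
        omega
      · omega
  refine (sum_le_sum_of_subset_of_nonneg h6 fun p _ _ =>
    mul_nonneg (by positivity) (prod_nonneg fun a _ => hwt0 _)).trans ?_
  rw [sum_product]
  simp only
  rw [← sum_mul_sum, hprod]
  have h7 : ∏ _a : Fin n, ∑ t ∈ range (M + 1), wt β x t ≤ (1 + 2 * β * x) ^ n := by
    rw [prod_const, card_univ, Fintype.card_fin]
    exact pow_le_pow_left₀ (sum_nonneg fun t _ => hwt0 t) (sum_wt β x hβ hx hx1 M) n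
  exact mul_le_mul_of_nonneg_left h7 (sum_nonneg fun U _ => by positivity)

open Classical in
/-- the least elements of the cycles in `U` -/
def reps (g : Equiv.Perm (Fin n)) (U : Finset (Fin n)) : Finset (Fin n) :=
  U.filter fun a => ∀ b, g.SameCycle a b → a ≤ b

lemma mem_reps {g : Equiv.Perm (Fin n)} {U : Finset (Fin n)} {a : Fin n} :
    a ∈ reps g U ↔ a ∈ U ∧ ∀ b, g.SameCycle a b → a ≤ b := by
  simp only [reps, mem_filter]

lemma exists_rep (g : Equiv.Perm (Fin n)) (a : Fin n) :
    ∃ m, g.SameCycle a m ∧ ∀ b, g.SameCycle m b → m ≤ b := by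
  classical
  set S : Finset (Fin n) := univ.filter fun b => g.SameCycle a b with hS
  have hne : S.Nonempty := ⟨a, by simp [hS, Equiv.Perm.SameCycle.refl]⟩
  refine ⟨S.min' hne, ?_, fun b hb => ?_⟩
  · have := S.min'_mem hne
    simpa [hS] using this
  · apply S.min'_le
    have := S.min'_mem hne
    simp only [hS, mem_filter, mem_univ, true_and] at this ⊢
    exact this.trans hb

lemma inv_same {g : Equiv.Perm (Fin n)} {U : Finset (Fin n)} (hU : U ∈ invs g) {a b : Fin n}
    (ha : a ∈ U) (h : g.SameCycle a b) : b ∈ U := by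
  simp only [invs, mem_filter, mem_univ, true_and] at hU
  obtain ⟨i, -, rfl⟩ := h.exists_pow_eq'
  induction i with
  | zero => simpa using ha
  | succ i ih =>
    rw [pow_succ', Equiv.Perm.mul_apply]
    exact hU _ (ih ⟨i, by simp⟩)

lemma reps_inj {g : Equiv.Perm (Fin n)} {U U' : Finset (Fin n)} (hU : U ∈ invs g)
    (hU' : U' ∈ invs g) (h : reps g U = reps g U') : U = U' := by
  have key : ∀ U U' : Finset (Fin n), U ∈ invs g → U' ∈ invs g → reps g U = reps g U' →
      ∀ a ∈ U, a ∈ U' := by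
    intro U U' hU hU' h a ha
    obtain ⟨m, h1, h2⟩ := exists_rep g a
    have h3 : m ∈ reps g U := mem_reps.2 ⟨inv_same hU ha h1, h2⟩
    rw [h] at h3
    exact inv_same hU' (mem_reps.1 h3).1 h1.symm
  ext a
  exact ⟨key U U' hU hU' h a, key U' U hU' hU h.symm a⟩

lemma iter_eq_pow (g : Equiv.Perm (Fin n)) (t : ℕ) (a : Fin n) : g^[t] a = (g ^ t) a := by
  rw [Equiv.Perm.iterate_eq_pow]

lemma card_reps (g : Equiv.Perm (Fin n)) (U : Finset (Fin n)) (hU : U ∈ invs g) :
    ∑ a ∈ reps g U, Function.minimalPeriod g a ≤ #U := by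
  classical
  have h1 : ∑ a ∈ reps g U, Function.minimalPeriod g a =
      #((reps g U).sigma fun a => range (Function.minimalPeriod g a)) := by
    rw [card_sigma]; simp
  rw [h1]
  refine card_le_card_of_injOn (fun p => (g ^ p.2) p.1) ?_ ?_
  · rintro ⟨a, t⟩ ha
    simp only [coe_sigma, Set.mem_sigma_iff, mem_coe, mem_range] at ha
    simp only [mem_coe]
    exact inv_same hU (mem_reps.1 ha.1).1 ⟨t, by simp⟩
  · rintro ⟨a, s⟩ ha ⟨b, t⟩ hb hab
    simp only [coe_sigma, Set.mem_sigma_iff, mem_coe, mem_range] at ha hb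
    simp only at hab
    have h2 : g.SameCycle a b := by
      have h3 : g.SameCycle a ((g ^ s) a) := ⟨s, by simp⟩
      have h4 : g.SameCycle b ((g ^ t) b) := ⟨t, by simp⟩
      rw [hab] at h3
      exact h3.trans h4.symm
    have h5 : a = b := le_antisymm ((mem_reps.1 ha.1).2 b h2) ((mem_reps.1 hb.1).2 a h2.symm)
    subst h5
    have h6 : s = t := by
      refine Function.iterate_injOn_Iio_minimalPeriod (f := g) (x := a) (by simpa using ha.2)
        (by simpa using hb.2) ?_
      change g^[s] a = g^[t] a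
      rw [iter_eq_pow, iter_eq_pow]
      exact hab
    subst h6
    rfl

lemma invs_le (g : Equiv.Perm (Fin n)) (x : ℝ) (hx : 0 ≤ x) (hx1 : x ≤ 1) :
    ∑ U ∈ invs g, x ^ #U ≤ ∏ a : Fin n, (1 + x ^ Function.minimalPeriod g a) := by
  classical
  rw [Finset.prod_one_add]
  have h1 : ∀ U ∈ invs g, x ^ #U ≤ ∏ a ∈ reps g U, x ^ Function.minimalPeriod g a := by
    intro U hU
    rw [prod_pow_eq_pow_sum]
    exact pow_le_pow_of_le_one hx hx1 (card_reps g U hU)
  refine (sum_le_sum h1).trans ?_
  have h2 : ∑ U ∈ invs g, ∏ a ∈ reps g U, x ^ Function.minimalPeriod g a =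
      ∑ T ∈ (invs g).image (reps g), ∏ a ∈ T, x ^ Function.minimalPeriod g a := by
    rw [sum_image]
    intro U hU U' hU' h
    exact reps_inj hU hU' h
  rw [h2]
  exact sum_le_sum_of_subset_of_nonneg (fun T _ => by simp) fun T _ _ =>
    prod_nonneg fun a _ => by positivity

lemma period_pos (g : Equiv.Perm (Fin n)) (a : Fin n) : 0 < Function.minimalPeriod g a := by
  apply Function.minimalPeriod_pos_of_mem_periodicPts
  refine ⟨orderOf g, orderOf_pos g, ?_⟩
  change g^[orderOf g] a = a
  rw [iter_eq_pow, pow_orderOf_eq_one]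
  rfl

lemma sum_period (g : Equiv.Perm (Fin n)) (x : ℝ) (hx : 0 ≤ x) (hx1 : x ≤ 1 / 2) (I F : ℕ)
    (hF : ∀ i, 1 ≤ i → i ≤ I → nfix (g ^ i) ≤ F) :
    ∑ a : Fin n, x ^ Function.minimalPeriod g a ≤ 2 * F * x + n * x ^ (I + 1) := by
  classical
  have h1 : ∀ a : Fin n, x ^ Function.minimalPeriod g a ≤
      ∑ i ∈ Icc 1 I, x ^ i * (if (g ^ i) a = a then 1 else 0) + x ^ (I + 1) := by
    intro a
    have hp := period_pos g a
    have h0 : 0 ≤ ∑ i ∈ Icc 1 I, x ^ i * (if (g ^ i) a = a then (1 : ℝ) else 0) :=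
      sum_nonneg fun i _ => by split_ifs <;> positivity
    by_cases hI : Function.minimalPeriod g a ≤ I
    · have h2 := single_le_sum
        (f := fun i => x ^ i * (if (g ^ i) a = a then (1 : ℝ) else 0))
        (fun i _ => by split_ifs <;> positivity) (mem_Icc.2 ⟨hp, hI⟩)
      have h3 : (g ^ Function.minimalPeriod g a) a = a := by
        rw [← iter_eq_pow]
        exact Function.iterate_minimalPeriod
      rw [if_pos h3, mul_one] at h2
      have h4 : 0 ≤ x ^ (I + 1) := by positivity
      linarith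
    · have h4 : x ^ Function.minimalPeriod g a ≤ x ^ (I + 1) :=
        pow_le_pow_of_le_one hx (by linarith) (by omega)
      linarith
  refine (sum_le_sum fun a _ => h1 a).trans ?_
  rw [sum_add_distrib, sum_comm, sum_const, card_univ, Fintype.card_fin, nsmul_eq_mul]
  have h2 : ∑ i ∈ Icc 1 I, ∑ a : Fin n, x ^ i * (if (g ^ i) a = a then (1 : ℝ) else 0) ≤
      ∑ i ∈ Icc 1 I, x ^ i * F := by
    refine sum_le_sum fun i hi => ?_
    rw [mem_Icc] at hi
    rw [← mul_sum]
    have h3 : ∑ a : Fin n, (if (g ^ i) a = a then (1 : ℝ) else 0) = nfix (g ^ i) := by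
      rw [← sum_filter, sum_const, nsmul_eq_mul, mul_one]
      unfold nfix
      congr 2
    rw [h3]
    have h4 : ((nfix (g ^ i) : ℕ) : ℝ) ≤ F := by exact_mod_cast hF i hi.1 hi.2
    gcongr
  have h5 : ∑ i ∈ Icc 1 I, x ^ i ≤ 2 * x := by
    have h6 := sum_wt 1 x zero_le_one hx hx1 I
    rw [sum_range_succ'] at h6
    simp only [wt, Nat.add_eq_zero_iff, one_ne_zero, and_false, if_false, if_true, one_mul] at h6
    have h7 : ∑ i ∈ Icc 1 I, x ^ i = ∑ i ∈ range I, x ^ (i + 1) := by
      rw [range_eq_Ico, sum_Ico_add' (fun i => x ^ i) 0 I 1]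
      rfl
    rw [h7]
    linarith
  rw [← sum_mul] at h2
  have hF0 : (0 : ℝ) ≤ F := by positivity
  nlinarith

/-- the generating function -/
lemma gen_exp (g : Equiv.Perm (Fin n)) (β x : ℝ) (hβ : 0 ≤ β) (hx : 0 ≤ x)
    (hx1 : x ≤ 1 / 2) (I F : ℕ) (hF : ∀ i, 1 ≤ i → i ≤ I → nfix (g ^ i) ≤ F) :
    ∑ A : Finset (Fin n), x ^ #A * β ^ #(stt g A) ≤
      Real.exp (2 * F * x + n * x ^ (I + 1) + n * (2 * β * x)) := by
  refine (gen_le g β x hβ hx hx1).trans ?_
  have h1 := invs_le g x hx (by linarith)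
  have h2 : ∏ a : Fin n, (1 + x ^ Function.minimalPeriod g a) ≤
      Real.exp (2 * F * x + n * x ^ (I + 1)) := by
    calc ∏ a : Fin n, (1 + x ^ Function.minimalPeriod g a)
        ≤ ∏ a : Fin n, Real.exp (x ^ Function.minimalPeriod g a) := by
          refine prod_le_prod (fun a _ => by positivity) fun a _ => ?_
          have := Real.add_one_le_exp (x ^ Function.minimalPeriod g a)
          linarith
      _ = Real.exp (∑ a : Fin n, x ^ Function.minimalPeriod g a) := (Real.exp_sum _ _).symm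
      _ ≤ _ := Real.exp_le_exp.2 (sum_period g x hx hx1 I F hF)
  have h3 : (1 + 2 * β * x) ^ n ≤ Real.exp (n * (2 * β * x)) := by
    rw [Real.exp_nat_mul]
    have := Real.add_one_le_exp (2 * β * x)
    exact pow_le_pow_left₀ (by positivity) (by linarith) n
  rw [Real.exp_add]
  exact mul_le_mul (h1.trans h2) h3 (by positivity) (Real.exp_pos _).le

/-! ### tuples -/

variable {j : ℕ}

lemma card_out (g : Equiv.Perm (Fin n)) (a : Tup j n) :
    #{l : Fin j | a l ∉ Set.range (mv g a)} = #(stt g (univ.map a)) := by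
  classical
  have h1 : stt g (univ.map a) =
      ((univ : Finset (Fin j)).filter (fun l => a l ∉ Set.range (mv g a))).map a := by
    ext y
    rw [mem_stt]
    simp only [mem_map, mem_univ, true_and, mem_filter, Set.mem_range, not_exists]
    constructor
    · rintro ⟨⟨l, rfl⟩, h⟩
      refine ⟨l, fun l' hl' => h l' ?_, rfl⟩
      rw [mv_apply] at hl'
      rw [← hl', invS]
    · rintro ⟨l, h, rfl⟩
      refine ⟨⟨l, rfl⟩, fun l' hl' => h l' ?_⟩
      rw [mv_apply, hl', Sinv]
  rw [h1, card_map]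

lemma sum_tup_le (f : Finset (Fin n) → ℝ) (hf : ∀ A, 0 ≤ f A) :
    ∑ a : Tup j n, f (univ.map a) ≤
      (j.factorial : ℝ) * ∑ A ∈ powersetCard j (univ : Finset (Fin n)), f A := by
  classical
  have h1 : ∀ a ∈ (univ : Finset (Tup j n)), univ.map a ∈ powersetCard j (univ : Finset (Fin n)) := by
    intro a _
    rw [mem_powersetCard]
    exact ⟨subset_univ _, by simp⟩
  rw [← sum_fiberwise_of_maps_to h1, mul_sum]
  refine sum_le_sum fun A hA => ?_
  have h2 : ∑ a ∈ (univ : Finset (Tup j n)).filter (fun a => univ.map a = A), f (univ.map a) =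
      (#((univ : Finset (Tup j n)).filter (fun a => univ.map a = A)) : ℝ) * f A := by
    rw [← nsmul_eq_mul, ← sum_const]
    refine sum_congr rfl fun a ha => ?_
    rw [(mem_filter.1 ha).2]
  rw [h2]
  refine mul_le_mul_of_nonneg_right ?_ (hf A)
  have h3 : #((univ : Finset (Tup j n)).filter (fun a => univ.map a = A)) ≤ j.factorial := by
    rw [mem_powersetCard] at hA
    have h4 : Fintype.card (Fin j ↪ {y // y ∈ A}) = j.factorial := by
      rw [Fintype.card_embedding_eq, Fintype.card_coe, Fintype.card_fin, hA.2,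
        Nat.descFactorial_self]
    rw [← h4, ← Fintype.card_coe]
    have hm : ∀ (a : {a // a ∈ (univ : Finset (Tup j n)).filter (fun a => univ.map a = A)})
        (l : Fin j), a.1 l ∈ A := by
      rintro ⟨a, ha⟩ l
      have h5 := (mem_filter.1 ha).2
      simp only
      rw [← h5]
      exact mem_map_of_mem _ (mem_univ l)
    refine Fintype.card_le_of_injective
      (fun a => (⟨fun l => ⟨a.1 l, hm a l⟩, fun l l' hll => a.1.injective
        (congrArg Subtype.val hll)⟩ : Fin j ↪ {y // y ∈ A})) ?_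
    intro a b hab
    apply Subtype.ext
    ext l
    have := DFunLike.congr_fun hab l
    exact congrArg (fun z => ((z : {y // y ∈ A}) : Fin n).val) this
  exact_mod_cast h3

/-- **the counting lemma** -/
theorem count_small (j n I F : ℕ) (hj0 : 1 ≤ j) (hj : 2 * j + 2 ≤ n) (hjF : j ≤ F)
    (hIF : n * j ^ (I + 1) ≤ F ^ (I + 1)) (g : Equiv.Perm (Fin n))
    (hF : ∀ i, 1 ≤ i → i ≤ I → nfix (g ^ i) ≤ F) :
    ∑ a : Tup j n, (1 / ((n - j).choose (#{l : Fin j | a l ∉ Set.range (mv g a)})) : ℝ) ≤
      Fintype.card (Tup j n) * (2 * Real.exp 4 * F / n) ^ j := by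
  classical
  have hn0 : (0 : ℝ) < n := by
    have : 0 < n := by omega
    exact_mod_cast this
  have hF0 : (0 : ℝ) < F := by
    have : 0 < F := by omega
    exact_mod_cast this
  have hjr : (1 : ℝ) ≤ j := by exact_mod_cast hj0
  have hj0' : (0 : ℝ) < j := by linarith
  have hjFr : (j : ℝ) ≤ F := by exact_mod_cast hjF
  set x : ℝ := j / (2 * F) with hx
  have hx0 : 0 < x := by positivity
  have hx1 : x ≤ 1 / 2 := by
    rw [hx, div_le_iff₀ (by positivity)]
    linarith
  set β : ℝ := (j : ℝ) / ((n - j : ℕ) : ℝ) with hβ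
  have hnj : (n : ℝ) / 2 ≤ ((n - j : ℕ) : ℝ) := by
    rw [Nat.cast_sub (by omega)]
    have : 2 * (j : ℝ) + 2 ≤ n := by exact_mod_cast hj
    linarith
  have hN : (0 : ℝ) < ((n - j : ℕ) : ℝ) := by linarith
  have hβ0 : 0 ≤ β := by positivity
  have hβn : β * n ≤ 2 * j := by
    rw [hβ, div_mul_eq_mul_div, div_le_iff₀ hN]
    nlinarith
  -- each tuple
  have h1 : ∀ a : Tup j n,
      (1 / ((n - j).choose (#{l : Fin j | a l ∉ Set.range (mv g a)})) : ℝ) ≤
        β ^ #(stt g (univ.map a)) := by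
    intro a
    rw [card_out]
    set i := #(stt g (univ.map a)) with hi
    have hij : i ≤ j := by
      calc i ≤ #(univ.map a) := card_le_card (filter_subset _ _)
        _ = j := by simp
    have hc := RC14.CH3.pow_choose i (n - j) j hij (by omega)
    have hpos : (0 : ℝ) < (n - j).choose i := by
      exact_mod_cast Nat.choose_pos (by omega)
    rw [hβ, div_pow, div_le_div_iff₀ hpos (by positivity), one_mul]
    exact_mod_cast hc
  refine (sum_le_sum fun a _ => h1 a).trans ?_
  refine (sum_tup_le (fun A => β ^ #(stt g A)) fun A => by positivity).trans ?_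
  -- the generating function
  have h2 : x ^ j * ∑ A ∈ powersetCard j (univ : Finset (Fin n)), β ^ #(stt g A) ≤
      Real.exp (4 * j) := by
    calc x ^ j * ∑ A ∈ powersetCard j (univ : Finset (Fin n)), β ^ #(stt g A)
        = ∑ A ∈ powersetCard j (univ : Finset (Fin n)), x ^ #A * β ^ #(stt g A) := by
          rw [mul_sum]
          refine sum_congr rfl fun A hA => ?_
          rw [(mem_powersetCard.1 hA).2]
      _ ≤ ∑ A : Finset (Fin n), x ^ #A * β ^ #(stt g A) :=
          sum_le_sum_of_subset_of_nonneg (subset_univ _) fun A _ _ => by positivity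
      _ ≤ Real.exp (2 * F * x + n * x ^ (I + 1) + n * (2 * β * x)) :=
          gen_exp g β x hβ0 hx0.le hx1 I F hF
      _ ≤ Real.exp (4 * j) := by
          apply Real.exp_le_exp.2
          have e1 : 2 * F * x = j := by rw [hx]; field_simp
          have e2 : n * x ^ (I + 1) ≤ 1 := by
            have e3 : (n : ℝ) * (j : ℝ) ^ (I + 1) ≤ (F : ℝ) ^ (I + 1) := by exact_mod_cast hIF
            rw [hx, div_pow, mul_div_assoc', div_le_one (by positivity)]
            calc (n : ℝ) * (j : ℝ) ^ (I + 1) ≤ (F : ℝ) ^ (I + 1) := e3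
              _ ≤ (2 * (F : ℝ)) ^ (I + 1) := by gcongr; linarith
          have e4 : n * (2 * β * x) ≤ 2 * j := by
            have e5 : x ≤ 1 / 2 := hx1
            have e6 : 0 ≤ β * n := by positivity
            nlinarith
          linarith
  -- the number of tuples
  have h3 : (Fintype.card (Tup j n) : ℝ) = (j.factorial : ℝ) * (n.choose j : ℝ) := by
    have : Fintype.card (Tup j n) = j.factorial * n.choose j := by
      rw [Fintype.card_embedding_eq, Fintype.card_fin, Fintype.card_fin,
        Nat.descFactorial_eq_factorial_mul_choose]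
    rw [this]; push_cast; rfl
  have h4 : (n : ℝ) ^ j ≤ (j : ℝ) ^ j * (n.choose j : ℝ) := by
    have := RC14.CH3.pow_choose j n j le_rfl (by omega)
    exact_mod_cast this
  rw [h3, mul_assoc]
  refine mul_le_mul_of_nonneg_left ?_ (by positivity)
  have h5 : (n.choose j : ℝ) * (2 * Real.exp 4 * F / n) ^ j * x ^ j ≥ Real.exp (4 * j) := by
    have e1 : (2 * Real.exp 4 * F / n) ^ j * x ^ j = Real.exp (4 * j) * ((j : ℝ) ^ j / (n : ℝ) ^ j) := by
      rw [← mul_pow, hx, show (4 : ℝ) * j = j * 4 by ring, Real.exp_nat_mul, ← div_pow, ← mul_pow]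
      congr 1
      field_simp
    rw [mul_assoc, e1]
    have e2 : 1 ≤ (n.choose j : ℝ) * ((j : ℝ) ^ j / (n : ℝ) ^ j) := by
      rw [mul_div_assoc', le_div_iff₀ (by positivity), one_mul]
      linarith
    have e3 := Real.exp_pos (4 * (j : ℝ))
    nlinarith
  have hxj : 0 < x ^ j := by positivity
  have h6 : x ^ j * ∑ A ∈ powersetCard j (univ : Finset (Fin n)), β ^ #(stt g A) ≤
      x ^ j * ((n.choose j : ℝ) * (2 * Real.exp 4 * F / n) ^ j) := by
    calc _ ≤ Real.exp (4 * j) := h2
      _ ≤ _ := by linarith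
  exact le_of_mul_le_mul_left h6 hxj

/-- **the character bound** -/
theorem chr_small (j n I F : ℕ) (hj0 : 1 ≤ j) (hj : 2 * j + 2 ≤ n) (hjF : j ≤ F)
    (hIF : n * j ^ (I + 1) ≤ F ^ (I + 1)) (W : Submodule ℂ (V j n)) (hW : Inv (repA j n) W)
    (hL : W ≤ Lvl j n) (g : Alt n)
    (hF : ∀ i, 1 ≤ i → i ≤ I → nfix ((g : Equiv.Perm (Fin n)) ^ i) ≤ F) :
    ‖rchr (repA j n) W hW g‖ ≤ (2 * Real.exp 4 * F / n) ^ j * Module.finrank ℂ W := by
  have a := CH1 j n hj W hW hL g
  have b := count_small j n I F hj0 hj hjF hIF g hF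
  have hX : (0 : ℝ) < Fintype.card (Tup j n) := by
    have : 0 < Fintype.card (Tup j n) := by
      rw [Fintype.card_embedding_eq]
      simp only [Fintype.card_fin]
      exact Nat.descFactorial_pos.mpr (by omega)
    exact_mod_cast this
  have hd : (0 : ℝ) ≤ Module.finrank ℂ W := by positivity
  have c := a.trans (mul_le_mul_of_nonneg_left b hd)
  have : ‖rchr (repA j n) W hW g‖ * Fintype.card (Tup j n) ≤
      ((2 * Real.exp 4 * F / n) ^ j * Module.finrank ℂ W) * Fintype.card (Tup j n) := by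
    calc _ ≤ _ := c
      _ = _ := by ring
  exact le_of_mul_le_mul_right this hX

end

end Pool.Agent.L0h8.SK
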