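import Pool.Agent.L0h8.SK.Amp

/-!
Asymptotics: the gap on the tuples of length at most `n^a`, for a small number of generators.
-/

set_option autoImplicit false
set_option linter.unusedSectionVars false

namespace Pool.Agent.L0h8.SK
open RC14 Finset Filter Topology
open Pool.Agent.R236.Den (FewFixK)

noncomputable section

/-- short words have few fixed points: the general exponents -/
theorem few_ev (gk : ℕ) (a f : ℝ) (ha : 0 < a) (haf : 3 * a < f) (hf : f < 1) (C : ℕ) :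
    ∀ᶠ n : ℕ in atTop,
      (Nat.card {x : Fin gk → Alt n // ¬ FewFixK n ⌊(n : ℝ) ^ a⌋₊
        ⌈(n : ℝ) ^ f⌉₊ (fun i => (x i : Equiv.Perm (Fin n)))} : ℝ) * (n : ℝ) ^ C ≤
      (Fintype.card (Alt n) : ℝ) ^ gk := by
  set δ : ℝ := f - 3 * a with hδdef
  have hδ : 0 < δ := by rw [hδdef]; linarith
  filter_upwards [ev_const a (2 / δ * (C + gk) + 1) ha,
    ev_const (δ / 2) ((2 * (2 * gk + 1)) * Real.exp 1 ^ 2) (by linarith),
    ev_const (f - 2 * a) 2 (by linarith), eventually_ge_atTop 2] with n h1 h2 h3 h4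
  have hn2 : (2 : ℝ) ≤ n := by exact_mod_cast h4
  have hn0 : (0 : ℝ) < n := by linarith
  set ℓ := ⌊(n : ℝ) ^ a⌋₊ with hℓ
  set F := ⌈(n : ℝ) ^ f⌉₊ with hF
  have hpos : 0 ≤ (n : ℝ) ^ a := by positivity
  have hℓ1 : (ℓ : ℝ) ≤ (n : ℝ) ^ a := Nat.floor_le hpos
  have hℓ2 : 2 / δ * (C + gk) ≤ ℓ := by
    have h5 : (n : ℝ) ^ a < ℓ + 1 := Nat.lt_floor_add_one ((n : ℝ) ^ a)
    linarith
  have hℓpos : 1 ≤ ℓ := by
    apply Nat.le_floor
    have h5 : 0 ≤ 2 / δ * ((C : ℝ) + gk) := by positivity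
    push_cast
    linarith
  have hF1 : (n : ℝ) ^ f ≤ F := Nat.le_ceil _
  have hle1 : (n : ℝ) ^ f ≤ n := by
    calc (n : ℝ) ^ f ≤ (n : ℝ) ^ (1 : ℝ) :=
          Real.rpow_le_rpow_of_exponent_le (by linarith) hf.le
      _ = n := Real.rpow_one _
  have hFn : F ≤ n := by
    rw [hF, Nat.ceil_le]
    exact hle1
  have hsq : (ℓ : ℝ) ^ 2 ≤ (n : ℝ) ^ (2 * a) := by
    calc (ℓ : ℝ) ^ 2 ≤ ((n : ℝ) ^ a) ^ 2 := by gcongr
      _ = (n : ℝ) ^ (2 * a) := by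
          rw [← Real.rpow_natCast, ← Real.rpow_mul hn0.le]
          congr 1
          push_cast
          ring
  have hcube : (ℓ : ℝ) ^ 3 ≤ (n : ℝ) ^ (3 * a) := by
    calc (ℓ : ℝ) ^ 3 ≤ ((n : ℝ) ^ a) ^ 3 := by gcongr
      _ = (n : ℝ) ^ (3 * a) := by
          rw [← Real.rpow_natCast, ← Real.rpow_mul hn0.le]
          congr 1
          push_cast
          ring
  have hhalf : (n : ℝ) ^ (2 * a) ≤ (n : ℝ) ^ f / 2 := by
    rw [le_div_iff₀ (by norm_num)]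
    calc (n : ℝ) ^ (2 * a) * 2 ≤ (n : ℝ) ^ (2 * a) * (n : ℝ) ^ (f - 2 * a) := by gcongr
      _ = (n : ℝ) ^ f := by
          rw [← Real.rpow_add hn0]
          congr 1
          ring
  set D : ℝ := F - (ℓ : ℝ) ^ 2 with hDdef
  set M : ℝ := n - (ℓ : ℝ) ^ 2 with hMdef
  have hD2 : (n : ℝ) ^ f / 2 ≤ D := by
    rw [hDdef]; linarith
  have hD0 : 0 < D := lt_of_lt_of_le (by positivity) hD2
  have hM2 : (n : ℝ) / 2 ≤ M := by
    rw [hMdef]; linarith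
  have hℓF : ℓ * ℓ < F := by
    have : ((ℓ * ℓ : ℕ) : ℝ) < F := by
      push_cast
      have : 0 < F - (ℓ : ℝ) ^ 2 := hD0
      nlinarith
    exact_mod_cast this
  have hN := Pool.Agent.R236.Den.EXPO3.numeric (gk := gk) n ℓ C δ D M h4 hδ
    (by
      calc (ℓ : ℝ) ^ 3 ≤ (n : ℝ) ^ (3 * a) := hcube
        _ = (n : ℝ) ^ (-δ) * (n : ℝ) ^ f := by
            rw [← Real.rpow_add hn0]
            congr 1
            rw [hδdef]
            ring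
        _ ≤ (n : ℝ) ^ (-δ) * (2 * D) := by
            gcongr
            linarith
        _ = 2 * (n : ℝ) ^ (-δ) * D := by ring)
    hD0 hM2 hMdef
    (by
      calc (ℓ : ℝ) ^ 3 ≤ (n : ℝ) ^ (3 * a) := hcube
        _ ≤ (n : ℝ) ^ (1 : ℝ) := Real.rpow_le_rpow_of_exponent_le (by linarith) (by linarith)
        _ = n := Real.rpow_one _)
    h2 hℓ2
  have hE := Pool.Agent.R236.Den.EXPO2 (gk := gk) n ℓ ℓ F hℓF hFn h4 hℓpos
  have hE' : (Nat.card {x : Fin gk → Alt n // ¬ FewFixK n ℓ F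
      (fun i => (x i : Equiv.Perm (Fin n)))} : ℝ) * D ^ ℓ * M ^ (ℓ * ℓ) ≤
      (2 * gk + 1) ^ ℓ * 2 ^ gk * (Fintype.card (Alt n) : ℝ) ^ gk * ((ℓ : ℝ) ^ 3) ^ ℓ *
        (n : ℝ) ^ (ℓ * ℓ) := by
    have e1 : (((F - ℓ * ℓ : ℕ)) : ℝ) = D := by
      rw [Nat.cast_sub hℓF.le, hDdef]
      push_cast
      ring
    have e2 : (((n - ℓ * ℓ : ℕ)) : ℝ) = M := by
      rw [Nat.cast_sub (hℓF.le.trans hFn), hMdef]
      push_cast
      ring
    have e3 : ((Nat.card {x : Fin gk → Alt n // ¬ FewFixK n ℓ F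
      (fun i => (x i : Equiv.Perm (Fin n)))} * (F - ℓ * ℓ) ^ ℓ * (n - ℓ * ℓ) ^ (ℓ * ℓ) : ℕ) : ℝ) ≤
      (((2 * gk + 1) ^ ℓ * 2 ^ gk * Fintype.card (Alt n) ^ gk * (ℓ * ℓ ^ 2) ^ ℓ *
        n ^ (ℓ * ℓ) : ℕ) : ℝ) := by
      exact_mod_cast hE
    rw [Nat.cast_mul, Nat.cast_mul, Nat.cast_pow, Nat.cast_pow, e1, e2] at e3
    refine e3.trans (le_of_eq ?_)
    push_cast
    ring
  set N : ℝ := (Nat.card {x : Fin gk → Alt n // ¬ FewFixK n ℓ F
      (fun i => (x i : Equiv.Perm (Fin n)))} : ℝ) with hNdef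
  have hM0 : 0 < M := by linarith
  have hDM : 0 < D ^ ℓ * M ^ (ℓ * ℓ) := by positivity
  have hfin : N * (n : ℝ) ^ C * (D ^ ℓ * M ^ (ℓ * ℓ)) ≤
      (Fintype.card (Alt n) : ℝ) ^ gk * (D ^ ℓ * M ^ (ℓ * ℓ)) := by
    calc N * (n : ℝ) ^ C * (D ^ ℓ * M ^ (ℓ * ℓ)) = (N * D ^ ℓ * M ^ (ℓ * ℓ)) * (n : ℝ) ^ C := by
          ring
      _ ≤ ((2 * gk + 1) ^ ℓ * 2 ^ gk * (Fintype.card (Alt n) : ℝ) ^ gk * ((ℓ : ℝ) ^ 3) ^ ℓ *
            (n : ℝ) ^ (ℓ * ℓ)) * (n : ℝ) ^ C := by gcongr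
      _ = (Fintype.card (Alt n) : ℝ) ^ gk * ((2 * gk + 1) ^ ℓ * 2 ^ gk * ((ℓ : ℝ) ^ 3) ^ ℓ *
            (n : ℝ) ^ (ℓ * ℓ) * (n : ℝ) ^ C) := by ring
      _ ≤ (Fintype.card (Alt n) : ℝ) ^ gk * (D ^ ℓ * M ^ (ℓ * ℓ)) := by gcongr
  exact le_of_mul_le_mul_right hfin hDM

/-- `√3 / 2` -/
lemma s0_two : (Real.sqrt (2 * ((2 : ℕ) : ℝ) - 1) / ((2 : ℕ) : ℝ)) ^ 2 = 3 / 4 := by
  rw [div_pow, Real.sq_sqrt (by norm_num)]
  norm_num

/-- the gap on short tuples -/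
theorem gapk (q : ℕ) (hq : 1 ≤ q) (δ : ℝ) (hδ : 0 < δ) (hδ1 : δ < q / (3 * (q + 1))) :
    ∃ c : ℝ, 0 < c ∧ c ≤ 1 ∧ ∀ ε₀ : ℝ, 0 < ε₀ → ∀ᶠ n : ℕ in atTop,
      (Nat.card {y : Fin (2 + q) → Alt n //
        ¬ Good1 n ⌊(n : ℝ) ^ ((q : ℝ) / (3 * (q + 1)) - δ)⌋₊ c y} : ℝ) ≤
        ε₀ * (Fintype.card (Alt n) : ℝ) ^ (2 + q) := by
  have hqr : (1 : ℝ) ≤ q := by exact_mod_cast hq
  have hq0 : (0 : ℝ) < (q : ℝ) + 1 := by linarith
  set A : ℝ := (q : ℝ) / (3 * (q + 1)) with hA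
  have hA6 : 1 / 6 ≤ A := by
    rw [hA, div_le_div_iff₀ (by norm_num) (by positivity)]; nlinarith
  have hA3 : 3 * A = 1 - 1 / (q + 1) := by rw [hA]; field_simp; ring
  have hq1 : 0 < 1 / ((q : ℝ) + 1) := by positivity
  set a : ℝ := A - δ with ha
  set a' : ℝ := A - δ / 2 with ha'
  set f : ℝ := 3 * A - 3 * δ / 4 with hf
  have ha0 : 0 < a := by rw [ha]; linarith
  have ha'0 : 0 < a' := by rw [ha']; linarith
  have hf1 : f < 1 := by rw [hf, hA3]; linarith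
  have hf0 : 0 < f := by rw [hf]; linarith
  set θ : ℝ := Real.exp (-(δ / 64)) with hθ
  have hθ0 : 0 < θ := Real.exp_pos _
  have hθ1 : θ < 1 := by rw [hθ, Real.exp_lt_one_iff]; linarith
  set c : ℝ := (1 - θ) / (16 * ((q : ℝ) + 1) ^ 2) with hc
  refine ⟨c, by rw [hc]; have : 0 < 1 - θ := by linarith
                positivity, ?_, fun ε₀ hε₀ => ?_⟩
  · rw [hc, div_le_one (by positivity)]
    nlinarith
  filter_upwards [few_ev 2 a' f ha'0 (by rw [ha', hf]; linarith) hf1 1,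
    ev_le a a' 32 (by rw [ha, ha']; linarith), ev_log a a' 64 (by rw [ha, ha']; linarith),
    ev_le a 1 8 (by rw [ha]; linarith), ev_const (δ / 8) (Real.exp (δ / 32)) (by positivity),
    ev_const (δ / 2) (300 ^ (q + 1) * 2) (by positivity),
    ev_const (δ / 2) (16 / ε₀ * 300 ^ (q + 1)) (by positivity),
    ev_const 1 (2 / ε₀) one_pos, ev_const a' 4 ha'0,
    eventually_ge_atTop 16] with n h1 h2 h3 h4 h5 h6 h7 h8 h9 hn16
  have hn16r : (16 : ℝ) ≤ n := by exact_mod_cast hn16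
  have hn0 : (0 : ℝ) < n := by linarith
  have hn1 : (1 : ℝ) ≤ n := by linarith
  rw [Real.rpow_one] at h4 h8
  rw [pow_one] at h1
  have hlog : 0 < Real.log n := Real.log_pos (by linarith)
  set ℓ : ℕ := ⌊(n : ℝ) ^ a'⌋₊ with hℓ
  set F : ℕ := ⌈(n : ℝ) ^ f⌉₊ with hF
  set m : ℕ := ⌊(n : ℝ) ^ a⌋₊ with hm
  set L1 : ℕ := ⌈4 * Real.log n⌉₊ with hL1
  have hm1 : (m : ℝ) ≤ (n : ℝ) ^ a := Nat.floor_le (by positivity)
  have hL1a : 4 * Real.log n ≤ L1 := Nat.le_ceil _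
  have hL1b : (L1 : ℝ) < 4 * Real.log n + 1 := Nat.ceil_lt_add_one (by positivity)
  have hna1 : 1 ≤ (n : ℝ) ^ a := Real.one_le_rpow hn1 ha0.le
  have hF1 : (n : ℝ) ^ f ≤ F := Nat.le_ceil _
  have hnf1 : 1 ≤ (n : ℝ) ^ f := Real.one_le_rpow hn1 hf0.le
  have hF2 : (F : ℝ) ≤ 2 * (n : ℝ) ^ f := by
    have : (F : ℝ) < (n : ℝ) ^ f + 1 := Nat.ceil_lt_add_one (by positivity)
    linarith
  have hm2 : 2 * m + 2 ≤ n := by
    have : (2 * (m : ℝ) + 2) ≤ n := by nlinarith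
    exact_mod_cast this
  have haf : a ≤ f := by rw [ha, hf]; linarith
  have hmF : m ≤ F := by
    have : (m : ℝ) ≤ F := by
      calc (m : ℝ) ≤ (n : ℝ) ^ a := hm1
        _ ≤ (n : ℝ) ^ f := Real.rpow_le_rpow_of_exponent_le hn1 haf
        _ ≤ F := hF1
    exact_mod_cast this
  have hIF : n * m ^ (2 + 1) ≤ F ^ (2 + 1) := by
    have : (n : ℝ) * (m : ℝ) ^ 3 ≤ (F : ℝ) ^ 3 := by
      calc (n : ℝ) * (m : ℝ) ^ 3 ≤ n * ((n : ℝ) ^ a) ^ 3 := by gcongr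
        _ = (n : ℝ) ^ (1 + 3 * a) := by
            rw [← Real.rpow_natCast, ← Real.rpow_mul hn0.le, Real.rpow_add hn0, Real.rpow_one]
            push_cast
            rw [mul_comm a 3]
        _ ≤ (n : ℝ) ^ (3 * f) := by
            apply Real.rpow_le_rpow_of_exponent_le hn1
            rw [ha, hf]; linarith
        _ = ((n : ℝ) ^ f) ^ 3 := by
            rw [← Real.rpow_natCast, ← Real.rpow_mul hn0.le]
            push_cast
            rw [mul_comm f 3]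
        _ ≤ (F : ℝ) ^ 3 := by gcongr
    exact_mod_cast this
  have hℓ2 : (n : ℝ) ^ a' - 1 ≤ ℓ := by
    have : (n : ℝ) ^ a' < ℓ + 1 := Nat.lt_floor_add_one _
    linarith
  have hI : 2 * (2 * (m * L1)) ≤ ℓ := by
    have : (2 * (2 * ((m : ℝ) * L1))) ≤ ℓ := by
      have h10 : (m : ℝ) * L1 ≤ (n : ℝ) ^ a * (4 * Real.log n + 1) := by gcongr
      have h11 : 2 * (2 * ((m : ℝ) * L1)) ≤ 16 * (n : ℝ) ^ a * Real.log n + 4 * (n : ℝ) ^ a := by
        nlinarith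
      have h12 : 16 * (n : ℝ) ^ a * Real.log n ≤ (n : ℝ) ^ a' / 4 := by linarith
      linarith
    exact_mod_cast this
  -- the parameter `B`
  set s : ℝ := Real.sqrt (2 * ((2 : ℕ) : ℝ) - 1) / ((2 : ℕ) : ℝ) with hs
  set B : ℝ := (s ^ (2 * L1) + 2 * Real.exp 4 * F / n) / θ ^ (2 * L1) with hB
  have hθp : 0 < θ ^ (2 * L1) := by positivity
  have hsL : s ^ (2 * L1) ≤ (n : ℝ) ^ (f - 1) := by
    have e1 : s ^ (2 * L1) = (3 / 4 : ℝ) ^ L1 := by rw [pow_mul, hs, s0_two]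
    have e2 : (3 / 4 : ℝ) ≤ Real.exp (-(1 / 4)) := by
      have := Real.add_one_le_exp (-(1 / 4 : ℝ)); linarith
    rw [e1]
    calc (3 / 4 : ℝ) ^ L1 ≤ Real.exp (-(1 / 4)) ^ L1 := pow_le_pow_left₀ (by norm_num) e2 _
      _ = Real.exp (-(L1 / 4)) := by rw [← Real.exp_nat_mul]; congr 1; ring
      _ ≤ Real.exp (-Real.log n) := Real.exp_le_exp.2 (by linarith)
      _ = (n : ℝ) ^ (-1 : ℝ) := by rw [Real.exp_neg, Real.exp_log hn0, Real.rpow_neg_one]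
      _ ≤ (n : ℝ) ^ (f - 1) := Real.rpow_le_rpow_of_exponent_le hn1 (by linarith)
  have hbn : 2 * Real.exp 4 * F / n ≤ 240 * (n : ℝ) ^ (f - 1) := by
    have e4 : Real.exp 4 ≤ 60 := by
      have h10 : Real.exp 4 = Real.exp 1 ^ 4 := by rw [← Real.exp_nat_mul]; norm_num
      rw [h10]
      have h11 := Real.exp_one_lt_d9
      calc Real.exp 1 ^ 4 ≤ (2.7182818286 : ℝ) ^ 4 := by gcongr
        _ ≤ 60 := by norm_num
    have e5 : (n : ℝ) ^ (f - 1) = (n : ℝ) ^ f / n := by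
      rw [Real.rpow_sub hn0, Real.rpow_one]
    rw [e5, mul_div_assoc', div_le_div_iff_of_pos_right hn0]
    have hpos := Real.exp_pos 4
    calc 2 * Real.exp 4 * F ≤ 2 * 60 * (2 * (n : ℝ) ^ f) := by gcongr
      _ = 240 * (n : ℝ) ^ f := by ring
  have hθinv : 1 / θ ^ (2 * L1) ≤ (n : ℝ) ^ (δ / 4) := by
    have e1 : 1 / θ ^ (2 * L1) = Real.exp (δ / 32 * L1) := by
      rw [hθ, ← Real.exp_nat_mul, one_div, ← Real.exp_neg]
      congr 1; push_cast; ring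
    rw [e1]
    calc Real.exp (δ / 32 * L1) ≤ Real.exp (δ / 32 * (4 * Real.log n + 1)) := by
          apply Real.exp_le_exp.2; gcongr
      _ = (n : ℝ) ^ (δ / 8) * Real.exp (δ / 32) := by
          rw [Real.rpow_def_of_pos hn0, ← Real.exp_add]; congr 1; ring
      _ ≤ (n : ℝ) ^ (δ / 8) * (n : ℝ) ^ (δ / 8) := by gcongr
      _ = (n : ℝ) ^ (δ / 4) := by rw [← Real.rpow_add hn0]; congr 1; ring
  have hB0 : 0 ≤ B := by positivity
  have hBle : B ≤ 300 * (n : ℝ) ^ (f - 1 + δ / 4) := by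
    have e1 : B = (s ^ (2 * L1) + 2 * Real.exp 4 * F / n) * (1 / θ ^ (2 * L1)) := by
      rw [hB]; ring
    rw [e1, Real.rpow_add hn0]
    have hp : 0 < (n : ℝ) ^ (f - 1) := by positivity
    calc (s ^ (2 * L1) + 2 * Real.exp 4 * F / n) * (1 / θ ^ (2 * L1))
        ≤ ((n : ℝ) ^ (f - 1) + 240 * (n : ℝ) ^ (f - 1)) * (n : ℝ) ^ (δ / 4) := by gcongr
      _ ≤ _ := by nlinarith [show 0 < (n : ℝ) ^ (δ / 4) by positivity, mul_pos hp (show 0 < (n : ℝ) ^ (δ / 4) by positivity)]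
  have hnB : n * B ^ (q + 1) ≤ 300 ^ (q + 1) * (n : ℝ) ^ (-(δ / 2)) := by
    calc n * B ^ (q + 1) ≤ n * (300 * (n : ℝ) ^ (f - 1 + δ / 4)) ^ (q + 1) := by gcongr
      _ = 300 ^ (q + 1) * ((n : ℝ) ^ (1 : ℝ) * (n : ℝ) ^ ((f - 1 + δ / 4) * ((q : ℝ) + 1))) := by
          rw [mul_pow, ← Real.rpow_natCast ((n : ℝ) ^ (f - 1 + δ / 4)), ← Real.rpow_mul hn0.le,
            Real.rpow_one]
          push_cast
          ring
      _ = 300 ^ (q + 1) * (n : ℝ) ^ (1 + (f - 1 + δ / 4) * ((q : ℝ) + 1)) := by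
          rw [← Real.rpow_add hn0]
      _ ≤ 300 ^ (q + 1) * (n : ℝ) ^ (-(δ / 2)) := by
          have : 1 + (f - 1 + δ / 4) * ((q : ℝ) + 1) ≤ -(δ / 2) := by
            have e2 : (f - 1 + δ / 4) * ((q : ℝ) + 1) = -1 - δ / 2 * (q + 1) := by
              rw [hf, hA3]; field_simp; ring
            rw [e2]
            nlinarith
          have := Real.rpow_le_rpow_of_exponent_le hn1 this
          gcongr
  have hpd : 0 < (n : ℝ) ^ (δ / 2) := by positivity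
  have hnB2 : n * B ^ (q + 1) ≤ 1 / 2 := by
    refine hnB.trans ?_
    rw [Real.rpow_neg hn0.le, ← div_eq_mul_inv, div_le_iff₀ hpd]
    linarith
  have hnB3 : 8 * (n * B ^ (q + 1)) ≤ ε₀ / 2 := by
    have h10 : 300 ^ (q + 1) * (n : ℝ) ^ (-(δ / 2)) ≤ ε₀ / 16 := by
      rw [Real.rpow_neg hn0.le, ← div_eq_mul_inv, div_le_iff₀ hpd]
      rw [div_mul_eq_mul_div, div_le_iff₀ hε₀] at h7
      linarith
    linarith
  -- assembly
  have hcount : (Nat.card {y : Fin (2 + q) → Alt n // ¬ Good1 n m c y} : ℝ) =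
      (Nat.card {p : (Fin 2 → Alt n) × (Fin q → Alt n) //
        ¬ Good1 n m c (Fin.append p.1 p.2)} : ℝ) := by
    norm_cast
    exact (card_equiv (Fin.appendEquiv 2 q) _ _ fun z => Iff.rfl).symm
  rw [hcount]
  refine (card_prod_bound (fun x : Fin 2 → Alt n =>
    FewFixK n ℓ F (fun i => (x i : Equiv.Perm (Fin n))))
    (fun x z => ¬ Good1 n m c (Fin.append x z)) (ε₀ / 2)
    (by positivity) ?_).trans ?_
  · intro x hx
    have := all_levels n m 2 2 ℓ F L1 q (by norm_num) hm2 hmF hIF hI θ B hθ0 hθ1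
      (by rw [hB, mul_div_cancel₀ _ hθp.ne']) hB0 hnB2 x hx
    refine this.trans ?_
    rw [Fintype.card_fun, Fintype.card_fin]
    push_cast
    gcongr
  · rw [Fintype.card_fun, Fintype.card_fun, Fintype.card_fin, Fintype.card_fin]
    push_cast
    set Q : ℝ := (Fintype.card (Alt n) : ℝ) with hQ
    have hQ0 : 0 < Q := by rw [hQ]; exact_mod_cast Fintype.card_pos
    have h10 : (Nat.card {x : Fin 2 → Alt n // ¬ FewFixK n ℓ F
        (fun i => (x i : Equiv.Perm (Fin n)))} : ℝ) ≤ ε₀ / 2 * Q ^ 2 := by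
      have h11 : 2 / ε₀ ≤ n := h8
      rw [div_le_iff₀ hε₀] at h11
      have h12 : (Nat.card {x : Fin 2 → Alt n // ¬ FewFixK n ℓ F
        (fun i => (x i : Equiv.Perm (Fin n)))} : ℝ) * n ≤ Q ^ 2 := h1
      have h13 : (Nat.card {x : Fin 2 → Alt n // ¬ FewFixK n ℓ F
        (fun i => (x i : Equiv.Perm (Fin n)))} : ℝ) * n ≤ (ε₀ / 2 * Q ^ 2) * n := by
        calc _ ≤ 1 * Q ^ 2 := by linarith
          _ ≤ (ε₀ / 2 * n) * Q ^ 2 := by gcongr; linarith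
          _ = _ := by ring
      exact le_of_mul_le_mul_right h13 hn0
    calc _ ≤ (ε₀ / 2 * Q ^ 2) * Q ^ q + ε₀ / 2 * Q ^ 2 * Q ^ q := by gcongr
      _ = ε₀ * Q ^ (2 + q) := by rw [pow_add]; ring

end

end Pool.Agent.L0h8.SK
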