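import Pool.Agent.L0h8.SK.Amp
import Pool.Agent.L0h8.ND.Cls

/-!
Decay of class functions orthogonal to the functions of one point under the lazy walk.
-/

set_option autoImplicit false
set_option linter.unusedSectionVars false

namespace Pool.Agent.L0h8.SK
open RC14 Finset
open Pool.Agent.R236.Den (PX PX_symm FewFixK low_char exists_min Phi_mem_Lvl Phi_ker)
open Pool.Agent.R236.Exc (Phi Phi_equi)
open Pool.Agent.L0h8.ND (lz rmul toFA toFA_apply norm_toFA TL_toFA TL_pow_toFA LT LT_apply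
  LT_comm_pow class_RR TL_res_pow avg_le pow_symm)
open scoped InnerProductSpace

noncomputable section

section Irrep
variable {V : Type*} [NormedAddCommGroup V] [InnerProductSpace ℂ V]

/-- the new character bound for a representation with a vector fixed by the stabiliser of a
`j`-tuple, `j` minimal -/
theorem low_char2 {j n I F : ℕ} (hj0 : 1 ≤ j) (hj : 2 * j + 2 ≤ n) (hjF : j ≤ F)
    (hIF : n * j ^ (I + 1) ≤ F ^ (I + 1)) (κ : Tup j n) (ρ : Alt n →* (V ≃ₗᵢ[ℂ] V))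
    (hirr : Irr ρ ⊤) (v0 : V) (hv0 : v0 ≠ 0)
    (hinv : ∀ h : Alt n, mv (h : Equiv.Perm (Fin n)) κ = κ → ρ h v0 = v0)
    (hmin : ∀ j' < j, ∀ κ' : Tup j' n, ∀ v,
      (∀ h : Alt n, mv (h : Equiv.Perm (Fin n)) κ' = κ' → ρ h v = v) → v = 0)
    (g : Alt n) (hg : ∀ i, 1 ≤ i → i ≤ I → nfix ((g : Equiv.Perm (Fin n)) ^ i) ≤ F) :
    ‖chr ρ g‖ ≤ (2 * Real.exp 4 * F / n) ^ j * Module.finrank ℂ V := by
  have hj' : j + 2 ≤ n := by omega
  set Φ := Phi hj' κ ρ v0 with hΦ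
  have hker : LinearMap.ker Φ = ⊥ := Phi_ker hj' κ ρ hirr v0 hv0 hinv
  have hequi : ∀ h v, Φ (ρ h v) = repA j n h (Φ v) := Phi_equi hj' κ ρ v0 hinv
  have hinj : Function.Injective Φ := LinearMap.ker_eq_bot.1 hker
  let e : V ≃ₗ[ℂ] LinearMap.range Φ := LinearEquiv.ofInjective Φ hinj
  have he : ∀ w : V, ((e w : LinearMap.range Φ) : RC14.V j n) = Φ w := fun w => rfl
  have hInv : Inv (repA j n) (LinearMap.range Φ) := by
    rintro g _ ⟨v, rfl⟩
    exact ⟨ρ g v, hequi g v⟩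
  have hL : LinearMap.range Φ ≤ Lvl j n := by
    rintro _ ⟨v, rfl⟩
    exact Phi_mem_Lvl hj' κ ρ v0 hinv hmin v
  have hdim : Module.finrank ℂ (LinearMap.range Φ) = Module.finrank ℂ V := e.finrank_eq.symm
  have hchr : chr ρ g = rchr (repA j n) (LinearMap.range Φ) hInv g := by
    unfold rchr chr
    rw [← LinearMap.trace_conj' _ e]
    congr 1
    apply LinearMap.ext
    intro u
    rw [LinearEquiv.conj_apply_apply]
    apply Subtype.ext
    rw [he, op_apply, op_apply, res_apply, hequi, ← he, e.apply_symm_apply]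
  rw [hchr, ← hdim]
  exact chr_small j n I F hj0 hj hjF hIF _ hInv hL g hg

variable [FiniteDimensional ℂ V]

/-- characters of the irreducible representations without vectors fixed by the stabiliser of a
point -/
theorem char2 (n N F I J0 : ℕ) (κ : ℝ) (hN : 100 ≤ N) (hNn : 2 * (12096 * N) ≤ n)
    (hn : 1000 ≤ n) (hF : 2 * F ≤ n) (hI : 1 ≤ I) (hJF : J0 ≤ F)
    (hJI : n * J0 ^ (I + 1) ≤ F ^ (I + 1)) (hb1 : 2 * Real.exp 4 * F / n ≤ 1)
    (hκ1 : (2 * Real.exp 4 * F / n) ^ 2 ≤ κ)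
    (hκ2 : ∀ j, N * j ≤ n → bb j J0 n F ^ J0 ≤ κ)
    (hκ3 : Real.exp (-(1 / (2 * 336 * 12096 * (N : ℝ) ^ 2) * n)) ≤ κ)
    (ρ : Alt n →* (V ≃ₗᵢ[ℂ] V)) (hirr : Irr ρ ⊤)
    (hno1 : ∀ K : Finset (Fin n), K.card ≤ 1 → ∀ v : V,
      (∀ h : Alt n, (∀ a ∈ K, (h : Equiv.Perm (Fin n)) a = a) → ρ h v = v) → v = 0)
    (g : Alt n) (hg : ∀ i, 1 ≤ i → i ≤ I → nfix ((g : Equiv.Perm (Fin n)) ^ i) ≤ F) :
    ‖chr ρ g‖ ≤ κ * Module.finrank ℂ V := by
  classical
  have hd : (0 : ℝ) ≤ Module.finrank ℂ V := Nat.cast_nonneg _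
  have hg1 : nfix (g : Equiv.Perm (Fin n)) ≤ F := by
    have := hg 1 le_rfl hI
    rwa [pow_one] at this
  have hκ0 : 0 ≤ κ := le_trans (Real.exp_pos _).le hκ3
  by_cases hno : ∀ K : Finset (Fin n), N * K.card ≤ n → ∀ v : V,
      (∀ h : Alt n, (∀ a ∈ K, (h : Equiv.Perm (Fin n)) a = a) → ρ h v = v) → v = 0
  · have hm' : 36 * (n / (12096 * N)) ≤ n := by
      calc 36 * (n / (12096 * N)) ≤ (12096 * N) * (n / (12096 * N)) :=
            Nat.mul_le_mul_right _ (by omega)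
        _ ≤ n := Nat.mul_div_le _ _
    have key := LL14.HIGHN N hN n hn ρ hirr hno g (by omega) (n / (12096 * N)) hm'
    refine (pow_le_pow_iff_left₀ (norm_nonneg _) (by positivity) two_ne_zero).mp
      (key.trans ?_)
    rw [mul_pow]
    refine mul_le_mul_of_nonneg_right ((LL14.HCHARx.num N n hN hNn).trans ?_) (by positivity)
    exact pow_le_pow_left₀ (Real.exp_pos _).le hκ3 2
  · push Not at hno
    obtain ⟨K, hK, v0, hinv, hv0⟩ := hno
    have hnt : ∃ g v, ρ g v ≠ v := by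
      by_contra hcon
      push Not at hcon
      exact hv0 (hno1 ∅ (by simp) v0 fun h _ => hcon h v0)
    obtain ⟨j, hj1, hjK, κ', v, hv, hκ', hmin⟩ := exists_min ρ hirr hnt K v0 hv0 hinv
    have hNj : N * j ≤ n := (Nat.mul_le_mul_left N hjK).trans hK
    have h100 : 100 * j ≤ n := (Nat.mul_le_mul_right j hN).trans hNj
    have h2j : 2 * j + 2 ≤ n := by omega
    have hj2 : 2 ≤ j := by
      by_contra hcon
      have hj : j = 1 := by omega
      subst hj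
      apply hv
      refine hno1 {κ' 0} (by simp) v fun h hh => hκ' h ?_
      ext i
      obtain rfl : i = 0 := Subsingleton.elim _ _
      rw [mv_apply, hh (κ' 0) (by simp)]
    by_cases hjJ : j ≤ J0
    · have h1 := low_char2 hj1 h2j (hjJ.trans hJF)
        ((Nat.mul_le_mul_left n (Nat.pow_le_pow_left hjJ _)).trans hJI) κ' ρ hirr v hv hκ' hmin g hg
      refine h1.trans (mul_le_mul_of_nonneg_right ?_ hd)
      refine le_trans ?_ hκ1
      exact pow_le_pow_of_le_one (by positivity) hb1 hj2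
    · obtain ⟨-, hch⟩ := low_char h2j κ' ρ hirr v hv hκ' hmin
      refine (hch J0 F (by omega) g hg1).trans ?_
      exact mul_le_mul_of_nonneg_right (hκ2 j hNj) hd

end Irrep

section Trace
variable {G : Type*} [Group G] [Fintype G]
variable {V : Type*} [NormedAddCommGroup V] [InnerProductSpace ℂ V] [FiniteDimensional ℂ V]

lemma TL_eq (ρ : G →* (V ≃ₗᵢ[ℂ] V)) {k : ℕ} (y : Fin k → G) :
    TL ρ y = (1 / 2 : ℂ) • (1 + PX ρ y) := by
  simp [TL, PX]

/-- the trace of the lazy walk from the trace of the walk -/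
theorem TL_trace (ρ : G →* (V ≃ₗᵢ[ℂ] V)) {k : ℕ} (hk : 1 ≤ k) (y : Fin k → G) (θ : ℝ)
    (hθ0 : 0 < θ) (hθ1 : θ < 1) (t L : ℕ) :
    rtr (TL ρ y ^ (2 * L)) ≤ (1 / θ) ^ (2 * t) * rtr (PX ρ y ^ (2 * t)) +
      ((1 + θ) / 2) ^ (2 * L) * Module.finrank ℂ V := by
  classical
  set n := Module.finrank ℂ V with hn
  have hk0 : (0 : ℝ) < k := by exact_mod_cast hk
  have hT := PX_symm ρ y
  set b := hT.eigenvectorBasis hn.symm with hb
  set μ := hT.eigenvalues hn.symm with hμ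
  have hTb : ∀ i, PX ρ y (b i) = (μ i : ℂ) • b i := fun i => hT.apply_eigenvectorBasis hn.symm i
  have hpow : ∀ (L : ℕ) (i), (PX ρ y ^ L) (b i) = ((μ i : ℂ) ^ L) • b i := by
    intro L i
    induction L with
    | zero => simp
    | succ L ih =>
      rw [pow_succ', Module.End.mul_apply, ih, map_smul, hTb, smul_smul, pow_succ]
  have hTLb : ∀ i, TL ρ y (b i) = (((1 + μ i) / 2 : ℝ) : ℂ) • b i := by
    intro i
    rw [TL_eq, LinearMap.smul_apply, LinearMap.add_apply, Module.End.one_apply, hTb]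
    push_cast
    module
  have hTLpow : ∀ (L : ℕ) (i), (TL ρ y ^ L) (b i) = ((((1 + μ i) / 2 : ℝ) : ℂ) ^ L) • b i := by
    intro L i
    induction L with
    | zero => simp
    | succ L ih =>
      rw [pow_succ', Module.End.mul_apply, ih, map_smul, hTLb, smul_smul, pow_succ]
  have hμv : ∀ i, 1 - μ i = En ρ y (b i) / (2 * k) := by
    intro i
    have h := PX_energy ρ hk y (b i)
    rw [hTb, inner_smul_left, b.inner_eq_one i, b.norm_eq_one i] at h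
    simpa using h
  have hμ0 : ∀ i, -1 ≤ μ i := by
    intro i
    have h1 := hμv i
    have h2 := Pool.Agent.L0h8.ND.En_le ρ y (b i)
    rw [b.norm_eq_one i] at h2
    have h3 : En ρ y (b i) / (2 * k) ≤ 2 := by
      rw [div_le_iff₀ (by positivity)]; linarith
    linarith
  have hμ1 : ∀ i, μ i ≤ 1 := by
    intro i
    have h1 := hμv i
    have h2 : 0 ≤ En ρ y (b i) := Finset.sum_nonneg fun _ _ => by positivity
    have h3 : 0 ≤ En ρ y (b i) / (2 * k) := by positivity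
    linarith
  have htr1 : rtr (TL ρ y ^ (2 * L)) = ∑ i, ((1 + μ i) / 2) ^ (2 * L) := by
    unfold rtr
    rw [LinearMap.trace_eq_sum_inner _ b, Complex.re_sum]
    refine Finset.sum_congr rfl fun i _ => ?_
    rw [hTLpow, inner_smul_right, b.inner_eq_one i, mul_one, ← Complex.ofReal_pow,
      Complex.ofReal_re]
  have htr2 : rtr (PX ρ y ^ (2 * t)) = ∑ i, μ i ^ (2 * t) := by
    unfold rtr
    rw [LinearMap.trace_eq_sum_inner _ b, Complex.re_sum]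
    refine Finset.sum_congr rfl fun i _ => ?_
    rw [hpow, inner_smul_right, b.inner_eq_one i, mul_one, ← Complex.ofReal_pow,
      Complex.ofReal_re]
  rw [htr1, htr2, Finset.mul_sum]
  have hcard : ((1 + θ) / 2) ^ (2 * L) * (n : ℝ) = ∑ _i : Fin n, ((1 + θ) / 2) ^ (2 * L) := by
    rw [Finset.sum_const, Finset.card_univ, Fintype.card_fin, nsmul_eq_mul, mul_comm]
  rw [hcard, ← Finset.sum_add_distrib]
  refine Finset.sum_le_sum fun i _ => ?_
  have h0 := hμ0 i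
  have h1 := hμ1 i
  have hpt : 0 ≤ μ i ^ (2 * t) := by rw [pow_mul]; positivity
  by_cases hi : θ ≤ μ i
  · have h2 : ((1 + μ i) / 2) ^ (2 * L) ≤ 1 := pow_le_one₀ (by linarith) (by linarith)
    have h3 : 1 ≤ (1 / θ) ^ (2 * t) * μ i ^ (2 * t) := by
      rw [← mul_pow]
      apply one_le_pow₀
      rw [one_div, inv_mul_eq_div, le_div_iff₀ hθ0]
      linarith
    have h4 : 0 ≤ ((1 + θ) / 2) ^ (2 * L) := by positivity
    linarith
  · push Not at hi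
    have h2 : ((1 + μ i) / 2) ^ (2 * L) ≤ ((1 + θ) / 2) ^ (2 * L) :=
      pow_le_pow_left₀ (by linarith) (by linarith) _
    have h3 : 0 ≤ (1 / θ) ^ (2 * t) * μ i ^ (2 * t) := by positivity
    linarith

end Trace

/-- the trace of the lazy walk in an irreducible subspace without vectors fixed by the stabiliser
of a point -/
theorem irr_trace {V : Type*} [NormedAddCommGroup V] [InnerProductSpace ℂ V]
    [FiniteDimensional ℂ V] {n k : ℕ} (hk : 1 ≤ k) (N F I J0 ℓ t L : ℕ) (κ θ : ℝ) (hN : 100 ≤ N)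
    (hNn : 2 * (12096 * N) ≤ n)
    (hn : 1000 ≤ n) (hF : 2 * F ≤ n) (hI : 1 ≤ I) (hJF : J0 ≤ F)
    (hJI : n * J0 ^ (I + 1) ≤ F ^ (I + 1)) (hb1 : 2 * Real.exp 4 * F / n ≤ 1)
    (hκ1 : (2 * Real.exp 4 * F / n) ^ 2 ≤ κ)
    (hκ2 : ∀ j, N * j ≤ n → bb j J0 n F ^ J0 ≤ κ)
    (hκ3 : Real.exp (-(1 / (2 * 336 * 12096 * (N : ℝ) ^ 2) * n)) ≤ κ)
    (hℓ : I * (2 * t) ≤ ℓ) (hθ0 : 0 < θ) (hθ1 : θ < 1)
    (y : Fin k → Alt n) (hy : FewFixK n ℓ F (fun i => (y i : Equiv.Perm (Fin n))))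
    (ρ : Alt n →* (V ≃ₗᵢ[ℂ] V)) (W : Submodule ℂ V) (hW : Irr ρ W)
    (hno : ∀ K : Finset (Fin n), K.card ≤ 1 → ∀ v ∈ W,
      (∀ h : Alt n, (∀ a ∈ K, (h : Equiv.Perm (Fin n)) a = a) → ρ h v = v) → v = 0) :
    RtL ρ W hW.2.1 y (2 * L) ≤
      ((1 / θ) ^ (2 * t) * ((Real.sqrt (2 * k - 1) / k) ^ (2 * t) + κ) +
        ((1 + θ) / 2) ^ (2 * L)) * Module.finrank ℂ W := by
  have hκ0 : 0 ≤ κ := le_trans (Real.exp_pos _).le hκ3
  have hirr := AMP1.irr_res ρ W hW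
  have htr := Pool.Agent.R236.Den.trace_le (res ρ W hW.2.1) hk y
    (2 * t) κ hκ0 (by
      intro u hu hul
      refine char2 n N F I J0 κ hN hNn hn hF hI hJF hJI hb1 hκ1 hκ2 hκ3 _ hirr ?_ _
        (fun i hi1 hi => few_pow hy hℓ u hu hul i hi1 hi)
      intro K hK v hv
      refine Subtype.ext (hno K hK v v.2 fun s hs => ?_)
      exact congrArg (fun z : W => (z : V)) (hv s hs))
  have h2 := TL_trace (res ρ W hW.2.1) hk y θ hθ0 hθ1 t L
  refine h2.trans ?_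
  have h3 : 0 ≤ (1 / θ) ^ (2 * t) := by positivity
  calc _ ≤ (1 / θ) ^ (2 * t) * (((Real.sqrt (2 * k - 1) / k) ^ (2 * t) + κ) *
        Module.finrank ℂ W) + ((1 + θ) / 2) ^ (2 * L) * Module.finrank ℂ W := by gcongr
    _ = _ := by ring

/-- `avg_le`, summed form -/
theorem avg_sum {G : Type*} [Group G] [Fintype G] {V : Type*} [NormedAddCommGroup V]
    [InnerProductSpace ℂ V] [FiniteDimensional ℂ V] (ρ : G →* (V ≃ₗᵢ[ℂ] V)) {k : ℕ}
    (y : Fin k → G) (L : ℕ) (κ : ℝ)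
    (hκ : ∀ (W : Submodule ℂ V) (hW : Irr ρ W), RtL ρ W hW.2.1 y L ≤ κ * Module.finrank ℂ W)
    (v : V) : ∑ z : G, (⟪cj ρ (TL ρ y ^ L) z v, v⟫_ℂ).re ≤ Fintype.card G * κ * ‖v‖ ^ 2 := by
  rw [← Complex.re_sum, ← sum_inner, ← LinearMap.sum_apply]
  exact avg_le ρ y L κ hκ v

/-- the right regular representation on an invariant subspace -/
def rM {n : ℕ} (M : Submodule ℂ (FA n)) (hM : Inv (RR n) M) : Alt n →* (M ≃ₗᵢ[ℂ] M) :=
  res (RR n) M hM

/-- **decay of the class functions in an invariant subspace** of the functions on `A_n` -/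
theorem class_decay_sub {n k : ℕ} (y : Fin k → Alt n) (M : Submodule ℂ (FA n))
    (hM : Inv (RR n) M) (κ : ℝ) (L : ℕ)
    (hκ : ∀ (W : Submodule ℂ M) (hW : Irr (V := M) (rM M hM) W),
      RtL (V := M) (rM M hM) W hW.2.1 y (2 * L) ≤ κ * Module.finrank ℂ W)
    (f : Alt n → ℝ) (hf : ∀ g h, f (h * g * h⁻¹) = f g) (hmem : toFA f ∈ M) :
    ∑ g, (lz (rmul y))^[L] f g ^ 2 ≤ κ * ∑ g, f g ^ 2 := by
  set ρ0 : Alt n →* (M ≃ₗᵢ[ℂ] M) := rM M hM with hρ0
  set F0 : M := ⟨toFA f, hmem⟩ with hF0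
  have key := avg_sum ρ0 y (2 * L) κ hκ F0
  have hG : (0 : ℝ) < Fintype.card (Alt n) := by exact_mod_cast Fintype.card_pos
  have hnF : ‖F0‖ ^ 2 = ∑ g, f g ^ 2 := by
    rw [Submodule.coe_norm]; exact norm_toFA f
  have hinner : ∀ (g : Alt n) (v w : FA n), ⟪RR n g v, w⟫_ℂ = ⟪v, RR n g⁻¹ w⟫_ℂ := by
    intro g v w
    have h2 : w = RR n g (RR n g⁻¹ w) := by
      rw [map_inv]
      exact ((RR n g).apply_symm_apply w).symm
    conv_lhs => rw [h2]
    exact (RR n g).inner_map_map _ _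
  have e1 : ∀ z : Alt n, ⟪cj ρ0 (TL ρ0 y ^ (2 * L)) z F0, F0⟫_ℂ =
      ⟪(TL (RR n) y ^ (2 * L)) (toFA f), toFA f⟫_ℂ := by
    intro z
    rw [Submodule.coe_inner]
    have h1 : ((cj ρ0 (TL ρ0 y ^ (2 * L)) z F0 : M) : FA n) =
        RR n z (LT n z ((TL (RR n) y ^ (2 * L)) (toFA f))) := by
      simp only [cj, Module.End.mul_apply, op_apply]
      rw [hρ0]
      unfold rM
      rw [res_apply, TL_res_pow, res_apply]
      change RR n z ((TL (RR n) y ^ (2 * L)) (RR n z⁻¹ (toFA f))) = _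
      rw [class_RR f hf z, LT_comm_pow]
    rw [h1, hinner]
    change ⟪_, RR n z⁻¹ (toFA f)⟫_ℂ = _
    rw [class_RR f hf z]
    exact (LT n z).inner_map_map _ _
  have e2 : ⟪(TL (RR n) y ^ (2 * L)) (toFA f), toFA f⟫_ℂ =
      ((∑ g, (lz (rmul y))^[L] f g ^ 2 : ℝ) : ℂ) := by
    rw [two_mul, pow_add, Module.End.mul_apply, pow_symm (TL_symm (RR n) y) L, TL_pow_toFA,
      inner_self_eq_norm_sq_to_K, ← norm_toFA]
    push_cast
    rfl
  have e3 : ∀ z : Alt n, (⟪cj ρ0 (TL ρ0 y ^ (2 * L)) z F0, F0⟫_ℂ).re =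
      ∑ g, (lz (rmul y))^[L] f g ^ 2 := fun z => by rw [e1, e2, Complex.ofReal_re]
  rw [Finset.sum_congr rfl fun z _ => e3 z, Finset.sum_const,
    Finset.card_univ, nsmul_eq_mul, hnF, mul_assoc] at key
  exact le_of_mul_le_mul_left key hG

/-- decay of the class functions with vanishing marginals of order at most one -/
theorem class_decay1 {n k : ℕ} (hk : 1 ≤ k) (N F I J0 ℓ t L : ℕ) (κ θ : ℝ) (hN : 100 ≤ N)
    (hNn : 2 * (12096 * N) ≤ n)
    (hn : 1000 ≤ n) (hF : 2 * F ≤ n) (hI : 1 ≤ I) (hJF : J0 ≤ F)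
    (hJI : n * J0 ^ (I + 1) ≤ F ^ (I + 1)) (hb1 : 2 * Real.exp 4 * F / n ≤ 1)
    (hκ1 : (2 * Real.exp 4 * F / n) ^ 2 ≤ κ)
    (hκ2 : ∀ j, N * j ≤ n → bb j J0 n F ^ J0 ≤ κ)
    (hκ3 : Real.exp (-(1 / (2 * 336 * 12096 * (N : ℝ) ^ 2) * n)) ≤ κ)
    (hℓ : I * (2 * t) ≤ ℓ) (hθ0 : 0 < θ) (hθ1 : θ < 1)
    (y : Fin k → Alt n) (hy : FewFixK n ℓ F (fun i => (y i : Equiv.Perm (Fin n))))
    (f : Alt n → ℝ) (hf : ∀ g h, f (h * g * h⁻¹) = f g) (hmem : toFA f ∈ HH 1 n) :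
    ∑ g, (lz (rmul y))^[L] f g ^ 2 ≤
      ((1 / θ) ^ (2 * t) * ((Real.sqrt (2 * k - 1) / k) ^ (2 * t) + κ) +
        ((1 + θ) / 2) ^ (2 * L)) * ∑ g, f g ^ 2 := by
  have hκ0 : 0 ≤ κ := le_trans (Real.exp_pos _).le hκ3
  have hno : ∀ K : Finset (Fin n), K.card ≤ 1 → ∀ v : HH 1 n,
      (∀ h : Alt n, (∀ a ∈ K, (h : Equiv.Perm (Fin n)) a = a) →
        rM (HH 1 n) (HH_inv 1 n) h v = v) → v = 0 := by
    intro K hK v hv
    have h1 : (v : FA n) = 0 := by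
      refine NOINV n 1 _ v.2 K hK fun s hs => ?_
      have h2 := hv s hs
      exact congrArg (fun z : HH 1 n => (z : FA n)) h2
    exact Subtype.ext h1
  have hκ : ∀ (W : Submodule ℂ (HH 1 n)) (hW : Irr (V := HH 1 n) (rM (HH 1 n) (HH_inv 1 n)) W),
      RtL (V := HH 1 n) (rM (HH 1 n) (HH_inv 1 n)) W hW.2.1 y (2 * L) ≤
        ((1 / θ) ^ (2 * t) * ((Real.sqrt (2 * k - 1) / k) ^ (2 * t) + κ) +
        ((1 + θ) / 2) ^ (2 * L)) * Module.finrank ℂ W := fun W hW =>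
    irr_trace (V := HH 1 n) hk N F I J0 ℓ t L κ θ hN hNn hn hF hI hJF hJI hb1 hκ1 hκ2 hκ3 hℓ hθ0
      hθ1 y hy (rM (HH 1 n) (HH_inv 1 n)) W hW fun K hK v _ hv => hno K hK v hv
  exact class_decay_sub y (HH 1 n) (HH_inv 1 n) _ L hκ f hf hmem

end

end Pool.Agent.L0h8.SK
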